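import Pool.Agent.NSB.Defs
import Pool.Agent.HP89.G0

/-! Module NSB-INT: a convex body has interior points if and only if it has positive width in all directions. -/

set_option autoImplicit false

namespace Pool.Agent.NSB

open MeasureTheory ProbabilityTheory Set Filter Topology Metric
open Pool.Agent.Helper82.Proj1 (supp shadow kappa)
open Pool.Agent.HP89
open scoped RealInnerProductSpace ENNReal Pointwise

variable {V : Type*} [NormedAddCommGroup V] [InnerProductSpace ℝ V] [FiniteDimensional ℝ V]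
  [MeasurableSpace V] [BorelSpace V]

theorem int_supp {K : Set V} (hK : CC K) (h : ∀ u : V, u ≠ 0 → 0 < supp K u + supp K (-u)) : (interior K).Nonempty := by
  rw [hK.convex.interior_nonempty_iff_affineSpan_eq_top]
  by_contra hc
  have hne : ((affineSpan ℝ K : AffineSubspace ℝ V) : Set V).Nonempty :=
    (affineSpan_nonempty ℝ).2 hK.nonempty
  have h1 : vectorSpan ℝ K ≠ ⊤ := by
    intro h2
    apply hc
    rw [← AffineSubspace.direction_eq_top_iff_of_nonempty hne, direction_affineSpan, h2]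
  have h3 : (vectorSpan ℝ K)ᗮ ≠ ⊥ := by
    rwa [Ne, Submodule.orthogonal_eq_bot_iff]
  obtain ⟨u, hu, hu0⟩ := Submodule.exists_mem_ne_zero_of_ne_bot h3
  obtain ⟨x, hx⟩ := hK.nonempty
  have h4 : ∀ y ∈ K, ⟪y, u⟫ = ⟪x, u⟫ := by
    intro y hy
    have h5 := (Submodule.mem_orthogonal _ u).1 hu (y - x) (vsub_mem_vectorSpan ℝ hy hx)
    rw [inner_sub_left] at h5
    linarith
  have h6 : supp K u ≤ ⟪x, u⟫ := Pool.Agent.Helper82.Proj1.supp_le hK.nonempty fun y hy => (h4 y hy).le
  have h7 : supp K (-u) ≤ -⟪x, u⟫ := Pool.Agent.Helper82.Proj1.supp_le hK.nonempty fun y hy => by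
    rw [inner_neg_right, h4 y hy]
  have h8 := h u hu0
  linarith

theorem supp_pos {K : Set V} (hK : CC K) (hi : (interior K).Nonempty) {u : V} (hu : u ≠ 0) :
    0 < supp K u + supp K (-u) := by
  obtain ⟨z, hz⟩ := hi
  have h1 : Tendsto (fun t : ℝ => z + t • u) (𝓝[>] 0) (𝓝 z) := by
    have h2 : Tendsto (fun t : ℝ => z + t • u) (𝓝 0) (𝓝 (z + (0 : ℝ) • u)) :=
      (Continuous.tendsto (by fun_prop) 0)
    rw [zero_smul, add_zero] at h2
    exact h2.mono_left nhdsWithin_le_nhds
  have h3 : ∀ᶠ t : ℝ in 𝓝[>] 0, z + t • u ∈ K := by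
    have h4 := h1.eventually (isOpen_interior.mem_nhds hz)
    exact h4.mono fun t ht => interior_subset ht
  obtain ⟨t, ht, ht0⟩ := (h3.and self_mem_nhdsWithin).exists
  have ht' : (0 : ℝ) < t := ht0
  have h5 := Pool.Agent.Helper82.Proj1.le_supp hK.compact ht u
  have h6 := Pool.Agent.Helper82.Proj1.le_supp hK.compact (interior_subset hz) (-u)
  rw [inner_add_left, real_inner_smul_left, real_inner_self_eq_norm_sq] at h5
  rw [inner_neg_right] at h6
  have h7 : 0 < ‖u‖ := norm_pos_iff.2 hu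
  have h8 : 0 < t * ‖u‖ ^ 2 := by positivity
  linarith

end Pool.Agent.NSB
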