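import Pool.Agent.NSB.PO
import Pool.Agent.NSB.INT
import Pool.Agent.HP89.G10
import Pool.Agent.HP89.A2b

/-! Module NSB-BOD: from bodies to the pair of measures (general form of `FAC3/BSb.lean`).

After a translation `supp M = c * supp K'`; `geoI` gives measures which generate `c⁻¹ M = K'` and `L`, `geoII` gives the two relations for unit
vectors, all functions are homogeneous and finite, so the relations hold in `ℝ≥0∞` for all vectors. Positivity: `supp_pos`, `iter_ew_ne`. -/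

set_option autoImplicit false

namespace Pool.Agent.NSB

open MeasureTheory ProbabilityTheory Set Filter Topology Metric
open Pool.Agent.Helper82.Proj1 (supp shadow kappa)
open Pool.Agent.HP89
open scoped RealInnerProductSpace ENNReal Pointwise

variable {V : Type*} [NormedAddCommGroup V] [InnerProductSpace ℝ V] [FiniteDimensional ℝ V]
  [MeasurableSpace V] [BorelSpace V]

omit [FiniteDimensional ℝ V] [MeasurableSpace V] [BorelSpace V] in
private theorem BOD_img (c : ℝ) (x : V) (K : Set V) : (fun y => c • y + x) '' K = c • K + {x} := by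
  rw [Set.add_singleton, ← Set.image_smul, Set.image_image]

omit [FiniteDimensional ℝ V] [MeasurableSpace V] [BorelSpace V] in
private theorem BOD_ccs (x : V) : CC ({x} : Set V) :=
  ⟨isCompact_singleton, convex_singleton x, ⟨x, rfl⟩⟩

omit [FiniteDimensional ℝ V] [MeasurableSpace V] [BorelSpace V] in
private theorem BOD_cc {K : Set V} (hK : CC K) (c : ℝ) (x : V) : CC ((fun y => c • y + x) '' K) := by
  rw [BOD_img]
  exact (hK.smul c).add (BOD_ccs x)

omit [FiniteDimensional ℝ V] [MeasurableSpace V] [BorelSpace V] in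
private theorem BOD_supp {K : Set V} (hK : CC K) {c : ℝ} (hc : 0 ≤ c) (x u : V) :
    supp ((fun y => c • y + x) '' K) u = c * supp K u + ⟪x, u⟫ := by
  rw [BOD_img, Pool.Agent.HP89.supp_add (hK.smul c) (BOD_ccs x), Pool.Agent.HP89.supp_smul_left hK hc]
  congr 1
  simp [supp]

omit [FiniteDimensional ℝ V] [MeasurableSpace V] [BorelSpace V] in
private theorem BOD_norm {u : V} (hu : u ≠ 0) : u = ‖u‖ • (‖u‖⁻¹ • u) ∧ ‖‖u‖⁻¹ • u‖ = 1 := by
  have h0 := norm_ne_zero_iff.2 hu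
  constructor
  · rw [smul_smul, mul_inv_cancel₀ h0, one_smul]
  · rw [norm_smul, norm_inv, norm_norm, inv_mul_cancel₀ h0]

omit [FiniteDimensional ℝ V] [BorelSpace V] in
private theorem BOD_Jc_smul (μ : Measure V) (t : ℝ) (u : V) : Jc μ (t • u) = ENNReal.ofReal |t| * Jc μ u := by
  unfold Jc
  rw [← lintegral_const_mul' _ _ ENNReal.ofReal_ne_top]
  refine lintegral_congr fun x => ?_
  rw [real_inner_smul_right, abs_mul, ENNReal.ofReal_mul (abs_nonneg t)]

private theorem BOD_it_smul (μ : Measure V) (j : ℕ) (t : ℝ) (u : V) :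
    iter μ j ew [t • u] = ENNReal.ofReal |t| * iter μ j ew [u] := by
  apply iter_hom_last μ j ENNReal.ofReal_ne_top
  intro Z
  have h1 : ∀ y : V, wn (Z ++ [y]) = wn (y :: Z) := fun y => wn_perm (List.perm_append_singleton y Z)
  unfold ew
  rw [h1, h1, wn_smul_cons, ENNReal.ofReal_mul (abs_nonneg t)]

private theorem BOD_unit {μ ν : Measure V} {j : ℕ} {a : ℝ≥0∞}
    (h : ∀ u, ‖u‖ = 1 → Jc μ u = a * iter ν j ew [u]) (u : V) : Jc μ u = a * iter ν j ew [u] := by
  by_cases hu : u = 0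
  · have h1 := BOD_Jc_smul μ 0 (0 : V)
    have h2 := BOD_it_smul ν j 0 (0 : V)
    rw [zero_smul, abs_zero, ENNReal.ofReal_zero, zero_mul] at h1 h2
    rw [hu, h1, h2, mul_zero]
  obtain ⟨h1, h2⟩ := BOD_norm hu
  rw [h1, BOD_Jc_smul μ ‖u‖ (‖u‖⁻¹ • u), BOD_it_smul ν j ‖u‖ (‖u‖⁻¹ • u), h _ h2, mul_left_comm]

omit [FiniteDimensional ℝ V] [BorelSpace V] in
private theorem BOD_unit' {A : Set V} (hA : CC A) {ρ : Measure V}
    (h : ∀ u, ‖u‖ = 1 → supp A u = (Jc ρ u).toReal) (u : V) : supp A u = (Jc ρ u).toReal := by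
  by_cases hu : u = 0
  · have h1 := BOD_Jc_smul ρ 0 (0 : V)
    rw [zero_smul, abs_zero, ENNReal.ofReal_zero, zero_mul] at h1
    rw [hu, h1, Pool.Agent.HP89.supp_zero_right hA, ENNReal.toReal_zero]
  obtain ⟨h1, h2⟩ := BOD_norm hu
  rw [h1, Pool.Agent.HP89.supp_smul_right hA (norm_nonneg u), BOD_Jc_smul ρ ‖u‖ (‖u‖⁻¹ • u), h _ h2,
    ENNReal.toReal_mul, ENNReal.toReal_ofReal (abs_nonneg _), abs_of_nonneg (norm_nonneg u)]

omit [FiniteDimensional ℝ V] [BorelSpace V] in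
private theorem BOD_fin {ρ : Measure V} (h : Integrable (fun x : V => ‖x‖) ρ) (u : V) : Jc ρ u ≠ ⊤ := by
  have h1 : (∫⁻ x, ENNReal.ofReal ‖x‖ ∂ρ) ≠ ⊤ := h.lintegral_lt_top.ne
  refine ne_top_of_le_ne_top (ENNReal.mul_ne_top (a := ENNReal.ofReal ‖u‖) ENNReal.ofReal_ne_top h1) ?_
  unfold Jc
  rw [← lintegral_const_mul' _ _ ENNReal.ofReal_ne_top]
  refine lintegral_mono fun x => ?_
  rw [← ENNReal.ofReal_mul (norm_nonneg u)]
  refine ENNReal.ofReal_le_ofReal ?_
  rw [mul_comm]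
  exact abs_real_inner_le_norm x u

omit [FiniteDimensional ℝ V] in
private theorem BOD_toReal {ρ : Measure V} (u : V) : (Jc ρ u).toReal = ∫ x, |⟪x, u⟫| ∂ρ := by
  unfold Jc
  rw [integral_eq_lintegral_of_nonneg_ae]
  · exact Filter.Eventually.of_forall fun x => abs_nonneg _
  · exact (by fun_prop : Continuous fun x : V => |⟪x, u⟫|).aestronglyMeasurable

theorem bodies {j : ℕ} (hj : j < Module.finrank ℝ V) {K L M : Set V} (hK : CC K) (hL : CC L) (hM : CC M)
    (hi : (interior K).Nonempty) (h1 : IsPB j K L) (h2 : IsPB j L M) {c : ℝ} (hc : 0 < c) {x0 : V}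
    (hom : M = (fun y => c • y + x0) '' K) :
    ∃ (μ ν : Measure V) (x1 : V), Par j μ ν ∧ (∀ u, supp K u = ⟪x1, u⟫ + (Jc ν u).toReal) ∧
      ∀ u, supp L u = (Jc μ u).toReal := by
  obtain ⟨K', hK'⟩ : ∃ K' : Set V, K' = (fun y => (1 : ℝ) • y + c⁻¹ • x0) '' K := ⟨_, rfl⟩
  have hCK' : CC K' := by rw [hK']; exact BOD_cc hK 1 _
  have hsK' : ∀ u, supp K' u = supp K u + c⁻¹ * ⟪x0, u⟫ := by
    intro u
    rw [hK', BOD_supp hK zero_le_one, one_mul, real_inner_smul_left]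
  have hsM : ∀ u, supp M u = c * supp K' u := by
    intro u
    rw [hom, BOD_supp hK hc.le, hsK']
    field_simp
  have h1' : IsPB j K' L := by
    intro u hu
    obtain ⟨v, hv, hst⟩ := h1 u hu
    have h3 := hst.homothety hK hu one_pos (c⁻¹ • x0)
    rw [← hK'] at h3
    exact ⟨fun i => 1 ^ i * v i, by simp [hv], h3⟩
  -- the measures
  obtain ⟨ρM, hfM, hiM, hρM⟩ := Pool.Agent.HP89.geoI hj hL h2
  obtain ⟨μ, hf1, hi1, hρ1⟩ := Pool.Agent.HP89.geoI hj hCK' h1'
  obtain ⟨ν, hν⟩ : ∃ ν : Measure V, ν = ENNReal.ofReal c⁻¹ • ρM := ⟨_, rfl⟩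
  have hf0 : IsFiniteMeasure ν := by
    rw [hν]
    exact MeasureTheory.Measure.smul_finite _ ENNReal.ofReal_ne_top
  have hi0 : Integrable (fun x : V => ‖x‖) ν := by
    rw [hν]
    exact hiM.smul_measure ENNReal.ofReal_ne_top
  have hs0 : ∀ u, ‖u‖ = 1 → supp K' u = ∫ x, |⟪x, u⟫| ∂ν := by
    intro u hu
    rw [hν, integral_smul_measure, ENNReal.toReal_ofReal (by positivity), smul_eq_mul, ← hρM u hu, hsM]
    field_simp
  have hK1 : ∀ u, supp K' u = (Jc ν u).toReal :=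
    BOD_unit' hCK' fun u hu => by rw [hs0 u hu, BOD_toReal]
  have hL1 : ∀ u, supp L u = (Jc μ u).toReal :=
    BOD_unit' hL fun u hu => by rw [hρ1 u hu, BOD_toReal]
  obtain ⟨f, hf⟩ : ∃ f : ℝ, f = 2 ^ j / (j.factorial : ℝ) := ⟨_, rfl⟩
  have hfp : 0 < f := by
    rw [hf]
    have : (0 : ℝ) < (j.factorial : ℝ) := by exact_mod_cast j.factorial_pos
    positivity
  have e1 : ∀ u, Jc μ u = ENNReal.ofReal f * iter ν j ew [u] := by
    refine BOD_unit fun u hu => ?_
    have h3 := Pool.Agent.HP89.geoII hj hCK' h1' hi0 hs0 hu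
    rw [← hf, hL1] at h3
    refine (ENNReal.toReal_eq_toReal_iff' (BOD_fin hi1 u)
      (ENNReal.mul_ne_top ENNReal.ofReal_ne_top (iter_ew_lt_top ν hi0 j [u]).ne)).1 ?_
    rw [ENNReal.toReal_mul, h3, ENNReal.toReal_ofReal hfp.le]
  have e2 : ∀ u, Jc ν u = ENNReal.ofReal (f / c) * iter μ j ew [u] := by
    refine BOD_unit fun u hu => ?_
    have h3 := Pool.Agent.HP89.geoII hj hL h2 hi1 hρ1 hu
    rw [← hf, hsM, hK1] at h3
    refine (ENNReal.toReal_eq_toReal_iff' (BOD_fin hi0 u)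
      (ENNReal.mul_ne_top ENNReal.ofReal_ne_top (iter_ew_lt_top μ hi1 j [u]).ne)).1 ?_
    rw [ENNReal.toReal_mul, ENNReal.toReal_ofReal (by positivity)]
    field_simp
    linarith
  have c1 : ENNReal.ofReal f ≠ 0 := by
    rw [Ne, ENNReal.ofReal_eq_zero, not_le]
    exact hfp
  have c2 : ENNReal.ofReal (f / c) ≠ 0 := by
    rw [Ne, ENNReal.ofReal_eq_zero, not_le]
    positivity
  have P2 : ∀ u, u ≠ 0 → Jc ν u ≠ 0 := by
    intro u hu h0
    have h4 : supp K' u = 0 := by rw [hK1, h0, ENNReal.toReal_zero]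
    have h5 : supp K' (-u) = 0 := by
      have h6 := BOD_Jc_smul ν (-1) u
      rw [neg_one_smul, h0, mul_zero] at h6
      rw [hK1, h6, ENNReal.toReal_zero]
    have h6 := supp_pos hK hi hu
    rw [hsK'] at h4 h5
    rw [inner_neg_right] at h5
    linarith
  have P1 : ∀ u, u ≠ 0 → Jc μ u ≠ 0 := by
    intro u hu h0
    rw [e1, mul_eq_zero] at h0
    refine iter_ew_ne P2 j [u] ?_ ?_ (h0.resolve_left c1)
    · rw [wn_singleton]
      exact norm_ne_zero_iff.2 hu
    · rw [List.length_singleton]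
      omega
  refine ⟨μ, ν, -(c⁻¹ • x0), ⟨hf1, hf0, hi1, hi0, ⟨_, c2, ENNReal.ofReal_ne_top, e2⟩,
    ⟨_, c1, ENNReal.ofReal_ne_top, e1⟩, P1, P2⟩, fun u => ?_, hL1⟩
  have h3 := hsK' u
  rw [hK1] at h3
  rw [inner_neg_left, real_inner_smul_left]
  linarith

end Pool.Agent.NSB
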