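import Pool.Agent.NSB.Defs
import Pool.Agent.HP89.G0

/-! Module NSB-LS: support functions of sums of linear images.

The set is the sum of multiples of the two images; its support function is the sum of the multiples of `supp L_i (adjoint T_i u)`, and
`Jc (l_i.map T_i) u = Jc l_i (adjoint T_i u)`. -/

set_option autoImplicit false

namespace Pool.Agent.NSB

open MeasureTheory ProbabilityTheory Set Filter Topology Metric
open Pool.Agent.Helper82.Proj1 (supp shadow kappa)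
open Pool.Agent.HP89
open scoped RealInnerProductSpace ENNReal Pointwise

variable {V : Type*} [NormedAddCommGroup V] [InnerProductSpace ℝ V] [FiniteDimensional ℝ V]
  [MeasurableSpace V] [BorelSpace V]

private theorem LS_fin {U : Type*} [NormedAddCommGroup U] [InnerProductSpace ℝ U] [MeasurableSpace U]
    {l : Measure U} (hi : Integrable (fun x => ‖x‖) l) (w : U) : Jc l w ≠ ⊤ := by
  have h1 : Jc l w ≤ ∫⁻ x, ENNReal.ofReal ‖w‖ * ENNReal.ofReal ‖x‖ ∂l := by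
    refine lintegral_mono fun x => ?_
    rw [← ENNReal.ofReal_mul (norm_nonneg w)]
    refine ENNReal.ofReal_le_ofReal ?_
    rw [mul_comm]
    exact abs_real_inner_le_norm x w
  rw [lintegral_const_mul' _ _ ENNReal.ofReal_ne_top] at h1
  refine ne_top_of_le_ne_top (ENNReal.mul_ne_top ENNReal.ofReal_ne_top ?_) h1
  exact hi.lintegral_lt_top.ne

omit [MeasurableSpace V] [BorelSpace V] in
private theorem LS_img {U : Type*} [NormedAddCommGroup U] [InnerProductSpace ℝ U] [FiniteDimensional ℝ U]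
    (T : U →ₗ[ℝ] V) {L : Set U} (hL : CC L) :
    CC (T '' L) ∧ ∀ u, supp (T '' L) u = supp L (T.adjoint u) := by
  have hc : CC (T '' L) := ⟨hL.compact.image T.continuous_of_finiteDimensional, hL.convex.linear_image T,
    hL.nonempty.image T⟩
  refine ⟨hc, fun u => ?_⟩
  unfold supp
  rw [Set.image_image]
  congr 1
  refine Set.image_congr fun x _ => ?_
  rw [LinearMap.adjoint_inner_right]

private theorem LS_map {U : Type*} [NormedAddCommGroup U] [InnerProductSpace ℝ U] [FiniteDimensional ℝ U]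
    [MeasurableSpace U] [BorelSpace U] (T : U →ₗ[ℝ] V) (l : Measure U) (u : V) :
    Jc (l.map T) u = Jc l (T.adjoint u) := by
  unfold Jc
  have hT : Measurable T := T.continuous_of_finiteDimensional.measurable
  rw [lintegral_map (by fun_prop) hT]
  refine lintegral_congr fun x => ?_
  rw [LinearMap.adjoint_inner_right]

theorem lin_sum {U₁ U₂ : Type*} [NormedAddCommGroup U₁] [InnerProductSpace ℝ U₁] [FiniteDimensional ℝ U₁]
    [MeasurableSpace U₁] [BorelSpace U₁] [NormedAddCommGroup U₂] [InnerProductSpace ℝ U₂] [FiniteDimensional ℝ U₂]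
    [MeasurableSpace U₂] [BorelSpace U₂]
    (T₁ : U₁ →ₗ[ℝ] V) (T₂ : U₂ →ₗ[ℝ] V) {l₁ : Measure U₁} {l₂ : Measure U₂} (hi₁ : Integrable (fun x => ‖x‖) l₁)
    (hi₂ : Integrable (fun x => ‖x‖) l₂) {L₁ : Set U₁} {L₂ : Set U₂} (hL₁ : CC L₁) (hL₂ : CC L₂)
    (hs₁ : ∀ w, supp L₁ w = (Jc l₁ w).toReal) (hs₂ : ∀ w, supp L₂ w = (Jc l₂ w).toReal) {β₁ β₂ : ℝ≥0∞} (hβ₁ : β₁ ≠ ⊤)
    (hβ₂ : β₂ ≠ ⊤) : CC {z | ∃ y ∈ L₁, ∃ y' ∈ L₂, z = β₁.toReal • T₁ y + β₂.toReal • T₂ y'} ∧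
      ∀ u, supp {z | ∃ y ∈ L₁, ∃ y' ∈ L₂, z = β₁.toReal • T₁ y + β₂.toReal • T₂ y'} u =
        (Jc (β₁ • l₁.map T₁ + β₂ • l₂.map T₂) u).toReal := by
  obtain ⟨c₁, s₁⟩ := LS_img T₁ hL₁
  obtain ⟨c₂, s₂⟩ := LS_img T₂ hL₂
  have hset : {z | ∃ y ∈ L₁, ∃ y' ∈ L₂, z = β₁.toReal • T₁ y + β₂.toReal • T₂ y'} =
      β₁.toReal • (T₁ '' L₁) + β₂.toReal • (T₂ '' L₂) := by
    ext z
    constructor
    · rintro ⟨y, hy, y', hy', rfl⟩
      exact Set.add_mem_add (Set.smul_mem_smul_set ⟨y, hy, rfl⟩) (Set.smul_mem_smul_set ⟨y', hy', rfl⟩)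
    · rintro ⟨_, ⟨_, ⟨y, hy, rfl⟩, rfl⟩, _, ⟨_, ⟨y', hy', rfl⟩, rfl⟩, rfl⟩
      exact ⟨y, hy, y', hy', rfl⟩
  rw [hset]
  refine ⟨(c₁.smul _).add (c₂.smul _), fun u => ?_⟩
  rw [supp_add (c₁.smul _) (c₂.smul _), supp_smul_left c₁ ENNReal.toReal_nonneg,
    supp_smul_left c₂ ENNReal.toReal_nonneg, s₁, s₂, hs₁, hs₂]
  have hJ : Jc (β₁ • l₁.map T₁ + β₂ • l₂.map T₂) u =
      β₁ * Jc l₁ (T₁.adjoint u) + β₂ * Jc l₂ (T₂.adjoint u) := by
    rw [← LS_map T₁ l₁ u, ← LS_map T₂ l₂ u]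
    unfold Jc
    rw [lintegral_add_measure, lintegral_smul_measure, lintegral_smul_measure]
    rfl
  rw [hJ, ENNReal.toReal_add (ENNReal.mul_ne_top hβ₁ (LS_fin hi₁ _)) (ENNReal.mul_ne_top hβ₂ (LS_fin hi₂ _)),
    ENNReal.toReal_mul, ENNReal.toReal_mul]

end Pool.Agent.NSB
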