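import Pool.Agent.NSB.INT
import Pool.Agent.FAC3.ZA
import Pool.Agent.HP89.A2b

/-! Module NSB-SOL: from a pair of measures to a solution.

By Steiner's formula for zonoids (`StF_zon`) a multiple `L'` of `L` is the projection body of `K`, and a multiple `M` of `K` is
the projection body of `L'`; the factors are read off from the equations of `Par`. -/

set_option autoImplicit false

namespace Pool.Agent.NSB

open MeasureTheory ProbabilityTheory Set Filter Topology Metric
open Pool.Agent.Helper82.Proj1 (supp shadow kappa)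
open Pool.Agent.HP89
open scoped RealInnerProductSpace ENNReal Pointwise

variable {V : Type*} [NormedAddCommGroup V] [InnerProductSpace ℝ V] [FiniteDimensional ℝ V]
  [MeasurableSpace V] [BorelSpace V]

omit [FiniteDimensional ℝ V] in
private theorem sol_int (μ : Measure V) (u : V) : (Jc μ u).toReal = ∫ x, |⟪x, u⟫| ∂μ := by
  unfold Jc
  rw [integral_eq_lintegral_of_nonneg_ae (Eventually.of_forall fun x => abs_nonneg _)]
  exact (continuous_abs.comp (continuous_id.inner continuous_const)).aestronglyMeasurable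

theorem sol_of_par (hd : 1 ≤ Module.finrank ℝ V) {μ ν : Measure V} (h : Par (Module.finrank ℝ V - 1) μ ν) {K L : Set V}
    (hK : CC K) (hs : ∀ u, supp K u = (Jc ν u).toReal) (hL : CC L) (hsL : ∀ u, supp L u = (Jc μ u).toReal) : IsSol K := by
  have hfμ := h.f1
  have hfν := h.f2
  obtain ⟨c, hc0, hct, hc⟩ := h.c1
  obtain ⟨c', hc'0, hc't, hc'⟩ := h.c2
  have hνt : ∀ u, Jc ν u ≠ ⊤ := fun u => by
    rw [hc u]
    exact ENNReal.mul_ne_top hct (iter_ew_lt_top μ h.i1 _ _).ne
  generalize hj : Module.finrank ℝ V - 1 = j at *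
  have hcp : 0 < c.toReal := ENNReal.toReal_pos hc0 hct
  have hc'p : 0 < c'.toReal := ENNReal.toReal_pos hc'0 hc't
  set q : ℝ := 2 ^ j / (j.factorial : ℝ) with hq
  have hqp : 0 < q := by positivity
  set a : ℝ := q / c'.toReal with ha
  have hap : 0 < a := div_pos hqp hc'p
  set b : ℝ := q * a ^ j / c.toReal with hb
  have hbp : 0 < b := div_pos (mul_pos hqp (pow_pos hap j)) hcp
  refine ⟨hK, ?_, a • L, b • K, hL.smul a, hK.smul b, ?_, ?_, b, hbp, 0, ?_⟩
  · refine int_supp hK fun u hu => ?_
    rw [hs, hs]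
    exact add_pos_of_pos_of_nonneg (ENNReal.toReal_pos (h.p2 u hu) (hνt u)) ENNReal.toReal_nonneg
  · rw [hj]
    intro u hu
    refine ⟨_, ?_, Pool.Agent.FAC3.StF_zon hK h.i2 (fun w _ => by rw [hs, sol_int]) hu⟩
    show q * (iter ν j ew [u]).toReal = supp (a • L) u
    rw [supp_smul_left hL hap.le, hsL, hc' u, ENNReal.toReal_mul, ha]
    field_simp
  · rw [hj]
    intro u hu
    have hk : ENNReal.ofReal a ≠ ⊤ := ENNReal.ofReal_ne_top
    have hfin : IsFiniteMeasure (ENNReal.ofReal a • μ) := Measure.smul_finite μ hk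
    have hint : Integrable (fun x => ‖x‖) (ENNReal.ofReal a • μ) := h.i1.smul_measure hk
    refine ⟨_, ?_, Pool.Agent.FAC3.StF_zon (hL.smul a) hint (fun w _ => ?_) hu⟩
    · show q * (iter (ENNReal.ofReal a • μ) j ew [u]).toReal = supp (b • K) u
      rw [supp_smul_left hK hbp.le, hs, hc u, iter_smul_measure μ j ew _ hk, ENNReal.toReal_mul, ENNReal.toReal_mul,
        ENNReal.toReal_pow, ENNReal.toReal_ofReal hap.le, hb]
      field_simp
    · rw [supp_smul_left hL hap.le, hsL, sol_int, integral_smul_measure, ENNReal.toReal_ofReal hap.le, smul_eq_mul]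
  · rw [← image_smul]
    simp only [add_zero]

end Pool.Agent.NSB
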