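import Pool.Agent.NSB.Defs
import Pool.Agent.HP89.G9

/-! Module NSB-TR: translations.

`StF.homothety` with factor `1` (`1 ^ i = 1`). -/

set_option autoImplicit false

namespace Pool.Agent.NSB

open MeasureTheory ProbabilityTheory Set Filter Topology Metric
open Pool.Agent.Helper82.Proj1 (supp shadow kappa)
open Pool.Agent.HP89
open scoped RealInnerProductSpace ENNReal Pointwise

variable {V : Type*} [NormedAddCommGroup V] [InnerProductSpace ℝ V] [FiniteDimensional ℝ V]
  [MeasurableSpace V] [BorelSpace V]

omit [FiniteDimensional ℝ V] [MeasurableSpace V] [BorelSpace V] in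
private theorem TR_img (x : V) (K : Set V) : (fun y => y + x) '' K = K + {x} :=
  Set.add_singleton.symm

omit [FiniteDimensional ℝ V] [MeasurableSpace V] [BorelSpace V] in
private theorem TR_cc (x : V) : CC ({x} : Set V) :=
  ⟨isCompact_singleton, convex_singleton x, ⟨x, rfl⟩⟩

omit [MeasurableSpace V] [BorelSpace V] in
theorem CC_trans {K : Set V} (hK : CC K) (x : V) : CC ((fun y => y + x) '' K) := by
  rw [TR_img]
  exact hK.add (TR_cc x)

omit [MeasurableSpace V] [BorelSpace V] in
theorem supp_trans {K : Set V} (hK : CC K) (x u : V) : supp ((fun y => y + x) '' K) u = supp K u + ⟪x, u⟫ := by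
  rw [TR_img, Pool.Agent.HP89.supp_add hK (TR_cc x)]
  congr 1
  simp [supp]

theorem IsSol.translate {K : Set V} (h : IsSol K) (x : V) : IsSol ((fun y => y + x) '' K) := by
  obtain ⟨hK, hi, L, M, hL, hM, h1, h2, c, hc, x0, hx0⟩ := h
  refine ⟨CC_trans hK x, ?_, L, M, hL, hM, ?_, h2, c, hc, x0 - c • x, ?_⟩
  · have e : (fun y : V => y + x) '' K = (Homeomorph.addRight x) '' K := rfl
    rw [e, ← (Homeomorph.addRight x).image_interior]
    exact hi.image _
  · intro u hu
    obtain ⟨v, hv, hs⟩ := h1 u hu
    refine ⟨fun i => 1 ^ i * v i, ?_, ?_⟩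
    · show 1 ^ _ * v _ = _
      rw [one_pow, one_mul, hv]
    · have h3 := StF.homothety hK hu hs one_pos x
      have e : (fun y : V => (1 : ℝ) • y + x) = fun y => y + x := by
        funext y
        rw [one_smul]
      rwa [e] at h3
  · rw [hx0, Set.image_image]
    refine Set.image_congr fun y _ => ?_
    show c • y + x0 = c • (y + x) + (x0 - c • x)
    rw [smul_add]
    abel

end Pool.Agent.NSB
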