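import Pool.Agent.NSB.PSM
import Pool.Agent.NSB.LS
import Pool.Agent.NSB.TR
import Pool.Agent.NSB.SOL
import Pool.Agent.NSB.BOD

/-! Module NSB-CB: part (b), converse: a direct sum of two solutions is a solution. -/

set_option autoImplicit false

namespace Pool.Agent.NSB

open MeasureTheory ProbabilityTheory Set Filter Topology Metric
open Pool.Agent.Helper82.Proj1 (supp shadow kappa)
open Pool.Agent.HP89
open scoped RealInnerProductSpace ENNReal Pointwise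

variable {V : Type*} [NormedAddCommGroup V] [InnerProductSpace ℝ V] [FiniteDimensional ℝ V]
  [MeasurableSpace V] [BorelSpace V]

private theorem center {V : Type*} [NormedAddCommGroup V] [InnerProductSpace ℝ V] [FiniteDimensional ℝ V]
    [MeasurableSpace V] [BorelSpace V] (hd : 1 ≤ Module.finrank ℝ V) {K : Set V} (h : IsSol K) :
    ∃ (μ ν : Measure V) (x1 : V) (K' L : Set V), Par (Module.finrank ℝ V - 1) μ ν ∧ CC K' ∧ CC L ∧
      (∀ u, supp K' u = (Jc ν u).toReal) ∧ (∀ u, supp L u = (Jc μ u).toReal) ∧ K = (fun y => y + x1) '' K' := by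
  obtain ⟨hK, hi, L, M, hL, hM, p1, p2, c, hc, x0, hom⟩ := h
  obtain ⟨μ, ν, x1, hP, hs, hs'⟩ := bodies (by omega) hK hL hM hi p1 p2 hc hom
  refine ⟨μ, ν, x1, (fun y => y + -x1) '' K, L, hP, CC_trans hK _, hL, fun u => ?_, hs', ?_⟩
  · rw [supp_trans hK, hs u, inner_neg_left]
    ring
  · rw [image_image]
    simp

theorem partB_bwd {W₁ W₂ : Submodule ℝ V} (hW : IsCompl W₁ W₂) (h1 : W₁ ≠ ⊥) (h2 : W₂ ≠ ⊥) {K₁ : Set W₁} {K₂ : Set W₂}
    (s1 : IsSol K₁) (s2 : IsSol K₂) (x : V) : IsSol {z : V | ∃ y ∈ K₁, ∃ y' ∈ K₂, z = x + (y : V) + (y' : V)} := by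
  have hd1 : 1 ≤ Module.finrank ℝ W₁ := Submodule.one_le_finrank_iff.2 h1
  have hd2 : 1 ≤ Module.finrank ℝ W₂ := Submodule.one_le_finrank_iff.2 h2
  have hd : 1 ≤ Module.finrank ℝ V := by
    have := Submodule.finrank_le W₁
    omega
  obtain ⟨μ₁, ν₁, x₁, K₁', L₁, P₁, c₁, l₁, a₁, b₁, e₁⟩ := center hd1 s1
  obtain ⟨μ₂, ν₂, x₂, K₂', L₂, P₂, c₂, l₂, a₂, b₂, e₂⟩ := center hd2 s2
  obtain ⟨β₁, β₂, hβ₁, hβ₂, hP⟩ := par_sum hW h1 h2 P₁ P₂
  have hL := lin_sum (LinearMap.adjoint (W₁.projectionOnto W₂ hW)) (LinearMap.adjoint (W₂.projectionOnto W₁ hW.symm))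
    P₁.i1 P₂.i1 l₁ l₂ b₁ b₂ hβ₁ hβ₂
  have hK := lin_sum W₁.subtype W₂.subtype P₁.i2 P₂.i2 c₁ c₂ a₁ a₂ ENNReal.one_ne_top ENNReal.one_ne_top
  have hsol := (sol_of_par hd hP hK.1 hK.2 hL.1 hL.2).translate (x + x₁ + x₂)
  convert hsol using 1
  ext z
  simp only [mem_ofPred_eq, mem_image, e₁, e₂, ENNReal.toReal_one, one_smul, Submodule.subtype_apply]
  constructor
  · rintro ⟨y, ⟨k, hk, rfl⟩, y', ⟨k', hk', rfl⟩, rfl⟩
    refine ⟨_, ⟨k, hk, k', hk', rfl⟩, ?_⟩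
    push_cast
    abel
  · rintro ⟨_, ⟨k, hk, k', hk', rfl⟩, rfl⟩
    refine ⟨_, ⟨k, hk, rfl⟩, _, ⟨k', hk', rfl⟩, ?_⟩
    push_cast
    abel

end Pool.Agent.NSB
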