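import Pool.Agent.NSB.Defs
import Pool.Agent.HP89.G0

/-! Module NSB-NS: direct sums are not smooth.

At the point `x + y + y'`, where `y ∈ K₁` maximises `⟪·, u₁⟫` and `y' ∈ K₂` maximises `⟪·, u₂⟫`, the unit vectors
`u₁ ∈ W₂ᗮ` and `u₂ ∈ W₁ᗮ` are two different outer normal vectors. -/

set_option autoImplicit false

namespace Pool.Agent.NSB

open MeasureTheory ProbabilityTheory Set Filter Topology Metric
open Pool.Agent.Helper82.Proj1 (supp shadow kappa)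
open Pool.Agent.HP89
open scoped RealInnerProductSpace ENNReal Pointwise

variable {V : Type*} [NormedAddCommGroup V] [InnerProductSpace ℝ V] [FiniteDimensional ℝ V]
  [MeasurableSpace V] [BorelSpace V]

omit [MeasurableSpace V] [BorelSpace V] in
private theorem NS_unit {W₁ W₂ : Submodule ℝ V} (hW : IsCompl W₁ W₂) (h1 : W₁ ≠ ⊥) :
    ∃ u ∈ W₂ᗮ, ‖u‖ = 1 := by
  have h : W₂ᗮ ≠ ⊥ := by
    intro h
    rw [Submodule.orthogonal_eq_bot_iff] at h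
    apply h1
    have := hW.disjoint.eq_bot
    rwa [h, inf_top_eq] at this
  obtain ⟨v, hv, hv0⟩ := Submodule.exists_mem_ne_zero_of_ne_bot h
  refine ⟨‖v‖⁻¹ • v, Submodule.smul_mem _ _ hv, ?_⟩
  rw [norm_smul, norm_inv, norm_norm, inv_mul_cancel₀ (norm_ne_zero_iff.2 hv0)]

theorem sum_not_smooth {W₁ W₂ : Submodule ℝ V} (hW : IsCompl W₁ W₂) (h1 : W₁ ≠ ⊥) (h2 : W₂ ≠ ⊥) {K₁ : Set W₁}
    {K₂ : Set W₂} (hK₁ : CC K₁) (hK₂ : CC K₂) (x : V) :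
    ¬ IsSmooth {z : V | ∃ y ∈ K₁, ∃ y' ∈ K₂, z = x + (y : V) + (y' : V)} := by
  intro hsm
  obtain ⟨u₁, hu₁, hn₁⟩ := NS_unit hW h1
  obtain ⟨u₂, hu₂, hn₂⟩ := NS_unit hW.symm h2
  obtain ⟨y, hy, hmy⟩ := hK₁.compact.exists_isMaxOn hK₁.nonempty
    (f := fun k : W₁ => ⟪(k : V), u₁⟫) (by fun_prop)
  obtain ⟨y', hy', hmy'⟩ := hK₂.compact.exists_isMaxOn hK₂.nonempty
    (f := fun k : W₂ => ⟪(k : V), u₂⟫) (by fun_prop)
  have ho₁ : ∀ k : W₂, ⟪(k : V), u₁⟫ = 0 := fun k => (Submodule.mem_orthogonal W₂ u₁).1 hu₁ k k.2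
  have ho₂ : ∀ k : W₁, ⟪(k : V), u₂⟫ = 0 := fun k => (Submodule.mem_orthogonal W₁ u₂).1 hu₂ k k.2
  have e₁ : ⟪x + (y : V) + (y' : V), u₁⟫ =
      supp {z : V | ∃ y ∈ K₁, ∃ y' ∈ K₂, z = x + (y : V) + (y' : V)} u₁ := by
    symm
    apply IsGreatest.csSup_eq
    refine ⟨⟨_, ⟨y, hy, y', hy', rfl⟩, rfl⟩, ?_⟩
    rintro _ ⟨_, ⟨k, hk, k', _, rfl⟩, rfl⟩
    have := hmy hk
    simp only [Set.mem_setOf_eq] at this
    simp only [inner_add_left, ho₁]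
    linarith
  have e₂ : ⟪x + (y : V) + (y' : V), u₂⟫ =
      supp {z : V | ∃ y ∈ K₁, ∃ y' ∈ K₂, z = x + (y : V) + (y' : V)} u₂ := by
    symm
    apply IsGreatest.csSup_eq
    refine ⟨⟨_, ⟨y, hy, y', hy', rfl⟩, rfl⟩, ?_⟩
    rintro _ ⟨_, ⟨k, _, k', hk', rfl⟩, rfl⟩
    have := hmy' hk'
    simp only [Set.mem_setOf_eq] at this
    simp only [inner_add_left, ho₂]
    linarith
  have he := hsm _ ⟨y, hy, y', hy', rfl⟩ u₁ u₂ hn₁ hn₂ e₁ e₂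
  have hz : ∀ v : V, ⟪v, u₁⟫ = 0 := by
    intro v
    have hv : v ∈ W₁ ⊔ W₂ := by
      rw [hW.sup_eq_top]
      exact Submodule.mem_top
    obtain ⟨a, ha, b, hb, rfl⟩ := Submodule.mem_sup.1 hv
    rw [inner_add_left, ho₁ ⟨b, hb⟩, add_zero, he]
    exact ho₂ ⟨a, ha⟩
  have h0 := hz u₁
  rw [inner_self_eq_zero] at h0
  rw [h0, norm_zero] at hn₁
  exact zero_ne_one hn₁

end Pool.Agent.NSB
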