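import Pool.Agent.NSB.Defs
import Pool.Agent.HP89.A1c
import Pool.Agent.HP89.A2a

/-! Module NSB-CR: continuity of `res` at linearly independent lists, and the behaviour of `res` and `wn`
under scaling of the entries; `wn` is nonzero exactly on linearly independent families. -/

set_option autoImplicit false

namespace Pool.Agent.NSB

open MeasureTheory ProbabilityTheory Set Filter Topology Metric
open Pool.Agent.Helper82.Proj1 (supp shadow kappa)
open Pool.Agent.HP89
open scoped RealInnerProductSpace ENNReal Pointwise

variable {V : Type*} [NormedAddCommGroup V] [InnerProductSpace ℝ V] [FiniteDimensional ℝ V]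
  [MeasurableSpace V] [BorelSpace V]

omit [FiniteDimensional ℝ V] [MeasurableSpace V] [BorelSpace V] in
private theorem ort_contAt {y : V} (hy : y ≠ 0) (z : V) :
    ContinuousAt (fun p : V × V => ort p.1 p.2) (y, z) := by
  unfold ort
  have h : ‖y‖ ^ 2 ≠ 0 := pow_ne_zero 2 (norm_ne_zero_iff.2 hy)
  have c1 : ContinuousAt (fun p : V × V => ⟪p.1, p.2⟫) (y, z) := by
    apply Continuous.continuousAt; fun_prop
  have c2 : ContinuousAt (fun p : V × V => ‖p.1‖ ^ 2) (y, z) := by
    apply Continuous.continuousAt; fun_prop
  exact continuousAt_snd.sub ((c1.div c2 h).smul continuousAt_fst)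

omit [FiniteDimensional ℝ V] [MeasurableSpace V] [BorelSpace V] in
private theorem res_contAt_aux : ∀ (n : ℕ) (a : Fin n → V), wn (List.ofFn a) ≠ 0 → ∀ v : V,
    ContinuousAt (fun p : (Fin n → V) × V => res (List.ofFn p.1) p.2) (a, v) := by
  intro n
  induction n with
  | zero =>
    intro a ha v
    simp only [List.ofFn_zero, res_nil]
    exact continuousAt_snd
  | succ n ih =>
    intro a ha v
    rw [List.ofFn_succ, wn_cons] at ha
    have h2 : wn (List.ofFn fun i : Fin n => a i.succ) ≠ 0 := left_ne_zero_of_mul ha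
    have h3 : res (List.ofFn fun i : Fin n => a i.succ) (a 0) ≠ 0 := by
      intro h
      apply ha
      rw [h, norm_zero, mul_zero]
    have e : (fun p : (Fin (n + 1) → V) × V => res (List.ofFn p.1) p.2) =
        fun p => ort (res (List.ofFn fun i : Fin n => p.1 i.succ) (p.1 0))
          (res (List.ofFn fun i : Fin n => p.1 i.succ) p.2) := by
      funext p
      rw [List.ofFn_succ, res_cons]
    rw [e]
    have c1 : ContinuousAt (fun p : (Fin (n + 1) → V) × V =>
        res (List.ofFn fun i : Fin n => p.1 i.succ) (p.1 0)) (a, v) := by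
      have c : ContinuousAt (fun p : (Fin (n + 1) → V) × V =>
          ((fun i : Fin n => p.1 i.succ, p.1 0) : (Fin n → V) × V)) (a, v) := by
        apply Continuous.continuousAt; fun_prop
      exact ContinuousAt.comp (g := fun q : (Fin n → V) × V => res (List.ofFn q.1) q.2)
        (f := fun p : (Fin (n + 1) → V) × V =>
          ((fun i : Fin n => p.1 i.succ, p.1 0) : (Fin n → V) × V)) (ih (fun i => a i.succ) h2 (a 0)) c
    have c2 : ContinuousAt (fun p : (Fin (n + 1) → V) × V =>
        res (List.ofFn fun i : Fin n => p.1 i.succ) p.2) (a, v) := by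
      have c : ContinuousAt (fun p : (Fin (n + 1) → V) × V =>
          ((fun i : Fin n => p.1 i.succ, p.2) : (Fin n → V) × V)) (a, v) := by
        apply Continuous.continuousAt; fun_prop
      exact ContinuousAt.comp (g := fun q : (Fin n → V) × V => res (List.ofFn q.1) q.2)
        (f := fun p : (Fin (n + 1) → V) × V =>
          ((fun i : Fin n => p.1 i.succ, p.2) : (Fin n → V) × V)) (ih (fun i => a i.succ) h2 v) c
    have c3 := c1.prodMk c2
    exact ContinuousAt.comp (g := fun q : V × V => ort q.1 q.2)
      (f := fun p : (Fin (n + 1) → V) × V =>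
        ((res (List.ofFn fun i : Fin n => p.1 i.succ) (p.1 0),
          res (List.ofFn fun i : Fin n => p.1 i.succ) p.2) : V × V)) (ort_contAt h3 _) c3

omit [FiniteDimensional ℝ V] [MeasurableSpace V] [BorelSpace V] in
private theorem res_scale_aux : ∀ (n : ℕ) (a : Fin n → V) (t : Fin n → ℝ), (∀ i, t i ≠ 0) → ∀ v : V,
    res (List.ofFn fun i => t i • a i) v = res (List.ofFn a) v := by
  intro n
  induction n with
  | zero =>
    intro a t ht v
    simp only [List.ofFn_zero]
  | succ n ih =>
    intro a t ht v
    rw [List.ofFn_succ, List.ofFn_succ, res_cons, res_cons]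
    have e := ih (fun i => a i.succ) (fun i => t i.succ) (fun i => ht i.succ)
    rw [e, e, res_smul, ort_smul_left (ht 0)]

omit [FiniteDimensional ℝ V] [MeasurableSpace V] [BorelSpace V] in
private theorem wn_scale_aux : ∀ (n : ℕ) (a : Fin n → V) (t : Fin n → ℝ), (∀ i, t i ≠ 0) →
    wn (List.ofFn fun i => t i • a i) = (∏ i, |t i|) * wn (List.ofFn a) := by
  intro n
  induction n with
  | zero =>
    intro a t ht
    simp
  | succ n ih =>
    intro a t ht
    rw [List.ofFn_succ, List.ofFn_succ, wn_cons, wn_cons, Fin.prod_univ_succ]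
    have e := ih (fun i => a i.succ) (fun i => t i.succ) (fun i => ht i.succ)
    have e2 := res_scale_aux n (fun i => a i.succ) (fun i => t i.succ) (fun i => ht i.succ)
    rw [e, e2, res_smul, norm_smul, Real.norm_eq_abs]
    ring

omit [MeasurableSpace V] [BorelSpace V] in
private theorem wn_ne_aux : ∀ (n : ℕ) (a : Fin n → V), LinearIndependent ℝ a → wn (List.ofFn a) ≠ 0 := by
  intro n
  induction n with
  | zero =>
    intro a ha
    simp
  | succ n ih =>
    intro a ha
    rw [List.ofFn_succ, wn_cons]
    have h1 := linearIndependent_finSucc.1 ha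
    have h2 : wn (List.ofFn fun i : Fin n => a i.succ) ≠ 0 := ih _ h1.1
    refine mul_ne_zero h2 (norm_ne_zero_iff.2 ?_)
    intro h3
    rw [res_eq, Submodule.starProjection_apply_eq_zero_iff, Submodule.orthogonal_orthogonal] at h3
    apply h1.2
    have e : {x | x ∈ List.ofFn fun i : Fin n => a i.succ} = Set.range (Fin.tail a) := by
      ext x
      rw [Set.mem_setOf_eq, List.mem_ofFn]
      rfl
    rw [e] at h3
    exact h3

theorem res_contAt {n : ℕ} {a : Fin n → V} (ha : wn (List.ofFn a) ≠ 0) (v : V) :
    ContinuousAt (fun p : (Fin n → V) × V => res (List.ofFn p.1) p.2) (a, v) := by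
  exact res_contAt_aux n a ha v

theorem res_scale {n : ℕ} (a : Fin n → V) {t : Fin n → ℝ} (ht : ∀ i, t i ≠ 0) (v : V) :
    res (List.ofFn fun i => t i • a i) v = res (List.ofFn a) v := by
  exact res_scale_aux n a t ht v

theorem wn_scale {n : ℕ} (a : Fin n → V) (t : Fin n → ℝ) :
    wn (List.ofFn fun i => t i • a i) = (∏ i, |t i|) * wn (List.ofFn a) := by
  by_cases h : ∀ i, t i ≠ 0
  · exact wn_scale_aux n a t h
  · push Not at h
    obtain ⟨i, hi⟩ := h
    have h1 : (∏ i, |t i|) = 0 := Finset.prod_eq_zero (Finset.mem_univ i) (by rw [hi, abs_zero])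
    rw [h1, zero_mul]
    apply wn_zero_mem
    rw [List.mem_ofFn]
    exact ⟨i, by simp [hi]⟩

theorem wn_ne_iff {n : ℕ} (a : Fin n → V) : wn (List.ofFn a) ≠ 0 ↔ LinearIndependent ℝ a := by
  constructor
  · intro h
    have h1 := finrank_span_of_wn_ne_zero h
    rw [List.length_ofFn] at h1
    rw [linearIndependent_iff_card_eq_finrank_span, Fintype.card_fin]
    have e : {x | x ∈ List.ofFn a} = Set.range a := by
      ext x
      rw [Set.mem_setOf_eq, List.mem_ofFn]
      rfl
    rw [e] at h1
    exact h1.symm
  · exact wn_ne_aux n a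

end Pool.Agent.NSB
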