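import Pool.Agent.NSB.Defs

/-! Module NSB-SP: elementary facts on the support `Spt μ` of a measure: it is a symmetric cone, `μ` is concentrated on `Spt μ ∪ {0}`,
which is closed, and `Spt μ` spans the space if the cosine transform of `μ` vanishes only at `0`. -/

set_option autoImplicit false

namespace Pool.Agent.NSB

open MeasureTheory ProbabilityTheory Set Filter Topology Metric
open Pool.Agent.Helper82.Proj1 (supp shadow kappa)
open Pool.Agent.HP89
open scoped RealInnerProductSpace ENNReal Pointwise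

variable {V : Type*} [NormedAddCommGroup V] [InnerProductSpace ℝ V] [FiniteDimensional ℝ V]
  [MeasurableSpace V] [BorelSpace V]

theorem Spt_SC (μ : Measure V) : SC (Spt μ) := by
  intro x t ht
  constructor
  · rintro ⟨h1, h2⟩
    refine ⟨fun h0 => h1 (by rw [h0, smul_zero]), fun O hO hS hx => h2 O hO hS ((hS x t ht).2 hx)⟩
  · rintro ⟨h1, h2⟩
    exact ⟨smul_ne_zero ht h1, fun O hO hS hx => h2 O hO hS ((hS x t ht).1 hx)⟩

theorem Spt_ae (μ : Measure V) : ∀ᵐ x ∂μ, x = 0 ∨ x ∈ Spt μ := by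
  rw [ae_iff]
  refine measure_null_of_locally_null _ fun x hx => ?_
  have hx' : ¬ (x = 0 ∨ x ∈ Spt μ) := hx
  push Not at hx'
  obtain ⟨h0, h1⟩ := hx'
  have h2 : ∃ O : Set V, IsOpen O ∧ SC O ∧ x ∈ O ∧ μ O = 0 := by
    by_contra h3
    push Not at h3
    exact h1 ⟨h0, h3⟩
  obtain ⟨O, hO, -, hxO, hμ⟩ := h2
  exact ⟨O, mem_nhdsWithin_of_mem_nhds (hO.mem_nhds hxO), hμ⟩

theorem Spt_closed (μ : Measure V) : IsClosed (Spt μ ∪ {0}) := by
  refine isClosed_of_closure_subset fun v hv => ?_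
  by_cases h0 : v = 0
  · right
    exact h0
  · left
    refine ⟨h0, fun O hO hS hvO => ?_⟩
    have h1 : O ∩ {0}ᶜ ∈ 𝓝 v := (hO.inter isOpen_compl_singleton).mem_nhds ⟨hvO, h0⟩
    obtain ⟨w, ⟨hwO, hw0⟩, hw⟩ := mem_closure_iff_nhds.1 hv _ h1
    rcases hw with hw | hw
    · exact hw.2 O hO hS hwO
    · exact absurd hw hw0

theorem Spt_span {μ : Measure V} (hp : ∀ u : V, u ≠ 0 → Jc μ u ≠ 0) : Submodule.span ℝ (Spt μ) = ⊤ := by
  rw [← Submodule.orthogonal_eq_bot_iff, Submodule.eq_bot_iff]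
  intro u hu
  by_contra h0
  apply hp u h0
  unfold Jc
  have h1 : (fun x : V => ENNReal.ofReal |⟪x, u⟫|) =ᵐ[μ] fun _ => 0 := by
    filter_upwards [Spt_ae μ] with x hx
    rcases hx with hx | hx
    · rw [hx, inner_zero_left, abs_zero, ENNReal.ofReal_zero]
    · rw [(Submodule.mem_orthogonal _ u).1 hu x (Submodule.subset_span hx), abs_zero, ENNReal.ofReal_zero]
  rw [lintegral_congr_ae h1, lintegral_zero]

end Pool.Agent.NSB
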