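import Pool.Agent.NSB.NL
import Pool.Agent.NSB.SP
import Pool.Agent.NSB.CR

/-! Module NSB-JO: the closure property of the supports.

Let `a i ∈ Spt μ` be independent, `v ≠ 0` orthogonal to all `a i`, `O ∋ v` an open symmetric cone with `ν O = 0`. By continuity and
homogeneity of `wn` and `res` the vectors `wn X • res X g` belong to `O \ {0}` if the lines of the `X i` are close to those of the
`a i` and `g` is close to `v`; these `(X, g)` form a set of positive measure, a contradiction to `null_iff`. -/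

set_option autoImplicit false

namespace Pool.Agent.NSB

open MeasureTheory ProbabilityTheory Set Filter Topology Metric
open Pool.Agent.Helper82.Proj1 (supp shadow kappa)
open Pool.Agent.HP89
open scoped RealInnerProductSpace ENNReal Pointwise

variable {V : Type*} [NormedAddCommGroup V] [InnerProductSpace ℝ V] [FiniteDimensional ℝ V]
  [MeasurableSpace V] [BorelSpace V]

private theorem JO_gauss (v : V) {ε : ℝ} (hε : 0 < ε) : stdGaussian V (ball v ε) ≠ 0 := by
  rw [stdGaussian_density, withDensity_apply _ measurableSet_ball]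
  intro h0
  rw [lintegral_eq_zero_iff (by fun_prop)] at h0
  have h1 : ∀ᵐ x ∂((volume : Measure V).restrict (ball v ε)), False := by
    filter_upwards [h0] with x hx
    have h2 : 0 < cG V * Real.exp (-(1 / 2) * ‖x‖ ^ 2) := mul_pos cG_pos (Real.exp_pos _)
    have h3 : ENNReal.ofReal (cG V * Real.exp (-(1 / 2) * ‖x‖ ^ 2)) = 0 := hx
    rw [ENNReal.ofReal_eq_zero] at h3
    exact absurd h3 (not_le.2 h2)
  have h4 : (volume : Measure V).restrict (ball v ε) = 0 := by
    rw [← ae_eq_bot]
    exact Filter.eventually_false_iff_eq_bot.1 h1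
  exact (measure_ball_pos volume v hε).ne' (Measure.restrict_eq_zero.1 h4)

omit [FiniteDimensional ℝ V] [MeasurableSpace V] [BorelSpace V] in
private theorem JO_cone (a : V) (ε : ℝ) :
    IsOpen {x : V | ∃ t : ℝ, t ≠ 0 ∧ t • x ∈ ball a ε} ∧ SC {x : V | ∃ t : ℝ, t ≠ 0 ∧ t • x ∈ ball a ε} := by
  constructor
  · have h1 : {x : V | ∃ t : ℝ, t ≠ 0 ∧ t • x ∈ ball a ε} =
        ⋃ t : ℝ, ⋃ _ : t ≠ 0, (fun x : V => t • x) ⁻¹' (ball a ε) := by
      ext x
      simp
    rw [h1]
    exact isOpen_iUnion fun t => isOpen_iUnion fun _ => isOpen_ball.preimage (continuous_const_smul t)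
  · intro x s hs
    constructor
    · rintro ⟨t, ht, h⟩
      refine ⟨t * s, mul_ne_zero ht hs, ?_⟩
      rwa [mul_smul]
    · rintro ⟨t, ht, h⟩
      refine ⟨t / s, div_ne_zero ht hs, ?_⟩
      rwa [smul_smul, div_mul_cancel₀ _ hs]

theorem Spt_JJ {j : ℕ} (hj : j ≤ Module.finrank ℝ V) {μ ν : Measure V} (h : Par j μ ν) : JJ j (Spt μ) (Spt ν) := by
  have := h.f1
  intro a ha hlin v hv hva
  refine ⟨hv, fun O hO hOs hvO hν => ?_⟩
  have hO' : IsOpen (O \ {0}) := hO.sdiff isClosed_singleton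
  have hOs' : SC (O \ {0}) := by
    intro x t ht
    have h1 := hOs x t ht
    constructor
    · rintro ⟨h2, h3⟩
      refine ⟨h1.1 h2, fun h4 => h3 ?_⟩
      have h5 : x = 0 := h4
      rw [h5, smul_zero]
      exact rfl
    · rintro ⟨h2, h3⟩
      refine ⟨h1.2 h2, fun h4 => h3 ?_⟩
      exact (smul_eq_zero.1 (show t • x = 0 from h4)).resolve_left ht
  have h0 : (0 : V) ∉ O \ {0} := fun h1 => h1.2 rfl
  have hae := (null_iff hj h hO'.measurableSet hOs' h0).1 (measure_mono_null diff_subset hν)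
  have hres : res (List.ofFn a) v = v := by
    rw [res_eq]
    refine Submodule.starProjection_eq_self_iff.2 ?_
    rw [Submodule.mem_orthogonal]
    intro u hu
    induction hu using Submodule.span_induction with
    | mem x hx =>
      obtain ⟨i, rfl⟩ := (List.mem_ofFn' a x).1 hx
      exact hva i
    | zero => exact inner_zero_left _
    | add x y _ _ hx hy => rw [inner_add_left, hx, hy, add_zero]
    | smul c x _ hx => rw [real_inner_smul_left, hx, mul_zero]
  have hwa : wn (List.ofFn a) ≠ 0 := (wn_ne_iff a).2 hlin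
  have hW1 : ∀ᶠ p : (Fin j → V) × V in 𝓝 (a, v), res (List.ofFn p.1) p.2 ∈ O \ {0} := by
    refine (res_contAt hwa v).eventually (hO'.mem_nhds ?_)
    show res (List.ofFn a) v ∈ O \ {0}
    rw [hres]
    exact ⟨hvO, hv⟩
  have hW2 : ∀ᶠ p : (Fin j → V) × V in 𝓝 (a, v), wn (List.ofFn p.1) ≠ 0 := by
    have h1 : Continuous (fun p : (Fin j → V) × V => wn (List.ofFn p.1)) := by
      have h2 := (continuous_wn (V := V) j []).comp (continuous_fst (X := Fin j → V) (Y := V))
      simpa [Function.comp_def] using h2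
    exact h1.continuousAt.eventually_ne hwa
  obtain ⟨ε, hε, hball⟩ := Metric.eventually_nhds_iff.1 (hW1.and hW2)
  have hsub : (Set.univ.pi fun i => {x : V | ∃ t : ℝ, t ≠ 0 ∧ t • x ∈ ball (a i) ε}) ×ˢ ball v ε ⊆
      {p : (Fin j → V) × V | ¬ (wn (List.ofFn p.1) • res (List.ofFn p.1) p.2 ∉ O \ {0})} := by
    rintro ⟨X, g⟩ ⟨hX, hg⟩
    have hX' : ∀ i, ∃ t : ℝ, t ≠ 0 ∧ t • X i ∈ ball (a i) ε := fun i => hX i (Set.mem_univ i)
    choose t ht htX using hX'
    have h1 : dist ((fun i => t i • X i, g) : (Fin j → V) × V) (a, v) < ε := by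
      rw [Prod.dist_eq, max_lt_iff]
      exact ⟨(dist_pi_lt_iff hε).2 fun i => htX i, hg⟩
    obtain ⟨h2, h3⟩ := hball h1
    have h2' : res (List.ofFn fun i => t i • X i) g ∈ O \ {0} := h2
    have h3' : wn (List.ofFn fun i => t i • X i) ≠ 0 := h3
    rw [res_scale X ht] at h2'
    rw [wn_scale] at h3'
    have h4 : wn (List.ofFn X) ≠ 0 := right_ne_zero_of_mul h3'
    show ¬ (wn (List.ofFn X) • res (List.ofFn X) g ∉ O \ {0})
    rw [not_not]
    exact (hOs' _ _ h4).2 h2'
  have hnull := measure_mono_null hsub (ae_iff.1 hae)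
  rw [Measure.prod_prod, Measure.pi_pi, mul_eq_zero] at hnull
  rcases hnull with h1 | h1
  · obtain ⟨i, -, hi⟩ := Finset.prod_eq_zero_iff.1 h1
    obtain ⟨h2, h3⟩ := JO_cone (a i) ε
    refine (ha i).2 _ h2 h3 ⟨1, one_ne_zero, ?_⟩ hi
    rw [one_smul]
    exact mem_ball_self hε
  · exact JO_gauss v hε h1

end Pool.Agent.NSB
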