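import Pool.Agent.NSB.Defs
import Pool.Agent.HP89.G0

/-! Module NSB-LUN: a zonoid whose generating measure has full support is smooth.

If `x ∈ K` has two unit normals `u ≠ v` then `supp K (u + v) ≥ supp K u + supp K v`, so `|⟪y,u⟫| + |⟪y,v⟫| = |⟪y,u+v⟫|` for almost every
`y`; the open symmetric cone `⟪y,u⟫ * ⟪y,v⟫ < 0`, which contains `u - v`, has measure zero, a contradiction. -/

set_option autoImplicit false

namespace Pool.Agent.NSB

open MeasureTheory ProbabilityTheory Set Filter Topology Metric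
open Pool.Agent.Helper82.Proj1 (supp shadow kappa)
open Pool.Agent.HP89
open scoped RealInnerProductSpace ENNReal Pointwise

variable {V : Type*} [NormedAddCommGroup V] [InnerProductSpace ℝ V] [FiniteDimensional ℝ V]
  [MeasurableSpace V] [BorelSpace V]

private theorem LUN_int {ν : Measure V} (hi : Integrable (fun x => ‖x‖) ν) (u : V) :
    Integrable (fun x => |⟪x, u⟫|) ν := by
  refine (hi.mul_const ‖u‖).mono' (Continuous.aestronglyMeasurable (by fun_prop)) (ae_of_all _ fun x => ?_)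
  rw [Real.norm_eq_abs, abs_abs]
  exact abs_real_inner_le_norm x u

private theorem LUN_Jc {ν : Measure V} (hi : Integrable (fun x => ‖x‖) ν) (u : V) :
    (Jc ν u).toReal = ∫ x, |⟪x, u⟫| ∂ν := by
  unfold Jc
  rw [integral_eq_lintegral_of_nonneg_ae (ae_of_all _ fun x => abs_nonneg _) (LUN_int hi u).aestronglyMeasurable]

private theorem LUN_null {ν : Measure V} (hi : Integrable (fun x => ‖x‖) ν) {u v : V}
    (h2 : (Jc ν u).toReal + (Jc ν v).toReal ≤ (Jc ν (u + v)).toReal) : ν {y | ⟪y, u⟫ * ⟪y, v⟫ < 0} = 0 := by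
  rw [LUN_Jc hi, LUN_Jc hi, LUN_Jc hi] at h2
  have i1 := LUN_int hi u
  have i2 := LUN_int hi v
  have i3 := LUN_int hi (u + v)
  have i12 : Integrable (fun y : V => |⟪y, u⟫| + |⟪y, v⟫|) ν := i1.add i2
  have i123 : Integrable (fun y : V => |⟪y, u⟫| + |⟪y, v⟫| - |⟪y, u + v⟫|) ν := i12.sub i3
  have hnn : ∀ y : V, 0 ≤ |⟪y, u⟫| + |⟪y, v⟫| - |⟪y, u + v⟫| := by
    intro y
    rw [inner_add_right]
    have := abs_add_le (⟪y, u⟫ : ℝ) ⟪y, v⟫
    linarith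
  have h4 : ∫ y, (|⟪y, u⟫| + |⟪y, v⟫| - |⟪y, u + v⟫|) ∂ν = 0 := by
    apply le_antisymm _ (integral_nonneg hnn)
    rw [integral_sub i12 i3, integral_add i1 i2]
    linarith
  have h5 := (integral_eq_zero_iff_of_nonneg hnn i123).1 h4
  have h6 : ∀ᵐ y ∂ν, ¬ (⟪y, u⟫ * ⟪y, v⟫ < 0) := by
    filter_upwards [h5] with y hy hlt
    have hy' : |⟪y, u⟫| + |⟪y, v⟫| - |⟪y, u + v⟫| = 0 := hy
    rw [inner_add_right] at hy'
    rcases mul_neg_iff.1 hlt with ⟨ha, hb⟩ | ⟨ha, hb⟩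
    · rw [abs_of_pos ha, abs_of_neg hb] at hy'
      rcases abs_cases ((⟪y, u⟫ : ℝ) + ⟪y, v⟫) with ⟨hc, _⟩ | ⟨hc, _⟩ <;> rw [hc] at hy' <;> linarith
    · rw [abs_of_neg ha, abs_of_pos hb] at hy'
      rcases abs_cases ((⟪y, u⟫ : ℝ) + ⟪y, v⟫) with ⟨hc, _⟩ | ⟨hc, _⟩ <;> rw [hc] at hy' <;> linarith
  have h7 := ae_iff.1 h6
  simpa using h7

theorem smooth_of_full {K : Set V} (hK : CC K) {ν : Measure V} (hi : Integrable (fun x => ‖x‖) ν)
    (hp : ∀ u : V, u ≠ 0 → Jc ν u ≠ 0) {x1 : V} (hs : ∀ u, supp K u = ⟪x1, u⟫ + (Jc ν u).toReal)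
    (hf : ∀ v : V, v ≠ 0 → v ∈ Spt ν) : IsSmooth K := by
  intro x hx u v hu hv hxu hxv
  by_contra huv
  have h1 := Pool.Agent.Helper82.Proj1.le_supp hK.compact hx (u + v)
  rw [inner_add_right, hxu, hxv, hs u, hs v, hs (u + v), inner_add_right] at h1
  have h2 : (Jc ν u).toReal + (Jc ν v).toReal ≤ (Jc ν (u + v)).toReal := by linarith
  have h3 := LUN_null hi h2
  have hc : (⟪u, v⟫ : ℝ) < 1 := (inner_lt_one_iff_real_of_norm_eq_one hu hv).2 huv
  have huu : (⟪u, u⟫ : ℝ) = 1 := by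
    rw [real_inner_self_eq_norm_sq, hu, one_pow]
  have hvv : (⟪v, v⟫ : ℝ) = 1 := by
    rw [real_inner_self_eq_norm_sq, hv, one_pow]
  refine (hf (u - v) (sub_ne_zero.2 huv)).2 {y | ⟪y, u⟫ * ⟪y, v⟫ < 0} ?_ ?_ ?_ h3
  · exact isOpen_lt (by fun_prop) continuous_const
  · intro y t ht
    show ⟪t • y, u⟫ * ⟪t • y, v⟫ < 0 ↔ ⟪y, u⟫ * ⟪y, v⟫ < 0
    rw [real_inner_smul_left, real_inner_smul_left]
    have h4 : t * ⟪y, u⟫ * (t * ⟪y, v⟫) = t ^ 2 * (⟪y, u⟫ * ⟪y, v⟫) := by ring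
    rw [h4]
    have h5 : 0 < t ^ 2 := by positivity
    constructor
    · intro h6
      by_contra h7
      exact absurd h6 (not_lt.2 (mul_nonneg h5.le (not_lt.1 h7)))
    · intro h6
      exact mul_neg_of_pos_of_neg h5 h6
  · show ⟪u - v, u⟫ * ⟪u - v, v⟫ < 0
    rw [inner_sub_left, inner_sub_left, huu, hvv, real_inner_comm u v]
    nlinarith

end Pool.Agent.NSB
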