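import Pool.Agent.NSB.Defs
import Pool.Agent.HP89.G0

/-! Module NSB-PRO: bodies in the summands.

`proj_zon`: the body `K₁` is the image of `K - x1` under the projection to `W₁` along `W₂`; `supp (T '' A) w = supp A (T† w)`.
`shadow_supp`: `⟪P x, w⟫ = ⟪x, w⟫`. `sum_supp`: comparison of the support functions; `Jc ν u` is the sum of the integrals over `W₁` and `W₂`. -/

set_option autoImplicit false

namespace Pool.Agent.NSB

open MeasureTheory ProbabilityTheory Set Filter Topology Metric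
open Pool.Agent.Helper82.Proj1 (supp shadow kappa)
open Pool.Agent.HP89
open scoped RealInnerProductSpace ENNReal Pointwise

variable {V : Type*} [NormedAddCommGroup V] [InnerProductSpace ℝ V] [FiniteDimensional ℝ V]
  [MeasurableSpace V] [BorelSpace V]

omit [MeasurableSpace V] [BorelSpace V] in
private theorem PRO_supp_image {F : Type*} [NormedAddCommGroup F] [InnerProductSpace ℝ F] (T : V → F) (A : Set V)
    (w : F) (u : V) (h : ∀ x, ⟪T x, w⟫ = ⟪x, u⟫) : supp (T '' A) w = supp A u := by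
  unfold Pool.Agent.Helper82.Proj1.supp
  rw [Set.image_image]
  congr 1
  apply Set.image_congr
  intro x _
  exact h x

omit [FiniteDimensional ℝ V] [MeasurableSpace V] [BorelSpace V] in
private theorem PRO_supp_singleton (x u : V) : supp ({x} : Set V) u = ⟪x, u⟫ := by
  unfold Pool.Agent.Helper82.Proj1.supp
  rw [Set.image_singleton, csSup_singleton]

omit [FiniteDimensional ℝ V] [MeasurableSpace V] [BorelSpace V] in
private theorem PRO_cc_singleton (x : V) : CC ({x} : Set V) :=
  ⟨isCompact_singleton, convex_singleton x, ⟨x, rfl⟩⟩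

omit [FiniteDimensional ℝ V] [MeasurableSpace V] [BorelSpace V] in
private theorem PRO_cc_image {F : Type*} [NormedAddCommGroup F] [InnerProductSpace ℝ F] (T : V →L[ℝ] F) {A : Set V}
    (hA : CC A) : CC (T '' A) :=
  ⟨hA.compact.image T.continuous, hA.convex.linear_image T.toLinearMap, hA.nonempty.image _⟩

omit [FiniteDimensional ℝ V] [MeasurableSpace V] [BorelSpace V] in
private theorem PRO_cc_sub {A : Set V} (hA : CC A) (x1 : V) : CC ((fun y => y - x1) '' A) := by
  have h : (fun y => y - x1) '' A = {-x1} + A := by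
    rw [Set.singleton_add]
    apply Set.image_congr
    intro y _
    abel
  rw [h]
  exact (PRO_cc_singleton (-x1)).add hA

omit [FiniteDimensional ℝ V] [MeasurableSpace V] [BorelSpace V] in
private theorem PRO_supp_sub {A : Set V} (hA : CC A) (x1 u : V) :
    supp ((fun y => y - x1) '' A) u = supp A u - ⟪x1, u⟫ := by
  have h : (fun y => y - x1) '' A = {-x1} + A := by
    rw [Set.singleton_add]
    apply Set.image_congr
    intro y _
    abel
  rw [h, supp_add (PRO_cc_singleton (-x1)) hA, PRO_supp_singleton, inner_neg_left]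
  ring

private theorem PRO_meas (W : Submodule ℝ V) : MeasurableSet (W : Set V) :=
  W.closed_of_finiteDimensional.measurableSet

private theorem PRO_Jc_map {F : Type*} [NormedAddCommGroup F] [InnerProductSpace ℝ F] [MeasurableSpace F] [BorelSpace F]
    [FiniteDimensional ℝ F] (μ : Measure V) (T : V →L[ℝ] F) (w : F) :
    Jc (μ.map T) w = ∫⁻ x, ENNReal.ofReal |⟪T x, w⟫| ∂μ := by
  unfold Jc
  rw [lintegral_map]
  · exact (by fun_prop : Measurable fun x : F => ENNReal.ofReal |⟪x, w⟫|)
  · exact T.continuous.measurable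

private theorem PRO_Jc_on (W : Submodule ℝ V) (ν : Measure V) (w : W) :
    Jc ((ν.restrict W).map fun x => W.orthogonalProjectionOnto x) w =
      ∫⁻ x in W, ENNReal.ofReal |⟪x, (w : V)⟫| ∂ν := by
  rw [PRO_Jc_map (ν.restrict W) (W.orthogonalProjectionOnto : V →L[ℝ] W) w]
  apply lintegral_congr
  intro x
  rw [Submodule.inner_orthogonalProjectionOnto_eq_of_mem_right]

theorem proj_zon {W₁ W₂ : Submodule ℝ V} (hW : IsCompl W₁ W₂) {ν : Measure V} (hi : Integrable (fun x => ‖x‖) ν)
    (hν : ∀ᵐ x ∂ν, x ∈ W₁ ∨ x ∈ W₂) {K : Set V} (hK : CC K) {x1 : V} (hs : ∀ u, supp K u = ⟪x1, u⟫ + (Jc ν u).toReal) :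
    ∃ K₁ : Set W₁, CC K₁ ∧
      ∀ w : W₁, supp K₁ w = (Jc ((ν.restrict W₁).map fun x => W₁.orthogonalProjectionOnto x) w).toReal := by
  let π : V →L[ℝ] W₁ := LinearMap.toContinuousLinearMap (Submodule.projectionOnto W₁ W₂ hW)
  refine ⟨π '' ((fun y => y - x1) '' K), PRO_cc_image π (PRO_cc_sub hK x1), fun w => ?_⟩
  have hadj : ∀ x, ⟪π x, w⟫ = ⟪x, (ContinuousLinearMap.adjoint π) w⟫ := fun x =>
    (ContinuousLinearMap.adjoint_inner_right π x w).symm
  rw [PRO_supp_image π _ w _ hadj, PRO_supp_sub hK, hs]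
  have h1 : Jc ν ((ContinuousLinearMap.adjoint π) w) =
      Jc ((ν.restrict W₁).map fun x => W₁.orthogonalProjectionOnto x) w := by
    rw [PRO_Jc_on, ← lintegral_indicator (PRO_meas W₁)]
    unfold Jc
    apply lintegral_congr_ae
    filter_upwards [hν] with x hx
    rw [← hadj x]
    by_cases h : x ∈ W₁
    · rw [Set.indicator_of_mem (show x ∈ (W₁ : Set V) from h)]
      have h2 : π x = ⟨x, h⟩ := Submodule.projectionOnto_apply_left hW ⟨x, h⟩
      rw [h2]
      rfl
    · rw [Set.indicator_of_notMem (show x ∉ (W₁ : Set V) from h)]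
      have h2 : π x = 0 := Submodule.projectionOnto_apply_of_mem_right hW (hx.resolve_left h)
      rw [h2, inner_zero_left, abs_zero, ENNReal.ofReal_zero]
  rw [h1]
  ring

theorem shadow_supp (W : Submodule ℝ V) {L : Set V} (hL : CC L) {μ : Measure V} (hs : ∀ u, supp L u = (Jc μ u).toReal) (w : W) :
    supp (shadow L W) w = (Jc (μ.map fun x => W.orthogonalProjectionOnto x) w).toReal := by
  unfold Pool.Agent.Helper82.Proj1.shadow
  rw [PRO_supp_image (fun x : V => W.orthogonalProjectionOnto x) L w (w : V), hs,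
    PRO_Jc_map μ (W.orthogonalProjectionOnto : V →L[ℝ] W) w]
  · congr 1
    unfold Jc
    apply lintegral_congr
    intro x
    rw [Submodule.inner_orthogonalProjectionOnto_eq_of_mem_right]
  · intro x
    rw [Submodule.inner_orthogonalProjectionOnto_eq_of_mem_right]

theorem sum_supp {W₁ W₂ : Submodule ℝ V} (hW : IsCompl W₁ W₂) {ν : Measure V} (hi : Integrable (fun x => ‖x‖) ν)
    (hν : ∀ᵐ x ∂ν, x ∈ W₁ ∨ x ∈ W₂) {K : Set V} (hK : CC K) {x1 : V} (hs : ∀ u, supp K u = ⟪x1, u⟫ + (Jc ν u).toReal)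
    {K₁ : Set W₁} {K₂ : Set W₂} (hK₁ : CC K₁) (hK₂ : CC K₂)
    (hs₁ : ∀ w : W₁, supp K₁ w = (Jc ((ν.restrict W₁).map fun x => W₁.orthogonalProjectionOnto x) w).toReal)
    (hs₂ : ∀ w : W₂, supp K₂ w = (Jc ((ν.restrict W₂).map fun x => W₂.orthogonalProjectionOnto x) w).toReal) :
    K = {z | ∃ y ∈ K₁, ∃ y' ∈ K₂, z = x1 + (y : V) + (y' : V)} := by
  have hset : {z : V | ∃ y ∈ K₁, ∃ y' ∈ K₂, z = x1 + (y : V) + (y' : V)} =
      ({x1} + W₁.subtypeL '' K₁) + W₂.subtypeL '' K₂ := by
    ext z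
    constructor
    · rintro ⟨y, hy, y', hy', rfl⟩
      exact Set.add_mem_add (Set.add_mem_add rfl ⟨y, hy, rfl⟩) ⟨y', hy', rfl⟩
    · rintro ⟨_, ⟨a, ha, _, ⟨y, hy, rfl⟩, rfl⟩, _, ⟨y', hy', rfl⟩, rfl⟩
      refine ⟨y, hy, y', hy', ?_⟩
      rw [Set.mem_singleton_iff.1 ha]
      rfl
  have hc₁ : CC (W₁.subtypeL '' K₁) := PRO_cc_image _ hK₁
  have hc₂ : CC (W₂.subtypeL '' K₂) := PRO_cc_image _ hK₂
  have hc₀ := (PRO_cc_singleton x1).add hc₁
  rw [hset]
  apply eq_of_supp hK (hc₀.add hc₂)
  intro u _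
  have hsub : ∀ (W : Submodule ℝ V) (A : Set W), supp (W.subtypeL '' A) u = supp A (W.orthogonalProjectionOnto u) := by
    intro W A
    apply PRO_supp_image
    intro x
    rw [Submodule.inner_orthogonalProjectionOnto_eq_of_mem_left]
    rfl
  have hJ : ∀ W : Submodule ℝ V, Jc ((ν.restrict W).map fun x => W.orthogonalProjectionOnto x) (W.orthogonalProjectionOnto u) =
      ∫⁻ x in W, ENNReal.ofReal |⟪x, u⟫| ∂ν := by
    intro W
    rw [PRO_Jc_on]
    apply setLIntegral_congr_fun (PRO_meas W)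
    intro x hx
    have h1 : ⟪x, ((W.orthogonalProjectionOnto u : W) : V)⟫ = ⟪x, u⟫ := by
      have := Submodule.inner_orthogonalProjectionOnto_eq_of_mem_left (K := W) ⟨x, hx⟩ u
      exact this
    simp only [h1]
  have hfin : Jc ν u ≠ ⊤ := by
    have h1 := (hi.mul_const ‖u‖).lintegral_lt_top
    refine (lt_of_le_of_lt ?_ h1).ne
    apply lintegral_mono
    intro x
    exact ENNReal.ofReal_le_ofReal (abs_real_inner_le_norm x u)
  have hsplit : Jc ν u = (∫⁻ x in W₁, ENNReal.ofReal |⟪x, u⟫| ∂ν) + ∫⁻ x in W₂, ENNReal.ofReal |⟪x, u⟫| ∂ν := by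
    rw [← lintegral_indicator (PRO_meas W₁), ← lintegral_indicator (PRO_meas W₂), ← lintegral_add_left]
    · unfold Jc
      apply lintegral_congr_ae
      filter_upwards [hν] with x hx
      by_cases h1 : x ∈ W₁
      · rw [Set.indicator_of_mem (show x ∈ (W₁ : Set V) from h1)]
        by_cases h2 : x ∈ W₂
        · have h0 : x = 0 := by
            have := hW.disjoint.le_bot (show x ∈ W₁ ⊓ W₂ from ⟨h1, h2⟩)
            simpa using this
          rw [Set.indicator_of_mem (show x ∈ (W₂ : Set V) from h2), h0, inner_zero_left, abs_zero,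
            ENNReal.ofReal_zero, add_zero]
        · rw [Set.indicator_of_notMem (show x ∉ (W₂ : Set V) from h2), add_zero]
      · rw [Set.indicator_of_notMem (show x ∉ (W₁ : Set V) from h1),
          Set.indicator_of_mem (show x ∈ (W₂ : Set V) from hx.resolve_left h1), zero_add]
    · exact (by fun_prop : Measurable fun x : V => ENNReal.ofReal |⟪x, u⟫|).indicator (PRO_meas W₁)
  rw [hs, supp_add hc₀ hc₂, supp_add (PRO_cc_singleton x1) hc₁, PRO_supp_singleton, hsub, hsub, hs₁, hs₂, hJ, hJ,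
    hsplit, ENNReal.toReal_add]
  · ring
  · intro h
    rw [h, top_add] at hsplit
    exact hfin hsplit
  · intro h
    rw [h, add_top] at hsplit
    exact hfin hsplit

end Pool.Agent.NSB
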