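import Pool.Agent.NSB.NL
import Pool.Agent.HP89.A1c

/-! Module NSB-CN: concentration of `ν` on the orthogonal complements `Aᗮ`, `Bᗮ` if `μ` is concentrated on the complementary
subspaces `A`, `B`: almost every list of `d - 1` independent vectors of `A ∪ B` spans a subspace which contains `A` or `B`. -/

set_option autoImplicit false

namespace Pool.Agent.NSB

open MeasureTheory ProbabilityTheory Set Filter Topology Metric
open Pool.Agent.Helper82.Proj1 (supp shadow kappa)
open Pool.Agent.HP89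
open scoped RealInnerProductSpace ENNReal Pointwise

variable {V : Type*} [NormedAddCommGroup V] [InnerProductSpace ℝ V] [FiniteDimensional ℝ V]
  [MeasurableSpace V] [BorelSpace V]

omit [MeasurableSpace V] [BorelSpace V] in
private theorem CN_span {A B S : Submodule ℝ V} (hAB : IsCompl A B) {T : Set V} (hS : S = Submodule.span ℝ T)
    (hT : ∀ x ∈ T, x ∈ A ∨ x ∈ B) (hf : Module.finrank ℝ V ≤ Module.finrank ℝ S + 1) : A ≤ S ∨ B ≤ S := by
  have h1 : S ≤ (S ⊓ A) ⊔ (S ⊓ B) := by
    conv_lhs => rw [hS]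
    rw [Submodule.span_le]
    intro x hx
    have hxS : x ∈ S := by
      rw [hS]
      exact Submodule.subset_span hx
    rcases hT x hx with h | h
    · exact Submodule.mem_sup_left ⟨hxS, h⟩
    · exact Submodule.mem_sup_right ⟨hxS, h⟩
  have h2 := Submodule.finrank_mono h1
  have h3 := Submodule.finrank_add_le_finrank_add_finrank (S ⊓ A) (S ⊓ B)
  have h4 := Submodule.finrank_add_eq_of_isCompl hAB
  by_cases hc : Module.finrank ℝ A ≤ Module.finrank ℝ (S ⊓ A : Submodule ℝ V)
  · left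
    have h5 : S ⊓ A = A := Submodule.eq_of_le_of_finrank_le inf_le_right hc
    rw [← h5]
    exact inf_le_left
  · right
    rw [not_le] at hc
    have h6 : Module.finrank ℝ B ≤ Module.finrank ℝ (S ⊓ B : Submodule ℝ V) := by omega
    have h5 : S ⊓ B = B := Submodule.eq_of_le_of_finrank_le inf_le_right h6
    rw [← h5]
    exact inf_le_left

omit [MeasurableSpace V] [BorelSpace V] in
private theorem CN_pt {n : ℕ} {A B : Submodule ℝ V} (hAB : IsCompl A B) (hn : Module.finrank ℝ V ≤ n + 1)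
    (X : Fin n → V) (hX : ∀ i, X i ∈ A ∨ X i ∈ B) (g : V) :
    wn (List.ofFn X) • res (List.ofFn X) g ∈ Aᗮ ∨ wn (List.ofFn X) • res (List.ofFn X) g ∈ Bᗮ := by
  by_cases hw : wn (List.ofFn X) = 0
  · left
    rw [hw, zero_smul]
    exact Submodule.zero_mem _
  · have h1 := finrank_span_of_wn_ne_zero hw
    rw [List.length_ofFn] at h1
    have hT : ∀ x ∈ {x | x ∈ List.ofFn X}, x ∈ A ∨ x ∈ B := by
      intro x hx
      obtain ⟨i, rfl⟩ := (List.mem_ofFn' X x).1 hx
      exact hX i
    have hres : res (List.ofFn X) g ∈ (Submodule.span ℝ {x | x ∈ List.ofFn X})ᗮ := by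
      rw [res_eq]
      exact Submodule.starProjection_apply_mem _ _
    rcases CN_span hAB rfl hT (by rw [h1]; exact hn) with h | h
    · exact Or.inl (Submodule.smul_mem _ _ (Submodule.orthogonal_le h hres))
    · exact Or.inr (Submodule.smul_mem _ _ (Submodule.orthogonal_le h hres))

theorem conc {μ ν : Measure V} (hd : 1 ≤ Module.finrank ℝ V) (h : Par (Module.finrank ℝ V - 1) μ ν) {A B : Submodule ℝ V}
    (hAB : IsCompl A B) (hA : ∀ᵐ x ∂μ, x ∈ A ∨ x ∈ B) : ∀ᵐ x ∂ν, x ∈ Aᗮ ∨ x ∈ Bᗮ := by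
  have := h.f1
  set N : Set V := {x | x ∉ Aᗮ ∧ x ∉ Bᗮ} with hN
  have hNm : MeasurableSet N := by
    have e : N = ((Aᗮ : Submodule ℝ V) : Set V)ᶜ ∩ ((Bᗮ : Submodule ℝ V) : Set V)ᶜ := by
      ext x
      simp [hN]
    rw [e]
    exact (Submodule.isClosed_orthogonal A).measurableSet.compl.inter
      (Submodule.isClosed_orthogonal B).measurableSet.compl
  have hNs : SC N := by
    intro x t ht
    show (t • x ∉ Aᗮ ∧ t • x ∉ Bᗮ) ↔ (x ∉ Aᗮ ∧ x ∉ Bᗮ)
    rw [Submodule.smul_mem_iff _ ht, Submodule.smul_mem_iff _ ht]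
  have hN0 : (0 : V) ∉ N := fun h0 => h0.1 (Submodule.zero_mem _)
  have hae : ∀ᵐ X ∂(Measure.pi fun _ : Fin (Module.finrank ℝ V - 1) => μ), ∀ i, X i ∈ A ∨ X i ∈ B := by
    rw [ae_all_iff]
    intro i
    exact (Measure.tendsto_eval_ae_ae (μ := fun _ : Fin (Module.finrank ℝ V - 1) => μ) (i := i)).eventually hA
  have hae2 : ∀ᵐ p ∂((Measure.pi fun _ : Fin (Module.finrank ℝ V - 1) => μ).prod (stdGaussian V)),
      ∀ i, p.1 i ∈ A ∨ p.1 i ∈ B := Measure.quasiMeasurePreserving_fst.ae hae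
  have h0 : ν N = 0 := by
    rw [null_iff (Nat.sub_le _ _) h hNm hNs hN0]
    filter_upwards [hae2] with p hp hpN
    rcases CN_pt hAB (by omega) p.1 hp p.2 with h1 | h1
    · exact hpN.1 h1
    · exact hpN.2 h1
  rw [ae_iff]
  refine measure_mono_null ?_ h0
  intro x hx
  exact not_or.1 hx

omit [MeasurableSpace V] [BorelSpace V] in
theorem isCompl_orth {A B : Submodule ℝ V} (hAB : IsCompl A B) : IsCompl Aᗮ Bᗮ := by
  constructor
  · rw [disjoint_iff, Submodule.inf_orthogonal, hAB.sup_eq_top, Submodule.top_orthogonal_eq_bot]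
  · rw [codisjoint_iff, ← Submodule.orthogonal_eq_bot_iff, ← Submodule.inf_orthogonal,
      Submodule.orthogonal_orthogonal, Submodule.orthogonal_orthogonal, hAB.inf_eq_bot]

end Pool.Agent.NSB
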