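import Pool.Agent.NSB.Defs
import Pool.Agent.HP89.G2b
import Pool.Agent.HP89.A1b

/-! Module NSB-DET: the volume of a full parallelepiped under linear isomorphisms.

`wn X` is the absolute value of the determinant of the coordinates of the vectors of `X` in an orthonormal basis (by the
Gram-Schmidt process: `res` of the tail is the Gram-Schmidt vector), and the determinant in an orthonormal basis of the target, composed
with the isomorphism, is a nonzero multiple of the determinant in an orthonormal basis of the source. -/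

set_option autoImplicit false

namespace Pool.Agent.NSB

open MeasureTheory ProbabilityTheory Set Filter Topology Metric
open Pool.Agent.Helper82.Proj1 (supp shadow kappa)
open Pool.Agent.HP89
open scoped RealInnerProductSpace ENNReal Pointwise

variable {V : Type*} [NormedAddCommGroup V] [InnerProductSpace ℝ V] [FiniteDimensional ℝ V]
  [MeasurableSpace V] [BorelSpace V]

private theorem DET_diff {W : Type*} [NormedAddCommGroup W] [InnerProductSpace ℝ W] {n : ℕ} (f : Fin n → W)
    (m : Fin n) : f m - InnerProductSpace.gramSchmidt ℝ f m =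
      ∑ i ∈ Finset.Iio m, (⟪InnerProductSpace.gramSchmidt ℝ f i, f m⟫ /
        (‖InnerProductSpace.gramSchmidt ℝ f i‖ : ℝ) ^ 2) • InnerProductSpace.gramSchmidt ℝ f i := by
  have h := InnerProductSpace.gramSchmidt_def'' ℝ f m
  exact sub_eq_of_eq_add' h

private theorem DET_res {W : Type*} [NormedAddCommGroup W] [InnerProductSpace ℝ W] [FiniteDimensional ℝ W]
    {n : ℕ} (f : Fin n → W) (m : Fin n) (L : List W) (hL : ∀ x, x ∈ L ↔ ∃ i : Fin n, i < m ∧ f i = x) :
    res L (f m) = InnerProductSpace.gramSchmidt ℝ f m := by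
  rw [res_eq]
  refine Submodule.eq_starProjection_of_mem_orthogonal ?_ ?_
  · have h1 : Submodule.span ℝ {x | x ∈ L} ≤
        (Submodule.span ℝ {InnerProductSpace.gramSchmidt ℝ f m})ᗮ := by
      rw [Submodule.span_le]
      intro y hy
      rw [SetLike.mem_coe, Submodule.mem_orthogonal_singleton_iff_inner_left]
      obtain ⟨i, hi, rfl⟩ := (hL y).1 hy
      rw [real_inner_comm]
      exact InnerProductSpace.gramSchmidt_inv_triangular ℝ f hi
    intro u hu
    exact Submodule.mem_orthogonal_singleton_iff_inner_left.1 (h1 hu)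
  · apply Submodule.le_orthogonal_orthogonal
    rw [DET_diff]
    refine Submodule.sum_mem _ fun i hi => Submodule.smul_mem _ _ ?_
    have hi' : i < m := Finset.mem_Iio.1 hi
    have h2 := InnerProductSpace.gramSchmidt_mem_span ℝ f (le_refl i)
    refine Submodule.span_mono ?_ h2
    rintro y ⟨j, hj, rfl⟩
    exact (hL _).2 ⟨j, lt_of_le_of_lt hj hi', rfl⟩

private theorem DET_gs {W : Type*} [NormedAddCommGroup W] [InnerProductSpace ℝ W] {n : ℕ} (f : Fin n → W)
    (m : Fin n) : ⟪InnerProductSpace.gramSchmidt ℝ f m, f m⟫ = ‖InnerProductSpace.gramSchmidt ℝ f m‖ ^ 2 := by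
  have h1 : ⟪InnerProductSpace.gramSchmidt ℝ f m, f m - InnerProductSpace.gramSchmidt ℝ f m⟫ = 0 := by
    rw [DET_diff, inner_sum]
    refine Finset.sum_eq_zero fun i hi => ?_
    have hi' : i < m := Finset.mem_Iio.1 hi
    rw [inner_smul_right, InnerProductSpace.gramSchmidt_orthogonal ℝ f hi'.ne', mul_zero]
  rw [inner_sub_right, real_inner_self_eq_norm_sq] at h1
  linarith

private theorem DET_b {W : Type*} [NormedAddCommGroup W] [InnerProductSpace ℝ W] [FiniteDimensional ℝ W] {n : ℕ}
    (h : Module.finrank ℝ W = Fintype.card (Fin n)) (f : Fin n → W) (i : Fin n) :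
    |⟪InnerProductSpace.gramSchmidtOrthonormalBasis h f i, f i⟫| = ‖InnerProductSpace.gramSchmidt ℝ f i‖ := by
  by_cases hi : InnerProductSpace.gramSchmidtNormed ℝ f i = 0
  · rw [InnerProductSpace.inner_gramSchmidtOrthonormalBasis_eq_zero h hi, abs_zero]
    unfold InnerProductSpace.gramSchmidtNormed at hi
    rcases smul_eq_zero.1 hi with h1 | h1
    · have h2 : (‖InnerProductSpace.gramSchmidt ℝ f i‖ : ℝ)⁻¹ = 0 := h1
      rw [inv_eq_zero] at h2
      exact h2.symm
    · rw [h1, norm_zero]
  · rw [InnerProductSpace.gramSchmidtOrthonormalBasis_apply h hi]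
    unfold InnerProductSpace.gramSchmidtNormed at hi ⊢
    have h0 : InnerProductSpace.gramSchmidt ℝ f i ≠ 0 := by
      intro h1
      apply hi
      rw [h1, smul_zero]
    have h3 : ‖InnerProductSpace.gramSchmidt ℝ f i‖ ≠ 0 := norm_ne_zero_iff.2 h0
    rw [real_inner_smul_left, DET_gs]
    have h4 : ((‖InnerProductSpace.gramSchmidt ℝ f i‖ : ℝ)⁻¹) * ‖InnerProductSpace.gramSchmidt ℝ f i‖ ^ 2 =
        ‖InnerProductSpace.gramSchmidt ℝ f i‖ := by
      field_simp
    have h5 : |((‖InnerProductSpace.gramSchmidt ℝ f i‖ : ℝ)⁻¹) * ‖InnerProductSpace.gramSchmidt ℝ f i‖ ^ 2| =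
        ‖InnerProductSpace.gramSchmidt ℝ f i‖ := by
      rw [h4, abs_norm]
    exact h5

private theorem DET_list {W : Type*} [NormedAddCommGroup W] [InnerProductSpace ℝ W] [FiniteDimensional ℝ W]
    {n : ℕ} (g : ℕ → W) (m : ℕ) (hm : m ≤ n) :
    wn ((List.range m).map g).reverse =
      ∏ i : Fin m, ‖InnerProductSpace.gramSchmidt ℝ (fun j : Fin n => g j) ⟨i, lt_of_lt_of_le i.2 hm⟩‖ := by
  induction m with
  | zero => simp
  | succ m ih =>
    have hmn : m < n := hm
    rw [List.range_succ, List.map_append, List.reverse_append]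
    have h1 : (List.map g [m]).reverse = [g m] := rfl
    rw [h1, List.singleton_append, wn_cons, ih hmn.le, Fin.prod_univ_castSucc]
    congr 1
    have h2 := DET_res (fun j : Fin n => g j) ⟨m, hmn⟩ ((List.range m).map g).reverse (by
      intro x
      rw [List.mem_reverse, List.mem_map]
      constructor
      · rintro ⟨a, ha, rfl⟩
        have ha' : a < m := List.mem_range.1 ha
        exact ⟨⟨a, ha'.trans hmn⟩, ha', rfl⟩
      · rintro ⟨i, hi, rfl⟩
        exact ⟨i, List.mem_range.2 hi, rfl⟩)
    exact congrArg norm h2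

private theorem DET_wn {W : Type*} [NormedAddCommGroup W] [InnerProductSpace ℝ W] [FiniteDimensional ℝ W]
    {n : ℕ} (e : OrthonormalBasis (Fin n) ℝ W) (X : List W) (hX : X.length = n) :
    wn X = |e.toBasis.det (fun i : Fin n => X.getD i 0)| := by
  have h : Module.finrank ℝ W = Fintype.card (Fin n) := Module.finrank_eq_card_basis e.toBasis
  have hb := InnerProductSpace.gramSchmidtOrthonormalBasis_det h (fun i : Fin n => X.getD i 0)
  have h1 := AlternatingMap.eq_smul_basis_det
    (InnerProductSpace.gramSchmidtOrthonormalBasis h (fun i : Fin n => X.getD i 0)).toBasis e.toBasis.det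
  have h2 := e.det_to_matrix_orthonormalBasis_real
    (InnerProductSpace.gramSchmidtOrthonormalBasis h (fun i : Fin n => X.getD i 0))
  have h3 : |e.toBasis.det (fun i : Fin n => X.getD i 0)| =
      ∏ i : Fin n, ‖InnerProductSpace.gramSchmidt ℝ (fun i : Fin n => X.getD i 0) i‖ := by
    rw [h1, AlternatingMap.smul_apply, hb, smul_eq_mul, abs_mul, Finset.abs_prod]
    have h4 : |e.toBasis.det ⇑(InnerProductSpace.gramSchmidtOrthonormalBasis h
        (fun i : Fin n => X.getD i 0)).toBasis| = 1 := by
      rw [OrthonormalBasis.coe_toBasis]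
      rcases h2 with h2 | h2 <;> rw [h2] <;> simp
    rw [h4, one_mul]
    exact Finset.prod_congr rfl fun i _ => DET_b h _ i
  rw [h3, ← wn_perm X.reverse_perm]
  have h5 : (List.range n).map (fun i => X.getD i 0) = X := by
    refine List.ext_getElem (by simp [hX]) fun i h6 h7 => ?_
    rw [List.getElem_map, List.getElem_range, List.getD_eq_getElem _ _ h7]
  have h6 := DET_list (n := n) (fun i => X.getD i 0) n le_rfl
  rw [h5] at h6
  exact h6

theorem wn_det {W W' : Type*} [NormedAddCommGroup W] [InnerProductSpace ℝ W] [FiniteDimensional ℝ W]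
    [NormedAddCommGroup W'] [InnerProductSpace ℝ W'] [FiniteDimensional ℝ W'] (T : W ≃ₗ[ℝ] W') :
    ∃ δ : ℝ, 0 < δ ∧ ∀ X : List W, X.length = Module.finrank ℝ W → wn (X.map T) = δ * wn X := by
  have e := stdOrthonormalBasis ℝ W
  have e' : OrthonormalBasis (Fin (Module.finrank ℝ W)) ℝ W' :=
    (stdOrthonormalBasis ℝ W').reindex (finCongr T.finrank_eq.symm)
  have h1 : e'.toBasis.det.compLinearMap (T : W →ₗ[ℝ] W') =
      (e'.toBasis.det.compLinearMap (T : W →ₗ[ℝ] W')) e.toBasis • e.toBasis.det :=
    AlternatingMap.eq_smul_basis_det e.toBasis _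
  have h2 : (e'.toBasis.det.compLinearMap (T : W →ₗ[ℝ] W')) e.toBasis ≠ 0 := by
    have h3 := (e'.toBasis.isUnit_det (e.toBasis.map T)).ne_zero
    intro h4
    apply h3
    rw [← h4, AlternatingMap.compLinearMap_apply]
    congr 1
  refine ⟨|(e'.toBasis.det.compLinearMap (T : W →ₗ[ℝ] W')) e.toBasis|, abs_pos.2 h2, fun X hX => ?_⟩
  rw [DET_wn e X hX, DET_wn e' (X.map T) (by rw [List.length_map, hX]), ← abs_mul]
  congr 1
  have h5 := congrArg (fun F => F (fun i : Fin (Module.finrank ℝ W) => X.getD i 0)) h1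
  simp only [AlternatingMap.smul_apply, smul_eq_mul] at h5
  rw [← h5, AlternatingMap.compLinearMap_apply]
  congr 1
  funext i
  have hi : (i : ℕ) < X.length := by rw [hX]; exact i.2
  rw [List.getD_eq_getElem _ _ (by rw [List.length_map]; exact hi), List.getElem_map]
  simp only [LinearEquiv.coe_coe]
  rw [List.getD_eq_getElem _ _ hi]

end Pool.Agent.NSB
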