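import Pool.Agent.NSB.FF
import Pool.Agent.NSB.DET
import Pool.Agent.NSB.CN

/-! Module NSB-PS: restriction of a pair of measures to a summand.  `P` is the orthogonal projection to `W₁`; its restriction to `W₂ᗮ` is an
isomorphism `T : W₂ᗮ ≃ W₁`.  The cosine transform of `(ν.restrict W₁).map P` at `w` is that of `ν` at `T⁻¹ w`, the one of `μ.map P` at `w` is that
of `μ` at `w`; the iterated integrals are compared by `iter_split`, `iter_map`, `iter_restrict` and `wn_det`. -/

set_option autoImplicit false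

namespace Pool.Agent.NSB

open MeasureTheory ProbabilityTheory Set Filter Topology Metric
open Pool.Agent.Helper82.Proj1 (supp shadow kappa)
open Pool.Agent.HP89
open scoped RealInnerProductSpace ENNReal Pointwise

variable {V : Type*} [NormedAddCommGroup V] [InnerProductSpace ℝ V] [FiniteDimensional ℝ V]
  [MeasurableSpace V] [BorelSpace V]

private theorem PS_congr (ρ : Measure V) {A : Set V} (hA : ∀ᵐ x ∂ρ, x ∈ A) {F G : List V → ℝ≥0∞} (l : ℕ) (Y : List V)
    (hY : ∀ y ∈ Y, y ∈ A) (h : ∀ Z : List V, Z.length = Y.length + l → (∀ z ∈ Z, z ∈ A) → F Z = G Z) :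
    iter ρ l F Y = iter ρ l G Y := by
  induction l generalizing Y with
  | zero => exact h Y rfl hY
  | succ l ih =>
    rw [iter_succ, iter_succ]
    refine lintegral_congr_ae ?_
    filter_upwards [hA] with x hx
    refine ih (x :: Y) ?_ fun Z hZ => h Z ?_
    · intro y hy
      rcases List.mem_cons.1 hy with hy | hy
      · rw [hy]
        exact hx
      · exact hY y hy
    · rw [hZ, List.length_cons]
      ring

omit [FiniteDimensional ℝ V] [BorelSpace V] in
private theorem PS_mem (W : Submodule ℝ V) [W.HasOrthogonalProjection] {Z : List V} (hZ : ∀ z ∈ Z, z ∈ W) :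
    ew (Z.map fun x => W.orthogonalProjectionOnto x) = ew Z := by
  unfold ew
  rw [← wn_map W.subtypeₗᵢ, List.map_map]
  congr 2
  refine (List.map_congr_left fun x hx => ?_).trans (List.map_id Z)
  have h1 := W.orthogonalProjectionOnto_mem_subspace_eq_self ⟨x, hZ x hx⟩
  have h2 := congrArg (fun y : W => (y : V)) h1
  exact h2

private theorem PS_meas (W : Submodule ℝ V) : Measurable fun x : V => W.orthogonalProjectionOnto x :=
  W.orthogonalProjectionOnto.continuous.measurable

private theorem PS_Jc (W : Submodule ℝ V) (ρ : Measure V) (w : W) :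
    Jc (ρ.map fun x => W.orthogonalProjectionOnto x) w = Jc ρ (w : V) := by
  unfold Jc
  rw [lintegral_map (by fun_prop) (PS_meas W)]
  refine lintegral_congr fun x => ?_
  rw [W.inner_orthogonalProjectionOnto_eq_of_mem_right]

private theorem PS_int (W : Submodule ℝ V) {ρ : Measure V} (h : Integrable (fun x => ‖x‖) ρ) :
    Integrable (fun x => ‖x‖) (ρ.map fun x => W.orthogonalProjectionOnto x) := by
  rw [integrable_map_measure (by fun_prop) (PS_meas W).aemeasurable]
  refine h.mono' ?_ ?_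
  · exact (continuous_norm.comp W.orthogonalProjectionOnto.continuous).aestronglyMeasurable
  · refine Eventually.of_forall fun x => ?_
    rw [Function.comp_apply, norm_norm]
    exact W.norm_orthogonalProjectionOnto_apply_le x

private theorem PS_ex {W : Submodule ℝ V} (h : W ≠ ⊥) : ∃ w : W, w ≠ 0 := by
  obtain ⟨x, hx, h0⟩ := (Submodule.ne_bot_iff W).1 h
  exact ⟨⟨x, hx⟩, fun h1 => h0 (congrArg (fun y : W => (y : V)) h1)⟩

theorem par_sub {W₁ W₂ : Submodule ℝ V} (hW : IsCompl W₁ W₂) (h1 : W₁ ≠ ⊥) (h2 : W₂ ≠ ⊥) {μ ν : Measure V}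
    (h : Par (Module.finrank ℝ V - 1) μ ν) (hν : ∀ᵐ x ∂ν, x ∈ W₁ ∨ x ∈ W₂) (hμ : ∀ᵐ x ∂μ, x ∈ W₂ᗮ ∨ x ∈ W₁ᗮ) :
    Par (Module.finrank ℝ W₁ - 1) (μ.map fun x => W₁.orthogonalProjectionOnto x)
      ((ν.restrict W₁).map fun x => W₁.orthogonalProjectionOnto x) := by
  have hfμ := h.f1
  have hfν := h.f2
  have ho := isCompl_orth hW
  have hd : Module.finrank ℝ W₁ + Module.finrank ℝ W₂ = Module.finrank ℝ V := Submodule.finrank_add_eq_of_isCompl hW
  have hd2 : Module.finrank ℝ W₂ + Module.finrank ℝ W₂ᗮ = Module.finrank ℝ V := Submodule.finrank_add_finrank_orthogonal W₂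
  have hda : Module.finrank ℝ W₂ᗮ = Module.finrank ℝ W₁ := by omega
  have hm1 : MeasurableSet (W₁ : Set V) := W₁.closed_of_finiteDimensional.measurableSet
  have hm2 : MeasurableSet (W₂ᗮ : Set V) := W₂ᗮ.closed_of_finiteDimensional.measurableSet
  -- the isomorphism
  obtain ⟨T, hT⟩ : ∃ T : W₂ᗮ ≃ₗ[ℝ] W₁, ∀ x : W₂ᗮ, T x = W₁.orthogonalProjectionOnto (x : V) := by
    have hinj : Function.Injective ((W₁.orthogonalProjectionOnto : V →ₗ[ℝ] W₁) ∘ₗ W₂ᗮ.subtype) := by
      rw [← LinearMap.ker_eq_bot, LinearMap.ker_eq_bot']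
      intro x hx
      have h3 : W₁.orthogonalProjectionOnto (x : V) = 0 := hx
      rw [Submodule.orthogonalProjectionOnto_eq_zero_iff] at h3
      have h4 : (x : V) ∈ W₁ᗮ ⊓ W₂ᗮ := ⟨h3, x.2⟩
      rw [ho.inf_eq_bot, Submodule.mem_bot] at h4
      exact Subtype.ext h4
    exact ⟨LinearMap.linearEquivOfInjective _ hinj hda, fun x => rfl⟩
  obtain ⟨δ, hδ, hdet⟩ := wn_det T
  have hu : ∀ w : W₁, W₁.orthogonalProjectionOnto ((T.symm w : W₂ᗮ) : V) = w := fun w => by
    rw [← hT, T.apply_symm_apply]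
  -- the cosine transform of the restriction
  have hJ : ∀ w : W₁, Jc ((ν.restrict W₁).map fun x => W₁.orthogonalProjectionOnto x) w = Jc ν ((T.symm w : W₂ᗮ) : V) := by
    intro w
    rw [PS_Jc]
    unfold Jc
    rw [← lintegral_add_compl (fun x => ENNReal.ofReal |⟪x, ((T.symm w : W₂ᗮ) : V)⟫|) hm1]
    have h3 : ∫⁻ x in (W₁ : Set V)ᶜ, ENNReal.ofReal |⟪x, ((T.symm w : W₂ᗮ) : V)⟫| ∂ν = 0 := by
      rw [← lintegral_zero (μ := ν.restrict (W₁ : Set V)ᶜ)]
      refine lintegral_congr_ae ?_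
      filter_upwards [ae_restrict_mem hm1.compl, ae_restrict_of_ae hν] with x h4 h5
      have h6 : x ∈ W₂ := h5.resolve_left h4
      rw [Submodule.inner_right_of_mem_orthogonal h6 (T.symm w).2, abs_zero, ENNReal.ofReal_zero]
    rw [h3, add_zero]
    refine setLIntegral_congr_fun hm1 fun x hx => ?_
    have h4 : ⟪x, ((T.symm w : W₂ᗮ) : V)⟫ = ⟪x, (w : V)⟫ := by
      have h5 := W₁.inner_orthogonalProjectionOnto_eq_of_mem_left ⟨x, hx⟩ ((T.symm w : W₂ᗮ) : V)
      rw [hu w, W₁.coe_inner] at h5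
      exact h5.symm
    rw [h4]
  obtain ⟨w0, hw0⟩ := PS_ex h1
  have hw0' : (w0 : V) ≠ 0 := fun h3 => hw0 (Subtype.ext h3)
  have hT0 : ∀ w : W₁, w ≠ 0 → ((T.symm w : W₂ᗮ) : V) ≠ 0 := by
    intro w hw h3
    refine hw ?_
    have h4 : T.symm w = 0 := Subtype.ext h3
    rw [← T.apply_symm_apply w, h4, map_zero]
  refine ⟨?_, ?_, PS_int W₁ h.i1, PS_int W₁ h.i2.restrict, ?_, ?_, ?_, ?_⟩
  · exact Measure.isFiniteMeasure_map μ _
  · exact Measure.isFiniteMeasure_map _ _
  · -- c1
    obtain ⟨c, hc0, hct, hc⟩ := h.c1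
    have hb2 : W₂ᗮ ≠ ⊥ := by
      intro h3
      rw [h3] at hda
      rw [finrank_bot] at hda
      exact h1 (Submodule.finrank_eq_zero.1 hda.symm)
    have hb1 : W₁ᗮ ≠ ⊥ := by
      intro h3
      have h4 : Module.finrank ℝ W₁ + Module.finrank ℝ W₁ᗮ = Module.finrank ℝ V := Submodule.finrank_add_finrank_orthogonal W₁
      rw [h3, finrank_bot] at h4
      exact h2 (Submodule.finrank_eq_zero.1 (by omega))
    obtain ⟨c', hct', hc'⟩ := iter_split (ρ := μ) ho.symm hb2 hb1 h.i1 hμ
    rw [hda] at hc'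
    have hδ0 : ENNReal.ofReal δ ≠ 0 := by
      rw [Ne, ENNReal.ofReal_eq_zero, not_le]
      exact hδ
    have key : ∀ w : W₁, iter (μ.map fun x => W₁.orthogonalProjectionOnto x) (Module.finrank ℝ W₁ - 1) ew [w] =
        ENNReal.ofReal δ * iter (μ.restrict W₂ᗮ) (Module.finrank ℝ W₁ - 1) ew [((T.symm w : W₂ᗮ) : V)] := by
      intro w
      have h3 := iter_map (PS_meas W₁) μ (F := ew) lmeas_ew (Module.finrank ℝ W₁ - 1) [((T.symm w : W₂ᗮ) : V)]
      rw [List.map_cons, List.map_nil, hu w] at h3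
      rw [h3, iter_restrict μ _ _ hm2 ?_, ← iter_const_mul _ _ _ ENNReal.ofReal_ne_top]
      · refine PS_congr _ (A := (W₂ᗮ : Set V)) (ae_restrict_mem hm2) _ _ ?_ ?_
        · intro y hy
          rw [List.mem_singleton] at hy
          rw [hy]
          exact (T.symm w).2
        · intro Z hZ hZm
          have hpos : 0 < Module.finrank ℝ W₁ := by
            rcases Nat.eq_zero_or_pos (Module.finrank ℝ W₁) with h4 | h4
            · exact absurd (Submodule.finrank_eq_zero.1 h4) h1
            · exact h4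
          obtain ⟨Z', hZ'⟩ : ∃ Z' : List W₂ᗮ, Z'.map (fun x : W₂ᗮ => (x : V)) = Z := by
            refine ⟨Z.pmap (fun x hx => ⟨x, hx⟩) hZm, ?_⟩
            rw [List.map_pmap]
            simp
          have h5 : Z'.length = Module.finrank ℝ W₂ᗮ := by
            rw [← List.length_map (fun x : W₂ᗮ => (x : V)), hZ', hZ, hda, List.length_singleton]
            omega
          have h6 := hdet Z' h5
          have h7 : Z'.map T = Z.map fun x => W₁.orthogonalProjectionOnto x := by
            rw [← hZ', List.map_map]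
            exact List.map_congr_left fun x _ => hT x
          have h8 : wn Z' = wn Z := by
            rw [← hZ']
            exact (wn_map W₂ᗮ.subtypeₗᵢ Z').symm
          rw [h7, h8] at h6
          change ENNReal.ofReal (wn _) = _ * ENNReal.ofReal (wn _)
          rw [h6, ENNReal.ofReal_mul hδ.le]
      · filter_upwards [hμ] with x h4 h5 X Y
        have h6 : x ∈ W₁ᗮ := h4.resolve_left h5
        have h7 : W₁.orthogonalProjectionOnto x = 0 := Submodule.orthogonalProjectionOnto_eq_zero_iff.2 h6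
        change ENNReal.ofReal (wn _) = 0
        rw [wn_zero_mem, ENNReal.ofReal_zero]
        rw [List.map_append, List.map_cons, h7]
        simp
    have hall : ∀ w : W₁, Jc ((ν.restrict W₁).map fun x => W₁.orthogonalProjectionOnto x) w =
        c * c' * (ENNReal.ofReal δ)⁻¹ *
          iter (μ.map fun x => W₁.orthogonalProjectionOnto x) (Module.finrank ℝ W₁ - 1) ew [w] := by
      intro w
      rw [hJ, hc, hc' _ (T.symm w).2, key, mul_assoc (c * c'), ← mul_assoc (ENNReal.ofReal δ)⁻¹,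
        ENNReal.inv_mul_cancel hδ0 ENNReal.ofReal_ne_top, one_mul, mul_assoc]
    refine ⟨c * c' * (ENNReal.ofReal δ)⁻¹, ?_, ?_, hall⟩
    · intro h3
      have h4 := hall w0
      rw [h3, zero_mul, hJ] at h4
      exact h.p2 _ (hT0 w0 hw0) h4
    · exact ENNReal.mul_ne_top (ENNReal.mul_ne_top hct hct') (ENNReal.inv_ne_top.2 hδ0)
  · -- c2
    obtain ⟨c, hc0, hct, hc⟩ := h.c2
    obtain ⟨c', hct', hc'⟩ := iter_split (ρ := ν) hW h1 h2 h.i2 hν
    have hall : ∀ w : W₁, Jc (μ.map fun x => W₁.orthogonalProjectionOnto x) w =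
        c * c' * iter ((ν.restrict W₁).map fun x => W₁.orthogonalProjectionOnto x) (Module.finrank ℝ W₁ - 1) ew [w] := by
      intro w
      rw [PS_Jc, hc, hc' _ w.2, mul_assoc]
      congr 2
      have h3 := iter_map (PS_meas W₁) (ν.restrict W₁) (F := ew) lmeas_ew (Module.finrank ℝ W₁ - 1) [(w : V)]
      rw [List.map_cons, List.map_nil, W₁.orthogonalProjectionOnto_mem_subspace_eq_self] at h3
      rw [h3]
      refine PS_congr _ (A := (W₁ : Set V)) (ae_restrict_mem hm1) _ _ ?_ ?_
      · intro y hy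
        rw [List.mem_singleton] at hy
        rw [hy]
        exact w.2
      · intro Z _ hZm
        exact (PS_mem W₁ hZm).symm
    refine ⟨c * c', ?_, ENNReal.mul_ne_top hct hct', hall⟩
    intro h3
    have h4 := hall w0
    rw [h3, zero_mul, PS_Jc] at h4
    exact h.p1 _ hw0' h4
  · intro w hw
    rw [PS_Jc]
    exact h.p1 _ fun h3 => hw (Subtype.ext h3)
  · intro w hw
    rw [hJ]
    exact h.p2 _ (hT0 w hw)

end Pool.Agent.NSB
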