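import Pool.Agent.NSB.PL

/-! Module NSB-SPL: a closed cone with the closure property is everything or is contained in the union of two complementary subspaces.

`e : Basis ι ℝ V` with vectors in `S`. `SPL_rem`: a coordinate of `s ∈ S` may be removed (property `PP` with `a = s`, `b = e k` and a normal vector `n` of
the other basis vectors). `SPL_pair`: two non-zero coordinates of some `s ∈ S` give `e i + α e j ∈ S`. The relation `SPL_R` is an equivalence relation by
`plane_full`. If it has one class, all nonzero vectors are in `S` (`SPL_full`, induction on the support); otherwise `A` is the span of one class, `B` the span of the rest. -/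

set_option autoImplicit false

namespace Pool.Agent.NSB

open MeasureTheory ProbabilityTheory Set Filter Topology Metric
open Pool.Agent.Helper82.Proj1 (supp shadow kappa)
open Pool.Agent.HP89
open scoped RealInnerProductSpace ENNReal Pointwise

variable {V : Type*} [NormedAddCommGroup V] [InnerProductSpace ℝ V] [FiniteDimensional ℝ V]
  [MeasurableSpace V] [BorelSpace V]

omit [FiniteDimensional ℝ V] [MeasurableSpace V] [BorelSpace V] in
private theorem SPL_rep {ι : Type*} [Fintype ι] [DecidableEq ι] (e : Module.Basis ι ℝ V) (v : V) (k : ι) :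
    e.repr (v - (e.repr v k) • e k) k = 0 ∧ ∀ j, j ≠ k → e.repr (v - (e.repr v k) • e k) j = e.repr v j := by
  constructor
  · rw [map_sub, map_smul, e.repr_self, Finsupp.sub_apply, Finsupp.smul_apply, Finsupp.single_eq_same, smul_eq_mul, mul_one,
      sub_self]
  · intro j hj
    rw [map_sub, map_smul, e.repr_self, Finsupp.sub_apply, Finsupp.smul_apply, Finsupp.single_eq_of_ne hj, smul_zero, sub_zero]

omit [MeasurableSpace V] [BorelSpace V] in
private theorem SPL_norm {ι : Type*} [Fintype ι] [DecidableEq ι] (e : Module.Basis ι ℝ V) (k : ι) :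
    ∃ n : V, n ≠ 0 ∧ ∀ i, i ≠ k → ⟪e i, n⟫ = 0 := by
  have h1 : Submodule.span ℝ (e '' {i | i ≠ k}) ≠ ⊤ := by
    intro h
    have h2 : e k ∈ Submodule.span ℝ (e '' {i | i ≠ k}) := by rw [h]; trivial
    rw [e.mem_span_image, e.repr_self] at h2
    have h3 : k ∈ ((Finsupp.single k (1 : ℝ)).support : Set ι) := by
      rw [Finset.mem_coe, Finsupp.mem_support_iff, Finsupp.single_eq_same]
      exact one_ne_zero
    exact h2 h3 rfl
  have h2 : (Submodule.span ℝ (e '' {i | i ≠ k}))ᗮ ≠ ⊥ := fun h =>
    h1 ((Submodule.orthogonal_eq_bot_iff).1 h)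
  obtain ⟨n, hn, hn0⟩ := (Submodule.ne_bot_iff _).1 h2
  refine ⟨n, hn0, fun i hi => ?_⟩
  exact (Submodule.mem_orthogonal _ _).1 hn (e i) (Submodule.subset_span ⟨i, hi, rfl⟩)

omit [MeasurableSpace V] [BorelSpace V] in
private theorem SPL_rem {d : ℕ} (hd : Module.finrank ℝ V = d + 1) (hd2 : 2 ≤ d) {S N : Set V} (hS : Submodule.span ℝ S = ⊤)
    (sS : SC S) (h1 : JJ d S N) (h2 : JJ d N S) {ι : Type*} [Fintype ι] [DecidableEq ι] (e : Module.Basis ι ℝ V)
    (he : ∀ i, e i ∈ S) {s : V} (hs : s ∈ S) (k : ι) (h0 : s - (e.repr s k) • e k ≠ 0) : s - (e.repr s k) • e k ∈ S := by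
  obtain ⟨n, hn0, hn⟩ := SPL_norm e k
  have hcard : Fintype.card ι = d + 1 := by rw [← Module.finrank_eq_card_basis e, hd]
  have hc2 : Fintype.card {i : ι // i ≠ k} = Fintype.card (Fin d) := by
    rw [Fintype.card_fin, Fintype.card_subtype_compl, Fintype.card_subtype_eq, hcard]
    rfl
  obtain ⟨φ⟩ : Nonempty (Fin d ≃ {i : ι // i ≠ k}) := ⟨(Fintype.equivOfCardEq hc2).symm⟩
  have hnN : n ∈ N := by
    refine h1 (fun j => e (φ j).1) (fun j => he _) ?_ n hn0 (fun j => hn _ (φ j).2)
    exact e.linearIndependent.comp (fun j => (φ j).1) (fun a b hab => φ.injective (Subtype.ext hab))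
  have hne : ⟪n, s⟫ = (e.repr s k) * ⟪n, e k⟫ := by
    have h3 : ⟪n, s - (e.repr s k) • e k⟫ = 0 := by
      have h4 : s - (e.repr s k) • e k = ∑ i, (e.repr (s - (e.repr s k) • e k) i) • e i := (e.sum_repr _).symm
      rw [h4, inner_sum]
      refine Finset.sum_eq_zero fun i _ => ?_
      rw [inner_smul_right]
      by_cases hi : i = k
      · rw [hi, (SPL_rep e s k).1, zero_mul]
      · rw [real_inner_comm, hn i hi, mul_zero]
    rw [inner_sub_right, inner_smul_right] at h3
    linarith
  have hk : ⟪n, e k⟫ ≠ 0 := by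
    intro h3
    apply hn0
    have h4 : ∀ i, ⟪n, e i⟫ = 0 := by
      intro i
      by_cases hi : i = k
      · rw [hi, h3]
      · rw [real_inner_comm, hn i hi]
    have h5 : ⟪n, n⟫ = 0 := by
      have h6 : ⟪n, ∑ i, (e.repr n i) • e i⟫ = 0 := by
        rw [inner_sum]
        exact Finset.sum_eq_zero fun i _ => by rw [inner_smul_right, h4 i, mul_zero]
      rwa [e.sum_repr] at h6
    exact inner_self_eq_zero.1 h5
  have he1 : ⟪n, e k⟫ • s - ⟪n, s⟫ • e k = ⟪n, e k⟫ • (s - (e.repr s k) • e k) := by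
    rw [hne, smul_sub, smul_smul, mul_comm]
  have h3 : ⟪n, e k⟫ • s - ⟪n, s⟫ • e k ≠ 0 := by
    rw [he1]
    exact smul_ne_zero hk h0
  have h4 := PP hd hd2 hS h1 h2 hs (he k) hnN h3
  rw [he1] at h4
  exact (sS _ _ hk).1 h4

omit [MeasurableSpace V] [BorelSpace V] in
private theorem SPL_rems {d : ℕ} (hd : Module.finrank ℝ V = d + 1) (hd2 : 2 ≤ d) {S N : Set V} (hS : Submodule.span ℝ S = ⊤)
    (sS : SC S) (h1 : JJ d S N) (h2 : JJ d N S) {ι : Type*} [Fintype ι] [DecidableEq ι] (e : Module.Basis ι ℝ V)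
    (he : ∀ i, e i ∈ S) {s : V} (hs : s ∈ S) (J : Finset ι) (hJ : ∃ i, i ∉ J ∧ e.repr s i ≠ 0) :
    ∃ t ∈ S, (∀ j ∈ J, e.repr t j = 0) ∧ ∀ j, j ∉ J → e.repr t j = e.repr s j := by
  induction J using Finset.induction_on with
  | empty => exact ⟨s, hs, fun j hj => absurd hj (Finset.notMem_empty j), fun j _ => rfl⟩
  | insert k J hk ih =>
    obtain ⟨i, hi, hi0⟩ := hJ
    obtain ⟨t, ht, ht1, ht2⟩ := ih ⟨i, fun h => hi (Finset.mem_insert_of_mem h), hi0⟩
    have hik : i ≠ k := fun h => hi (h ▸ Finset.mem_insert_self k J)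
    have hiJ : i ∉ J := fun h => hi (Finset.mem_insert_of_mem h)
    obtain ⟨r1, r2⟩ := SPL_rep e t k
    have h3 : t - (e.repr t k) • e k ≠ 0 := by
      intro h4
      have h5 := r2 i hik
      rw [h4, map_zero, Finsupp.zero_apply, ht2 i hiJ] at h5
      exact hi0 h5.symm
    refine ⟨_, SPL_rem hd hd2 hS sS h1 h2 e he ht k h3, fun j hj => ?_, fun j hj => ?_⟩
    · by_cases hjk : j = k
      · rw [hjk, r1]
      · rw [r2 j hjk]
        exact ht1 j (Finset.mem_of_mem_insert_of_ne hj hjk)
    · have hjk : j ≠ k := fun h => hj (h ▸ Finset.mem_insert_self k J)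
      rw [r2 j hjk]
      exact ht2 j (fun h => hj (Finset.mem_insert_of_mem h))

/-- `i = j`, or `e i + α e j ∈ S` for some `α ≠ 0` -/
private def SPL_R {ι : Type*} (S : Set V) (e : ι → V) (i j : ι) : Prop := i = j ∨ ∃ α : ℝ, α ≠ 0 ∧ e i + α • e j ∈ S

omit [FiniteDimensional ℝ V] [MeasurableSpace V] [BorelSpace V] in
private theorem SPL_symm {ι : Type*} {S : Set V} (sS : SC S) {e : ι → V} {i j : ι} (h : SPL_R S e i j) : SPL_R S e j i := by
  rcases h with h | ⟨α, h0, h⟩
  · exact Or.inl h.symm
  · refine Or.inr ⟨α⁻¹, inv_ne_zero h0, ?_⟩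
    have h1 := (sS _ _ (inv_ne_zero h0)).2 h
    rw [smul_add, smul_smul, inv_mul_cancel₀ h0, one_smul, add_comm] at h1
    exact h1

omit [MeasurableSpace V] [BorelSpace V] in
private theorem SPL_pair {d : ℕ} (hd : Module.finrank ℝ V = d + 1) (hd2 : 2 ≤ d) {S N : Set V} (hS : Submodule.span ℝ S = ⊤)
    (sS : SC S) (h1 : JJ d S N) (h2 : JJ d N S) {ι : Type*} [Fintype ι] [DecidableEq ι] (e : Module.Basis ι ℝ V)
    (he : ∀ i, e i ∈ S) {s : V} (hs : s ∈ S) {i j : ι} (hi : e.repr s i ≠ 0) (hj : e.repr s j ≠ 0) : SPL_R S e i j := by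
  by_cases hij : i = j
  · exact Or.inl hij
  · obtain ⟨t, ht, t1, t2⟩ := SPL_rems hd hd2 hS sS h1 h2 e he hs (Finset.univ.filter fun k => k ≠ i ∧ k ≠ j)
      ⟨i, by simp, hi⟩
    have ti : e.repr t i = e.repr s i := t2 i (by simp)
    have tj : e.repr t j = e.repr s j := t2 j (by simp)
    have h3 : t = (e.repr s i) • e i + (e.repr s j) • e j := by
      rw [← e.sum_repr t, ← Finset.sum_subset (Finset.subset_univ {i, j})]
      · rw [Finset.sum_pair hij, ti, tj]
      · intro k _ hk
        rw [Finset.mem_insert, Finset.mem_singleton, not_or] at hk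
        rw [t1 k (by simp [hk.1, hk.2]), zero_smul]
    right
    refine ⟨(e.repr s i)⁻¹ * e.repr s j, mul_ne_zero (inv_ne_zero hi) hj, ?_⟩
    have h4 := (sS _ _ (inv_ne_zero hi)).2 ht
    rw [h3, smul_add, smul_smul, smul_smul, inv_mul_cancel₀ hi, one_smul] at h4
    exact h4

omit [MeasurableSpace V] [BorelSpace V] in
private theorem SPL_plane {d : ℕ} (hd : Module.finrank ℝ V = d + 1) (hd2 : 2 ≤ d) {S N : Set V} (hS : Submodule.span ℝ S = ⊤)
    (sS : SC S) (cS : IsClosed (S ∪ {0})) (h1 : JJ d S N) (h2 : JJ d N S) {ι : Type*} [Fintype ι] [DecidableEq ι]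
    (e : Module.Basis ι ℝ V)
    (he : ∀ i, e i ∈ S) {i j k : ι} (hij : i ≠ j) (hjk : j ≠ k) (hik : i ≠ k) (r1 : SPL_R S e i j) (r2 : SPL_R S e j k)
    {β γ : ℝ} (hv : β • e i + γ • e k ≠ 0) : β • e i + γ • e k ∈ S := by
  rcases SPL_symm sS r1 with h | ⟨α, α0, hα⟩
  · exact absurd h.symm hij
  rcases r2 with h | ⟨δ, δ0, hδ⟩
  · exact absurd h hjk
  have hli : LinearIndependent ℝ ![α • e i, e j, δ • e k] := by
    rw [Fintype.linearIndependent_iff]
    intro g hg
    rw [Fin.sum_univ_three] at hg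
    have hg' : (g 0 * α) • e i + g 1 • e j + (g 2 * δ) • e k = 0 := by
      rw [mul_smul, mul_smul]
      exact hg
    have c : ∀ l, e.repr ((g 0 * α) • e i + g 1 • e j + (g 2 * δ) • e k) l = 0 := by
      intro l
      rw [hg', map_zero, Finsupp.zero_apply]
    have c' : ∀ l, (g 0 * α) * (Finsupp.single i (1 : ℝ)) l + g 1 * (Finsupp.single j (1 : ℝ)) l +
        (g 2 * δ) * (Finsupp.single k (1 : ℝ)) l = 0 := by
      intro l
      have := c l
      rw [map_add, map_add, map_smul, map_smul, map_smul, e.repr_self, e.repr_self, e.repr_self, Finsupp.add_apply,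
        Finsupp.add_apply, Finsupp.smul_apply, Finsupp.smul_apply, Finsupp.smul_apply, smul_eq_mul, smul_eq_mul,
        smul_eq_mul] at this
      exact this
    have ci := c' i
    have cj := c' j
    have ck := c' k
    rw [Finsupp.single_eq_same, Finsupp.single_eq_of_ne hij, Finsupp.single_eq_of_ne hik] at ci
    rw [Finsupp.single_eq_same, Finsupp.single_eq_of_ne hij.symm, Finsupp.single_eq_of_ne hjk] at cj
    rw [Finsupp.single_eq_same, Finsupp.single_eq_of_ne hik.symm, Finsupp.single_eq_of_ne hjk.symm] at ck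
    have g0 : g 0 = 0 := by
      have : g 0 * α = 0 := by linarith
      exact (mul_eq_zero.1 this).resolve_right α0
    have g1 : g 1 = 0 := by linarith
    have g2 : g 2 = 0 := by
      have : g 2 * δ = 0 := by linarith
      exact (mul_eq_zero.1 this).resolve_right δ0
    intro l
    fin_cases l
    · exact g0
    · exact g1
    · exact g2
  refine plane_full hd hd2 hS sS cS h1 h2 ((sS _ _ α0).2 (he i)) (he j) ((sS _ _ δ0).2 (he k)) hli
    (by rw [add_comm]; exact hα) hδ _ ?_ hv
  have m1 : β • e i ∈ Submodule.span ℝ {α • e i, e j, δ • e k} := by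
    have : β • e i = (β * α⁻¹) • (α • e i) := by rw [smul_smul, mul_assoc, inv_mul_cancel₀ α0, mul_one]
    rw [this]
    exact Submodule.smul_mem _ _ (Submodule.subset_span (by simp))
  have m2 : γ • e k ∈ Submodule.span ℝ {α • e i, e j, δ • e k} := by
    have : γ • e k = (γ * δ⁻¹) • (δ • e k) := by rw [smul_smul, mul_assoc, inv_mul_cancel₀ δ0, mul_one]
    rw [this]
    exact Submodule.smul_mem _ _ (Submodule.subset_span (by simp))
  exact Submodule.add_mem _ m1 m2

omit [MeasurableSpace V] [BorelSpace V] in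
private theorem SPL_trans {d : ℕ} (hd : Module.finrank ℝ V = d + 1) (hd2 : 2 ≤ d) {S N : Set V} (hS : Submodule.span ℝ S = ⊤)
    (sS : SC S) (cS : IsClosed (S ∪ {0})) (h1 : JJ d S N) (h2 : JJ d N S) {ι : Type*} [Fintype ι] [DecidableEq ι]
    (e : Module.Basis ι ℝ V)
    (he : ∀ i, e i ∈ S) {i j k : ι} (r1 : SPL_R S e i j) (r2 : SPL_R S e j k) : SPL_R S e i k := by
  by_cases hij : i = j
  · rw [hij]; exact r2
  by_cases hjk : j = k
  · rw [← hjk]; exact r1
  by_cases hik : i = k
  · exact Or.inl hik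
  right
  refine ⟨1, one_ne_zero, ?_⟩
  have h3 : (1 : ℝ) • e i + (1 : ℝ) • e k ≠ 0 := by
    intro h
    have h4 : e.repr ((1 : ℝ) • e i + (1 : ℝ) • e k) i = 0 := by rw [h, map_zero, Finsupp.zero_apply]
    rw [one_smul, one_smul, map_add, e.repr_self, e.repr_self, Finsupp.add_apply, Finsupp.single_eq_same,
      Finsupp.single_eq_of_ne hik, add_zero] at h4
    exact one_ne_zero h4
  have h5 := SPL_plane hd hd2 hS sS cS h1 h2 e he hij hjk hik r1 r2 h3
  rwa [one_smul (M := ℝ) (b := e i)] at h5

omit [MeasurableSpace V] [BorelSpace V] in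
private theorem SPL_full {d : ℕ} (hd : Module.finrank ℝ V = d + 1) (hd2 : 2 ≤ d) {S N : Set V} (hS : Submodule.span ℝ S = ⊤)
    (sS : SC S) (cS : IsClosed (S ∪ {0})) (h1 : JJ d S N) (h2 : JJ d N S) {ι : Type*} [Fintype ι] [DecidableEq ι]
    (e : Module.Basis ι ℝ V)
    (he : ∀ i, e i ∈ S) (hR : ∀ i j, SPL_R S e i j) (I : Finset ι) :
    ∀ v : V, v ≠ 0 → (∀ i, i ∉ I → e.repr v i = 0) → v ∈ S := by
  have hcard : Fintype.card ι = d + 1 := by rw [← Module.finrank_eq_card_basis e, hd]
  have third : ∀ i k : ι, ∃ j, i ≠ j ∧ j ≠ k := by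
    intro i k
    by_contra hcon
    push_neg at hcon
    have h3 : (Finset.univ : Finset ι) ⊆ {i, k} := by
      intro j _
      rw [Finset.mem_insert, Finset.mem_singleton]
      by_cases hj : i = j
      · exact Or.inl hj.symm
      · exact Or.inr (hcon j hj)
    have h4 := Finset.card_le_card h3
    have h5 : ({i, k} : Finset ι).card ≤ 2 := Finset.card_le_two
    rw [Finset.card_univ, hcard] at h4
    omega
  induction I using Finset.induction_on with
  | empty =>
    intro v hv h
    exfalso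
    apply hv
    rw [← e.sum_repr v]
    exact Finset.sum_eq_zero fun i _ => by rw [h i (Finset.notMem_empty i), zero_smul]
  | insert k I hk ih =>
    intro v hv h
    obtain ⟨r1, r2⟩ := SPL_rep e v k
    have hsplit : v = (v - (e.repr v k) • e k) + (e.repr v k) • e k := (sub_add_cancel _ _).symm
    by_cases hk0 : e.repr v k = 0
    · refine ih v hv fun i hi => ?_
      by_cases hik : i = k
      · rw [hik, hk0]
      · exact h i (fun hm => hi (Finset.mem_of_mem_insert_of_ne hm hik))
    by_cases hy : v - (e.repr v k) • e k = 0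
    · rw [hsplit, hy, zero_add]
      exact (sS _ _ hk0).2 (he k)
    obtain ⟨y, hyd⟩ : ∃ y, y = v - (e.repr v k) • e k := ⟨_, rfl⟩
    rw [← hyd] at hy r1 r2 hsplit
    have ysupp : ∀ i, i ∉ I → e.repr y i = 0 := by
      intro i hi
      by_cases hik : i = k
      · rw [hik, r1]
      · rw [r2 i hik]
        exact h i (fun hm => hi (Finset.mem_of_mem_insert_of_ne hm hik))
    obtain ⟨i, hi0⟩ : ∃ i, e.repr y i ≠ 0 := by
      by_contra hcon
      push_neg at hcon
      apply hy
      rw [← e.sum_repr y]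
      exact Finset.sum_eq_zero fun i _ => by rw [hcon i, zero_smul]
    have hik : i ≠ k := fun hh => hi0 (by rw [hh, r1])
    by_cases hm : y - (e.repr y i) • e i = 0
    · obtain ⟨j, hj1, hj2⟩ := third i k
      have h3 : v = (e.repr y i) • e i + (e.repr v k) • e k := by
        rw [← sub_eq_zero.1 hm]
        exact hsplit
      rw [h3]
      refine SPL_plane hd hd2 hS sS cS h1 h2 e he hj1 hj2 hik (hR i j) (hR j k) ?_
      rw [← h3]
      exact hv
    · have hyS := ih y hy ysupp
      obtain ⟨q1, q2⟩ := SPL_rep e y i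
      have hI : i ∈ I := by
        by_contra hcon
        exact hi0 (ysupp i hcon)
      obtain ⟨l, hl0⟩ : ∃ l, e.repr (y - (e.repr y i) • e i) l ≠ 0 := by
        by_contra hcon
        push_neg at hcon
        apply hm
        rw [← e.sum_repr (y - (e.repr y i) • e i)]
        exact Finset.sum_eq_zero fun i _ => by rw [hcon i, zero_smul]
      have hli : l ≠ i := fun hh => hl0 (by rw [hh, q1])
      rw [q2 l hli] at hl0
      have hlk : l ≠ k := fun hh => hl0 (by rw [hh, r1])
      have hyi0 : y + e i ≠ 0 := by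
        intro hh
        have h4 : e.repr (y + e i) l = 0 := by rw [hh, map_zero, Finsupp.zero_apply]
        rw [map_add, e.repr_self, Finsupp.add_apply, Finsupp.single_eq_of_ne hli, add_zero] at h4
        exact hl0 h4
      have hyi : y + e i ∈ S := by
        refine ih _ hyi0 fun m hmI => ?_
        have hmi : m ≠ i := fun hh => hmI (hh ▸ hI)
        rw [map_add, e.repr_self, Finsupp.add_apply, Finsupp.single_eq_of_ne hmi, add_zero]
        exact ysupp m hmI
      rcases hR i k with h4 | ⟨α, α0, hα⟩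
      · exact absurd h4 hik
      have hlin : LinearIndependent ℝ ![y, e i, α • e k] := by
        rw [Fintype.linearIndependent_iff]
        intro g hg
        rw [Fin.sum_univ_three] at hg
        have hg' : g 0 • y + g 1 • e i + (g 2 * α) • e k = 0 := by
          rw [mul_smul]
          exact hg
        have c' : ∀ m, g 0 * e.repr y m + g 1 * (Finsupp.single i (1 : ℝ)) m +
            (g 2 * α) * (Finsupp.single k (1 : ℝ)) m = 0 := by
          intro m
          have h5 : e.repr (g 0 • y + g 1 • e i + (g 2 * α) • e k) m = 0 := by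
            rw [hg', map_zero, Finsupp.zero_apply]
          rw [map_add, map_add, map_smul, map_smul, map_smul, e.repr_self, e.repr_self, Finsupp.add_apply,
            Finsupp.add_apply, Finsupp.smul_apply, Finsupp.smul_apply, Finsupp.smul_apply, smul_eq_mul, smul_eq_mul,
            smul_eq_mul] at h5
          exact h5
        have cl := c' l
        have ci := c' i
        have ck := c' k
        rw [Finsupp.single_eq_of_ne hli, Finsupp.single_eq_of_ne hlk, mul_zero, mul_zero, add_zero, add_zero] at cl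
        have g0 : g 0 = 0 := (mul_eq_zero.1 cl).resolve_right hl0
        rw [Finsupp.single_eq_same, Finsupp.single_eq_of_ne hik, g0] at ci
        rw [Finsupp.single_eq_same, Finsupp.single_eq_of_ne hik.symm, g0] at ck
        have g1 : g 1 = 0 := by linarith
        have g2 : g 2 = 0 := by
          have : g 2 * α = 0 := by linarith
          exact (mul_eq_zero.1 this).resolve_right α0
        intro m
        fin_cases m
        · exact g0
        · exact g1
        · exact g2
      refine plane_full hd hd2 hS sS cS h1 h2 hyS (he i) ((sS _ _ α0).2 (he k)) hlin hyi hα _ ?_ hv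
      have m1 : y ∈ Submodule.span ℝ {y, e i, α • e k} := Submodule.subset_span (by simp)
      have m2 : (e.repr v k) • e k ∈ Submodule.span ℝ {y, e i, α • e k} := by
        have : (e.repr v k) • e k = (e.repr v k * α⁻¹) • (α • e k) := by
          rw [smul_smul, mul_assoc, inv_mul_cancel₀ α0, mul_one]
        rw [this]
        exact Submodule.smul_mem _ _ (Submodule.subset_span (by simp))
      rw [hsplit]
      exact Submodule.add_mem _ m1 m2

omit [MeasurableSpace V] [BorelSpace V] in
theorem full_or_split {d : ℕ} (hd : Module.finrank ℝ V = d + 1) (hd2 : 2 ≤ d) {S N : Set V} (hS : Submodule.span ℝ S = ⊤)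
    (sS : SC S) (cS : IsClosed (S ∪ {0})) (h1 : JJ d S N) (h2 : JJ d N S) :
    (∀ v : V, v ≠ 0 → v ∈ S) ∨
      ∃ A B : Submodule ℝ V, A ≠ ⊥ ∧ B ≠ ⊥ ∧ IsCompl A B ∧ ∀ x ∈ S, x ∈ A ∨ x ∈ B := by
  classical
  have he : ∀ i, Module.Basis.ofSpan (hS.ge : ⊤ ≤ Submodule.span ℝ S) i ∈ S := fun i =>
    Module.Basis.ofSpan_subset hS.ge ⟨i, rfl⟩
  obtain ⟨e, hed⟩ : ∃ e, e = Module.Basis.ofSpan (hS.ge : ⊤ ≤ Submodule.span ℝ S) := ⟨_, rfl⟩
  rw [← hed] at he
  haveI : Fintype ↑((linearIndepOn_empty ℝ (id : V → V)).extend (empty_subset S)) :=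
    FiniteDimensional.fintypeBasisIndex e
  by_cases hR : ∀ i j, SPL_R S e i j
  · left
    intro v hv
    exact SPL_full hd hd2 hS sS cS h1 h2 e he hR Finset.univ v hv (fun i hi => absurd (Finset.mem_univ i) hi)
  · right
    push_neg at hR
    obtain ⟨i0, j0, hij⟩ := hR
    refine ⟨Submodule.span ℝ (e '' {i | SPL_R S e i0 i}), Submodule.span ℝ (e '' {i | ¬ SPL_R S e i0 i}), ?_, ?_, ?_, ?_⟩
    · intro h
      have h3 : e i0 ∈ Submodule.span ℝ (e '' {i | SPL_R S e i0 i}) := Submodule.subset_span ⟨i0, Or.inl rfl, rfl⟩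
      rw [h, Submodule.mem_bot] at h3
      exact e.ne_zero i0 h3
    · intro h
      have h3 : e j0 ∈ Submodule.span ℝ (e '' {i | ¬ SPL_R S e i0 i}) := Submodule.subset_span ⟨j0, hij, rfl⟩
      rw [h, Submodule.mem_bot] at h3
      exact e.ne_zero j0 h3
    · constructor
      · refine e.linearIndependent.disjoint_span_image ?_
        rw [Set.disjoint_left]
        intro i hi hi'
        exact hi' hi
      · rw [codisjoint_iff, ← Submodule.span_union, ← Set.image_union]
        have h3 : {i | SPL_R S e i0 i} ∪ {i | ¬ SPL_R S e i0 i} = Set.univ := Set.union_compl_self _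
        rw [h3, Set.image_univ, e.span_eq]
    · intro x hx
      by_cases h3 : ∃ i, e.repr x i ≠ 0 ∧ SPL_R S e i0 i
      · obtain ⟨i, hi, hi2⟩ := h3
        left
        rw [e.mem_span_image]
        intro j hj
        rw [Finset.mem_coe, Finsupp.mem_support_iff] at hj
        exact SPL_trans hd hd2 hS sS cS h1 h2 e he hi2 (SPL_pair hd hd2 hS sS h1 h2 e he hx hi hj)
      · right
        rw [e.mem_span_image]
        intro j hj
        rw [Finset.mem_coe, Finsupp.mem_support_iff] at hj
        exact fun h4 => h3 ⟨j, hj, h4⟩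

end Pool.Agent.NSB
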