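import Pool.Agent.NSB.BOD
import Pool.Agent.NSB.JO
import Pool.Agent.NSB.SPL
import Pool.Agent.NSB.LUN
import Pool.Agent.NSB.PS
import Pool.Agent.NSB.SOL
import Pool.Agent.NSB.PRO

/-! Module NSB-PB: part (b), forward direction: a non-smooth solution is a direct sum of two solutions. -/

set_option autoImplicit false

namespace Pool.Agent.NSB

open MeasureTheory ProbabilityTheory Set Filter Topology Metric
open Pool.Agent.Helper82.Proj1 (supp shadow kappa)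
open Pool.Agent.HP89
open scoped RealInnerProductSpace ENNReal Pointwise

variable {V : Type*} [NormedAddCommGroup V] [InnerProductSpace ℝ V] [FiniteDimensional ℝ V]
  [MeasurableSpace V] [BorelSpace V]

theorem split_sol {W₁ W₂ : Submodule ℝ V} (hW : IsCompl W₁ W₂) (h1 : W₁ ≠ ⊥) (h2 : W₂ ≠ ⊥) {μ ν : Measure V}
    (h : Par (Module.finrank ℝ V - 1) μ ν) (hν : ∀ᵐ x ∂ν, x ∈ W₁ ∨ x ∈ W₂) (hμ : ∀ᵐ x ∂μ, x ∈ W₂ᗮ ∨ x ∈ W₁ᗮ)
    {K L : Set V} (hK : CC K) {x1 : V} (hs : ∀ u, supp K u = ⟪x1, u⟫ + (Jc ν u).toReal) (hL : CC L)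
    (hs' : ∀ u, supp L u = (Jc μ u).toReal) :
    ∃ (K₁ : Set W₁) (K₂ : Set W₂), IsSol K₁ ∧ IsSol K₂ ∧ K = {z | ∃ y ∈ K₁, ∃ y' ∈ K₂, z = x1 + (y : V) + (y' : V)} := by
  have hd1 : 1 ≤ Module.finrank ℝ W₁ := Submodule.one_le_finrank_iff.2 h1
  have hd2 : 1 ≤ Module.finrank ℝ W₂ := Submodule.one_le_finrank_iff.2 h2
  obtain ⟨K₁, hK₁, hs₁⟩ := proj_zon hW h.i2 hν hK hs
  obtain ⟨K₂, hK₂, hs₂⟩ := proj_zon hW.symm h.i2 (hν.mono fun x hx => hx.symm) hK hs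
  refine ⟨K₁, K₂, ?_, ?_, sum_supp hW h.i2 hν hK hs hK₁ hK₂ hs₁ hs₂⟩
  · exact sol_of_par hd1 (par_sub hW h1 h2 h hν hμ) hK₁ hs₁ (hL.shadow W₁) (shadow_supp W₁ hL hs')
  · exact sol_of_par hd2 (par_sub hW.symm h2 h1 h (hν.mono fun x hx => hx.symm) (hμ.mono fun x hx => hx.symm))
      hK₂ hs₂ (hL.shadow W₂) (shadow_supp W₂ hL hs')

theorem partB_fwd (hd : 3 ≤ Module.finrank ℝ V) {K L M : Set V} (hK : CC K) (hL : CC L) (hM : CC M)
    (hi : (interior K).Nonempty) (h1 : IsPB (Module.finrank ℝ V - 1) K L) (h2 : IsPB (Module.finrank ℝ V - 1) L M)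
    {c : ℝ} (hc : 0 < c) {x0 : V} (hom : M = (fun y => c • y + x0) '' K) (hns : ¬ (IsSmooth K ∧ IsSmooth L)) :
    ∃ W₁ W₂ : Submodule ℝ V, W₁ ≠ ⊥ ∧ W₂ ≠ ⊥ ∧ IsCompl W₁ W₂ ∧ ∃ (K₁ : Set W₁) (K₂ : Set W₂) (x : V),
      IsSol K₁ ∧ IsSol K₂ ∧ K = {z | ∃ y ∈ K₁, ∃ y' ∈ K₂, z = x + (y : V) + (y' : V)} := by
  obtain ⟨μ, ν, x1, h, hs, hs'⟩ := bodies (by omega) hK hL hM hi h1 h2 hc hom
  obtain ⟨d, hd'⟩ : ∃ d, Module.finrank ℝ V = d + 1 := ⟨Module.finrank ℝ V - 1, by omega⟩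
  have hdd : Module.finrank ℝ V - 1 = d := by omega
  have e1 := Spt_JJ (by omega) h
  have e2 := Spt_JJ (by omega) h.symm
  rw [hdd] at e1 e2
  have hkey : ∃ W₁ W₂ : Submodule ℝ V, W₁ ≠ ⊥ ∧ W₂ ≠ ⊥ ∧ IsCompl W₁ W₂ ∧ (∀ᵐ x ∂ν, x ∈ W₁ ∨ x ∈ W₂) ∧
      ∀ᵐ x ∂μ, x ∈ W₂ᗮ ∨ x ∈ W₁ᗮ := by
    rcases full_or_split hd' (by omega) (Spt_span h.p1) (Spt_SC μ) (Spt_closed μ) e1 e2 with f1 | ⟨A, B, hA, hB, hAB, hS⟩
    · rcases full_or_split hd' (by omega) (Spt_span h.p2) (Spt_SC ν) (Spt_closed ν) e2 e1 with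
        f2 | ⟨A, B, hA, hB, hAB, hS⟩
      · exfalso
        refine hns ⟨smooth_of_full hK h.i2 h.p2 hs f2, smooth_of_full hL h.i1 h.p1 (x1 := 0) (fun u => ?_) f1⟩
        rw [hs' u, inner_zero_left, zero_add]
      · have hν : ∀ᵐ x ∂ν, x ∈ A ∨ x ∈ B := by
          filter_upwards [Spt_ae ν] with x hx
          rcases hx with hx | hx
          · exact Or.inl (hx ▸ A.zero_mem)
          · exact hS x hx
        exact ⟨A, B, hA, hB, hAB, hν, (conc (by omega) h.symm hAB hν).mono fun x hx => hx.symm⟩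
    · have hμ : ∀ᵐ x ∂μ, x ∈ A ∨ x ∈ B := by
        filter_upwards [Spt_ae μ] with x hx
        rcases hx with hx | hx
        · exact Or.inl (hx ▸ A.zero_mem)
        · exact hS x hx
      have hc := conc (by omega) h hAB hμ
      have hC := isCompl_orth hAB
      refine ⟨Aᗮ, Bᗮ, ?_, ?_, hC, hc, ?_⟩
      · intro h0
        have := hC.sup_eq_top
        rw [h0, bot_sup_eq] at this
        have hB0 : B = ⊥ := by
          rw [← Submodule.orthogonal_orthogonal B, this, Submodule.top_orthogonal_eq_bot]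
        exact hB hB0
      · intro h0
        have := hC.sup_eq_top
        rw [h0, sup_bot_eq] at this
        have hA0 : A = ⊥ := by
          rw [← Submodule.orthogonal_orthogonal A, this, Submodule.top_orthogonal_eq_bot]
        exact hA hA0
      · rw [Submodule.orthogonal_orthogonal, Submodule.orthogonal_orthogonal]
        exact hμ.mono fun x hx => hx.symm
  obtain ⟨W₁, W₂, hW1, hW2, hW, hν, hμ⟩ := hkey
  obtain ⟨K₁, K₂, hs1, hs2, hsum⟩ := split_sol hW hW1 hW2 h hν hμ hK hs hL hs'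
  exact ⟨W₁, W₂, hW1, hW2, hW, K₁, K₂, x1, hs1, hs2, hsum⟩

end Pool.Agent.NSB
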