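import Pool.Agent.NSB.PA
import Pool.Agent.NSB.PB
import Pool.Agent.NSB.CB
import Pool.Agent.NSB.NS

/-! Module NSB-ALL: Theorem S. -/

set_option autoImplicit false

namespace Pool.Agent.NSB

open MeasureTheory ProbabilityTheory Set Filter Topology Metric
open Pool.Agent.Helper82.Proj1 (supp shadow kappa)
open Pool.Agent.HP89
open scoped RealInnerProductSpace ENNReal Pointwise

variable {V : Type*} [NormedAddCommGroup V] [InnerProductSpace ℝ V] [FiniteDimensional ℝ V]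
  [MeasurableSpace V] [BorelSpace V]

/-- `x + K₁ + K₂`. -/
def sumSet {W₁ W₂ : Submodule ℝ V} (x : V) (K₁ : Set W₁) (K₂ : Set W₂) : Set V :=
  {z | ∃ y ∈ K₁, ∃ y' ∈ K₂, z = x + (y : V) + (y' : V)}

/-- `K = x + K₁ + K₂` is a direct sum of two solutions (in complementary, not necessarily orthogonal, subspaces `≠ 0`). -/
def IsDirectSum (K : Set V) : Prop :=
  ∃ W₁ W₂ : Submodule ℝ V, W₁ ≠ ⊥ ∧ W₂ ≠ ⊥ ∧ IsCompl W₁ W₂ ∧ ∃ (x : V) (K₁ : Set W₁) (K₂ : Set W₂),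
    IsSol K₁ ∧ IsSol K₂ ∧ K = sumSet x K₁ K₂

theorem partB (hd : 3 ≤ Module.finrank ℝ V) {K : Set V} (hK : CC K) (hi : (interior K).Nonempty) :
    (∃ L M : Set V, CC L ∧ CC M ∧ IsPB (Module.finrank ℝ V - 1) K L ∧ IsPB (Module.finrank ℝ V - 1) L M ∧
      (∃ c : ℝ, 0 < c ∧ ∃ x : V, M = (fun y => c • y + x) '' K) ∧ ¬ (IsSmooth K ∧ IsSmooth L)) ↔ IsDirectSum K := by
  constructor
  · rintro ⟨L, M, hL, hM, h1, h2, ⟨c, hc, x, hx⟩, hns⟩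
    obtain ⟨W₁, W₂, hW1, hW2, hW, K₁, K₂, x, s1, s2, e⟩ := partB_fwd hd hK hL hM hi h1 h2 hc hx hns
    exact ⟨W₁, W₂, hW1, hW2, hW, x, K₁, K₂, s1, s2, e⟩
  · rintro ⟨W₁, W₂, hW1, hW2, hW, x, K₁, K₂, s1, s2, e⟩
    have hs : IsSol K := by
      rw [e]
      exact partB_bwd hW hW1 hW2 s1 s2 x
    obtain ⟨-, -, L, M, hL, hM, h1, h2, h3⟩ := hs
    refine ⟨L, M, hL, hM, h1, h2, h3, fun h => ?_⟩
    have h4 := h.1
    rw [e] at h4
    exact sum_not_smooth hW hW1 hW2 s1.1 s2.1 x h4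

end Pool.Agent.NSB
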