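import Pool.Agent.NSB.Defs
import Pool.Agent.HP89.A2a

/-! Module NSB-BIN: binomial formula for iterated integrals.

Induction on the number of integrations. The integral with respect to `ρ₂` is moved inside by Tonelli's theorem and
the permutation invariance of the integrand (`bin_swap`); the sums are combined with Pascal's rule. -/

set_option autoImplicit false

namespace Pool.Agent.NSB

open MeasureTheory ProbabilityTheory Set Filter Topology Metric
open Pool.Agent.Helper82.Proj1 (supp shadow kappa)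
open Pool.Agent.HP89
open scoped RealInnerProductSpace ENNReal Pointwise

variable {V : Type*} [NormedAddCommGroup V] [InnerProductSpace ℝ V] [FiniteDimensional ℝ V]
  [MeasurableSpace V] [BorelSpace V]

private theorem bin_meas {H : List V → ℝ≥0∞} (hH : LMeas H) (Y : List V) :
    Measurable (Function.uncurry (fun x y : V => H (y :: x :: Y))) := by
  have h1 : Function.uncurry (fun x y : V => H (y :: x :: Y)) =
      (fun X : Fin 2 → V => H (List.ofFn X ++ Y)) ∘ (fun p : V × V => ![p.2, p.1]) := by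
    funext p
    simp [Function.uncurry]
  rw [h1]
  refine (hH.app 2 Y).comp (measurable_pi_lambda _ fun i => ?_)
  refine Fin.cases ?_ (fun i => ?_) i
  · exact measurable_snd
  · refine Fin.cases ?_ (fun i => i.elim0) i
    exact measurable_fst

private theorem bin_swap (ρ₁ ρ₂ : Measure V) [SFinite ρ₁] [SFinite ρ₂] {G : List V → ℝ≥0∞} (hG : LMeas G)
    (hp : ∀ Z Z' : List V, Z.Perm Z' → G Z = G Z') (k : ℕ) (Y : List V) :
    ∫⁻ x, iter ρ₁ k G (x :: Y) ∂ρ₂ = iter ρ₁ k (fun Z => ∫⁻ x, G (x :: Z) ∂ρ₂) Y := by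
  induction k generalizing Y with
  | zero => rfl
  | succ k ih =>
    simp only [iter_succ]
    rw [lintegral_lintegral_swap (bin_meas (hG.iter ρ₁ k) Y).aemeasurable]
    refine lintegral_congr fun y => ?_
    rw [← ih (y :: Y)]
    exact lintegral_congr fun x => iter_perm ρ₁ k hp (List.Perm.swap x y Y)

theorem iter_binom (ρ₁ ρ₂ : Measure V) [SFinite ρ₁] [SFinite ρ₂] {F : List V → ℝ≥0∞} (hF : LMeas F)
    (hp : ∀ Z Z' : List V, Z.Perm Z' → F Z = F Z') (n : ℕ) (Y : List V) :
    iter (ρ₁ + ρ₂) n F Y =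
      ∑ k ∈ Finset.range (n + 1), (n.choose k : ℝ≥0∞) * iter ρ₁ k (iter ρ₂ (n - k) F) Y := by
  induction n generalizing Y with
  | zero =>
    rw [zero_add, Finset.sum_range_one, Nat.choose_zero_right, Nat.cast_one, one_mul]
    rfl
  | succ n ih =>
    have hm : ∀ k, Measurable (fun x : V => iter ρ₁ k (iter ρ₂ (n - k) F) (x :: Y)) := fun k =>
      ((hF.iter ρ₂ (n - k)).iter ρ₁ k).cons Y
    have h1 : ∀ ρ : Measure V, ∫⁻ x, iter (ρ₁ + ρ₂) n F (x :: Y) ∂ρ =
        ∑ k ∈ Finset.range (n + 1), (n.choose k : ℝ≥0∞) *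
          ∫⁻ x, iter ρ₁ k (iter ρ₂ (n - k) F) (x :: Y) ∂ρ := by
      intro ρ
      rw [lintegral_congr fun x => ih (x :: Y), lintegral_finsetSum _ fun k _ => (hm k).const_mul _]
      exact Finset.sum_congr rfl fun k _ => lintegral_const_mul _ (hm k)
    have h2 := Finset.sum_choose_succ_mul (fun a b => iter ρ₁ a (iter ρ₂ b F) Y) n
    rw [show n + 1 + 1 = n + 2 from rfl, h2, iter_succ, lintegral_add_measure, h1 ρ₁, h1 ρ₂, add_comm]
    congr 1
    refine Finset.sum_congr rfl fun k hk => ?_
    have hk' : n + 1 - k = (n - k) + 1 := by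
      have := Finset.mem_range.1 hk
      omega
    rw [hk', bin_swap ρ₁ ρ₂ (hF.iter ρ₂ (n - k)) (fun Z Z' h => iter_perm ρ₂ (n - k) hp h) k Y]
    rfl

end Pool.Agent.NSB
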