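import Pool.Agent.HP89.G9Defs

/-!
# Project NSB (MP_33e5ad_gt): non-smooth bodies homothetic to `Π_j² K`: definitions

`V` is a Euclidean space of dimension `d = finrank ℝ V`; `iter`, `ew`, `wn`, `res` are those of HP89: `wn X` is the volume of the
parallelepiped spanned by the list `X`, `iter μ l ew [u] = ∫ ... ∫ wn (x_l :: ... :: x_1 :: [u]) dμ ... dμ`.
-/

set_option autoImplicit false

namespace Pool.Agent.NSB

open MeasureTheory ProbabilityTheory Set Filter Topology Metric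
open Pool.Agent.Helper82.Proj1 (supp shadow kappa)
open Pool.Agent.HP89
open scoped RealInnerProductSpace ENNReal Pointwise

section lin
variable {V : Type*} [NormedAddCommGroup V] [InnerProductSpace ℝ V]

/-- `A` is a symmetric cone (`0` may or may not belong to it). -/
def SC (A : Set V) : Prop := ∀ x : V, ∀ t : ℝ, t ≠ 0 → (t • x ∈ A ↔ x ∈ A)

/-- `K` is smooth: at every point of `K` there is at most one unit outer normal vector. -/
def IsSmooth (K : Set V) : Prop :=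
  ∀ x ∈ K, ∀ u v : V, ‖u‖ = 1 → ‖v‖ = 1 → ⟪x, u⟫ = supp K u → ⟪x, v⟫ = supp K v → u = v

/-- The nonzero vectors orthogonal to `j` linearly independent vectors of `S` belong to `N`. -/
def JJ (j : ℕ) (S N : Set V) : Prop :=
  ∀ a : Fin j → V, (∀ i, a i ∈ S) → LinearIndependent ℝ a → ∀ v : V, v ≠ 0 → (∀ i, ⟪a i, v⟫ = 0) → v ∈ N

end lin

section meas
variable {V : Type*} [NormedAddCommGroup V] [InnerProductSpace ℝ V] [MeasurableSpace V]

/-- the cosine transform. -/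
noncomputable def Jc (μ : Measure V) (u : V) : ℝ≥0∞ := ∫⁻ x, ENNReal.ofReal |⟪x, u⟫| ∂μ

/-- the support of `μ`, as a symmetric cone without `0`. -/
def Spt (μ : Measure V) : Set V := {v | v ≠ 0 ∧ ∀ O : Set V, IsOpen O → SC O → v ∈ O → μ O ≠ 0}

end meas

section par
variable {V : Type*} [NormedAddCommGroup V] [InnerProductSpace ℝ V] [FiniteDimensional ℝ V]
  [MeasurableSpace V] [BorelSpace V]

/-- The generating measures `ν` of `K` and `μ` of `L = Π_j K` (up to translations and factors). -/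
structure Par (j : ℕ) (μ ν : Measure V) : Prop where
  f1 : IsFiniteMeasure μ
  f2 : IsFiniteMeasure ν
  i1 : Integrable (fun x => ‖x‖) μ
  i2 : Integrable (fun x => ‖x‖) ν
  c1 : ∃ c : ℝ≥0∞, c ≠ 0 ∧ c ≠ ⊤ ∧ ∀ u, Jc ν u = c * iter μ j ew [u]
  c2 : ∃ c : ℝ≥0∞, c ≠ 0 ∧ c ≠ ⊤ ∧ ∀ u, Jc μ u = c * iter ν j ew [u]
  p1 : ∀ u : V, u ≠ 0 → Jc μ u ≠ 0
  p2 : ∀ u : V, u ≠ 0 → Jc ν u ≠ 0

omit [BorelSpace V] [FiniteDimensional ℝ V] in
theorem Par.symm {j : ℕ} {μ ν : Measure V} (h : Par j μ ν) : Par j ν μ :=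
  ⟨h.f2, h.f1, h.i2, h.i1, h.c2, h.c1, h.p2, h.p1⟩

/-- `K` is a convex body homothetic to `Π (Π K)`, `Π` the (classical) projection body, `j = d - 1`. -/
def IsSol (K : Set V) : Prop :=
  CC K ∧ (interior K).Nonempty ∧ ∃ L M : Set V, CC L ∧ CC M ∧ IsPB (Module.finrank ℝ V - 1) K L ∧
    IsPB (Module.finrank ℝ V - 1) L M ∧ ∃ c : ℝ, 0 < c ∧ ∃ x : V, M = (fun y => c • y + x) '' K

end par

end Pool.Agent.NSB
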