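import Pool.Agent.NSB.ALL
import Pool.Agent.FAC3.ALL

/-!
# Project NSB: the definitions used in the statement of the hand-in
-/

set_option autoImplicit false

namespace Pool.Agent.NSB

open MeasureTheory Set
open Pool.Agent.Helper82.Proj1 (supp Homothetic)
open Pool.Agent.HP89 (CC IsPB)
open scoped RealInnerProductSpace

/-- A compact convex set in `ℝ^d`. -/
abbrev Body (d : ℕ) : Type := ConvexBody (EuclideanSpace ℝ (Fin d))

/-- `K` has interior points. -/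
def HasInt {d : ℕ} (K : Body d) : Prop := (interior (K : Set (EuclideanSpace ℝ (Fin d)))).Nonempty

/-- `L` is the `j`-th projection body `Π_j K` of `K`. -/
def IsPi {d : ℕ} (j : ℕ) (K L : Body d) : Prop :=
  IsPB j (K : Set (EuclideanSpace ℝ (Fin d))) (L : Set (EuclideanSpace ℝ (Fin d)))

/-- `L = Π_j K`, and `Π_j L = Π_j² K` is homothetic to `K`. -/
def Sol2 {d : ℕ} (j : ℕ) (K L : Body d) : Prop := IsPi j K L ∧ ∃ M : Body d, IsPi j L M ∧ Homothetic M K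

/-- `L = Π_j K`, and `L` is homothetic to `K`. -/
def Sol1 {d : ℕ} (j : ℕ) (K L : Body d) : Prop := IsPi j K L ∧ Homothetic L K

/-- `K` is smooth: at every point of `K` there is at most one unit outer normal vector. -/
def Smooth {d : ℕ} (K : Body d) : Prop := IsSmooth (K : Set (EuclideanSpace ℝ (Fin d)))

/-- `K ⊆ ℝ³` is smooth and strictly convex. -/
def Regular (K : Body 3) : Prop := Smooth K ∧ StrictConvex ℝ (K : Set (EuclideanSpace ℝ (Fin 3)))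

/-- `K` is a direct sum `x + K₁ + K₂` of two solutions `K_i ⊆ W_i`, `W₁ ⊕ W₂ = ℝ^d`. -/
def DirectSum {d : ℕ} (K : Body d) : Prop := IsDirectSum (K : Set (EuclideanSpace ℝ (Fin d)))

/-- `K` is a cylinder `x + M + [-q, q]`, `M = -M` contained in a plane not parallel to `q`. -/
def Cylinder (K : Body 3) : Prop := FAC3.IsCylinder (K : Set (EuclideanSpace ℝ (Fin 3)))

/-- The volume (in `p^⊥`) of the orthogonal projection of `K` to `p^⊥`. -/
noncomputable def shVol {V : Type*} [NormedAddCommGroup V] [InnerProductSpace ℝ V] [FiniteDimensional ℝ V]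
    [MeasurableSpace V] [BorelSpace V] (K : Set V) (p : V) : ℝ :=
  (volume (Pool.Agent.Helper82.Proj1.shadow K (ℝ ∙ p)ᗮ)).toReal

/-- `K` is a right cylinder `x + M + [-s p, s p]`, `‖p‖ = 1`, `s > 0`, over a compact convex set `M ⊆ p^⊥` invariant under the
rotation `y ↦ p × y` of `p^⊥` by a right angle, and the area of `K | p^⊥` (a translate of `M`) is `4 s²`. -/
def SqCylinder (K : Body 3) : Prop :=
  ∃ (x p : EuclideanSpace ℝ (Fin 3)) (s : ℝ) (M : Set (EuclideanSpace ℝ (Fin 3))), ‖p‖ = 1 ∧ 0 < s ∧ IsCompact M ∧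
    Convex ℝ M ∧ M.Nonempty ∧ (∀ y ∈ M, ⟪p, y⟫ = 0) ∧ (∀ y ∈ M, FAC3.cr p y ∈ M) ∧
    (K : Set (EuclideanSpace ℝ (Fin 3))) = {z | ∃ y ∈ M, ∃ t : ℝ, |t| ≤ s ∧ z = x + y + t • p} ∧
    shVol (K : Set (EuclideanSpace ℝ (Fin 3))) p = 4 * s ^ 2

private theorem cc {d : ℕ} (K : Body d) : CC (K : Set (EuclideanSpace ℝ (Fin d))) := ⟨K.isCompact, K.convex, K.nonempty⟩

private theorem fr (d : ℕ) : Module.finrank ℝ (EuclideanSpace ℝ (Fin d)) = d := finrank_euclideanSpace_fin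

/-- **Theorem S.** -/
theorem finalA (d j : ℕ) (hd : 3 ≤ d) (hj : 1 ≤ j) (hjd : j < d) (K : Body d) (hK : HasInt K) :
    (∃ L, Sol2 j K L ∧ ¬ (Smooth K ∧ Smooth L)) ↔ (j = d - 1 ∧ DirectSum K) := by
  by_cases hj2 : j + 2 ≤ d
  · constructor
    · rintro ⟨L, ⟨p1, M, p2, c, hc, x, hx⟩, hn⟩
      exact absurd (partA hj (by rw [fr]; exact hj2) (cc K) (cc L) (cc M) hK p1 p2 hc hx) hn
    · rintro ⟨h, -⟩
      omega
  · obtain rfl : j = d - 1 := by omega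
    have h := partB (V := EuclideanSpace ℝ (Fin d)) (by rw [fr]; exact hd) (cc K) hK
    rw [fr] at h
    constructor
    · rintro ⟨L, ⟨p1, M, p2, hM⟩, hn⟩
      exact ⟨rfl, h.1 ⟨L, M, cc L, cc M, p1, p2, hM, hn⟩⟩
    · rintro ⟨-, hs⟩
      obtain ⟨L, M, hL, hM, p1, p2, hom, hn⟩ := h.2 hs
      exact ⟨⟨L, hL.convex, hL.compact, hL.nonempty⟩, ⟨p1, ⟨M, hM.convex, hM.compact, hM.nonempty⟩, p2, hom⟩, hn⟩

/-- **Theorem F.** -/
theorem finalB (K : Body 3) (hK : HasInt K) :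
    ((∃ L, Sol2 2 K L ∧ ¬ (Regular K ∧ Regular L)) ↔ Cylinder K) ∧
    ((∃ L, Sol1 2 K L ∧ ¬ Regular K) ↔ SqCylinder K) := by
  refine ⟨?_, ?_⟩
  · have h := (FAC3.main_all K hK).1
    constructor
    · rintro ⟨L, ⟨p1, M, p2, hM⟩, hn⟩
      exact h.1 ⟨L, M, p1, p2, hM, fun g => hn ⟨⟨g.2.1, g.1⟩, g.2.2.2, g.2.2.1⟩⟩
    · intro hs
      obtain ⟨L, M, p1, p2, hM, hn⟩ := h.2 hs
      exact ⟨L, ⟨p1, M, p2, hM⟩, fun g => hn ⟨g.1.2, g.1.1, g.2.2, g.2.1⟩⟩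
  · have h := (FAC3.main_all K hK).2
    constructor
    · rintro ⟨L, ⟨p1, hM⟩, hn⟩
      exact h.1 ⟨L, p1, hM, fun g => hn ⟨g.2, g.1⟩⟩
    · intro hs
      obtain ⟨L, p1, hM, hn⟩ := h.2 hs
      exact ⟨L, ⟨p1, hM⟩, fun g => hn ⟨g.2, g.1⟩⟩

end Pool.Agent.NSB
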