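import Pool.Agent.NSB.Defs
import Pool.Agent.HP89.A2a
import Pool.Agent.HP89.A2b

/-! Module NSB-MAP: iterated integrals of image measures, of concatenations and of restrictions. -/

set_option autoImplicit false

namespace Pool.Agent.NSB

open MeasureTheory ProbabilityTheory Set Filter Topology Metric
open Pool.Agent.Helper82.Proj1 (supp shadow kappa)
open Pool.Agent.HP89
open scoped RealInnerProductSpace ENNReal Pointwise

variable {V : Type*} [NormedAddCommGroup V] [InnerProductSpace ℝ V] [FiniteDimensional ℝ V]
  [MeasurableSpace V] [BorelSpace V]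

theorem iter_map {W : Type*} [NormedAddCommGroup W] [InnerProductSpace ℝ W] [FiniteDimensional ℝ W] [MeasurableSpace W]
    [BorelSpace W] {f : V → W} (hf : Measurable f) (ρ : Measure V) [SFinite ρ] {F : List W → ℝ≥0∞} (hF : LMeas F) (l : ℕ)
    (Y : List V) : iter (ρ.map f) l F (Y.map f) = iter ρ l (fun Z => F (Z.map f)) Y := by
  induction l generalizing Y with
  | zero => rfl
  | succ l ih =>
    rw [iter_succ, iter_succ, lintegral_map ((hF.iter _ l).cons _) hf]
    refine lintegral_congr fun x => ?_
    rw [← List.map_cons, ih]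

private theorem iter_app' (μ : Measure V) (l : ℕ) (F : List V → ℝ≥0∞) (X Y : List V) :
    iter μ l F (X ++ Y) = iter μ l (fun Z => F (Z ++ Y)) X := by
  induction l generalizing X with
  | zero => rfl
  | succ l ih =>
    rw [iter_succ, iter_succ]
    refine lintegral_congr fun x => ?_
    rw [← List.cons_append, ih]

theorem iter_app (μ : Measure V) (l : ℕ) (F : List V → ℝ≥0∞) (Y : List V) :
    iter μ l F Y = iter μ l (fun Z => F (Z ++ Y)) [] :=
  iter_app' μ l F [] Y

private theorem iter_zero_fun (μ : Measure V) (l : ℕ) (Y : List V) : iter μ l (fun _ => 0) Y = 0 := by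
  induction l generalizing Y with
  | zero => rfl
  | succ l ih =>
    rw [iter_succ]
    simp [ih]

theorem iter_restrict (μ : Measure V) [SFinite μ] (l : ℕ) (F : List V → ℝ≥0∞) {A : Set V} (hA : MeasurableSet A)
    (hz : ∀ᵐ x ∂μ, x ∉ A → ∀ X Y : List V, F (X ++ x :: Y) = 0) (Y : List V) :
    iter μ l F Y = iter (μ.restrict A) l F Y := by
  induction l generalizing Y with
  | zero => rfl
  | succ l ih =>
    rw [iter_succ, iter_succ, ← lintegral_add_compl _ hA]
    have h1 : ∫⁻ x in Aᶜ, iter μ l F (x :: Y) ∂μ = 0 := by
      have h2 : ∀ᵐ x ∂(μ.restrict Aᶜ), iter μ l F (x :: Y) = 0 := by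
        rw [ae_restrict_iff' hA.compl]
        filter_upwards [hz] with x hx hxA
        rw [iter_app]
        simp only [hx hxA]
        exact iter_zero_fun μ l []
      rw [lintegral_congr_ae h2, lintegral_zero]
    rw [h1, add_zero]
    exact lintegral_congr fun x => ih _

end Pool.Agent.NSB
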