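import Pool.Agent.NSB.Defs
import Pool.Agent.HP89.A1b
import Pool.Agent.HP89.A1c

/-! Module NSB-WS: splitting of the volume.

`wn_split`: the volume of the parallelepiped spanned by `Z ++ X`, where `X` consists of `finrank W` vectors of `W`, is the volume of `X`
times the volume of the projection of `Z` to the orthogonal complement of `W`. `wn_zero_of_many`: it vanishes if there are more vectors. -/

set_option autoImplicit false

namespace Pool.Agent.NSB

open MeasureTheory ProbabilityTheory Set Filter Topology Metric
open Pool.Agent.Helper82.Proj1 (supp shadow kappa)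
open Pool.Agent.HP89
open scoped RealInnerProductSpace ENNReal Pointwise

variable {V : Type*} [NormedAddCommGroup V] [InnerProductSpace ℝ V] [FiniteDimensional ℝ V]
  [MeasurableSpace V] [BorelSpace V]

omit [FiniteDimensional ℝ V] [MeasurableSpace V] [BorelSpace V] in
private theorem WS_zero {X : List V} (h : wn X = 0) (Z : List V) : wn (Z ++ X) = 0 := by
  induction Z with
  | nil => exact h
  | cons z Z ih => rw [List.cons_append, wn_cons, ih, zero_mul]

omit [FiniteDimensional ℝ V] [MeasurableSpace V] [BorelSpace V] in
private theorem WS_le {W : Submodule ℝ V} {X : List V} (hX : ∀ x ∈ X, x ∈ W) :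
    Submodule.span ℝ {x | x ∈ X} ≤ W := Submodule.span_le.2 hX

omit [MeasurableSpace V] [BorelSpace V] in
theorem wn_split {W : Submodule ℝ V} {X : List V} (hX : ∀ x ∈ X, x ∈ W) (hl : X.length = Module.finrank ℝ W) (Z : List V) :
    wn (Z ++ X) = wn X * wn (Z.map fun z => Wᗮ.starProjection z) := by
  by_cases h : wn X = 0
  · rw [WS_zero h, h, zero_mul]
  have hW : Submodule.span ℝ {x | x ∈ X} = W :=
    Submodule.eq_of_le_of_finrank_eq (WS_le hX) ((finrank_span_of_wn_ne_zero h).trans hl)
  have hres : ∀ (Z : List V) (g : V),
      res (Z ++ X) g = res (Z.map fun z => Wᗮ.starProjection z) (Wᗮ.starProjection g) := by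
    intro Z
    induction Z with
    | nil =>
      intro g
      rw [List.nil_append, List.map_nil, res_nil, res_eq, hW]
    | cons z Z ih =>
      intro g
      rw [List.cons_append, List.map_cons, res_cons, res_cons, ih, ih]
  induction Z with
  | nil => rw [List.nil_append, List.map_nil, wn_nil, mul_one]
  | cons z Z ih => rw [List.cons_append, List.map_cons, wn_cons, wn_cons, ih, hres, mul_assoc]

omit [MeasurableSpace V] [BorelSpace V] in
theorem wn_zero_of_many {W : Submodule ℝ V} {X : List V} (hX : ∀ x ∈ X, x ∈ W) (hl : Module.finrank ℝ W < X.length)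
    (Z : List V) : wn (Z ++ X) = 0 := by
  apply WS_zero
  by_contra h
  have h1 := Submodule.finrank_mono (WS_le hX)
  rw [finrank_span_of_wn_ne_zero h] at h1
  exact absurd hl (not_lt.2 h1)

end Pool.Agent.NSB
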