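import Pool.Agent.NSB.BIN
import Pool.Agent.NSB.WS
import Pool.Agent.NSB.MAP

/-! Module NSB-FF: the volume functional of a measure on the union of two complementary subspaces.

By the binomial formula only the lists `Z ++ X` with `X` in `W₁` of length `finrank W₁` and `Z` in `W₂` of length `finrank W₂` contribute, and
the volume of such a list is the product of the volume of `X` and that of the projection of `Z` to `W₁ᗮ`. -/

set_option autoImplicit false

namespace Pool.Agent.NSB

open MeasureTheory ProbabilityTheory Set Filter Topology Metric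
open Pool.Agent.Helper82.Proj1 (supp shadow kappa)
open Pool.Agent.HP89
open scoped RealInnerProductSpace ENNReal Pointwise

variable {V : Type*} [NormedAddCommGroup V] [InnerProductSpace ℝ V] [FiniteDimensional ℝ V]
  [MeasurableSpace V] [BorelSpace V]

private theorem FF_congr (μ : Measure V) {A : Set V} (hA : ∀ᵐ x ∂μ, x ∈ A) {F G : List V → ℝ≥0∞} :
    ∀ (k : ℕ) (Y : List V), (∀ X : List V, X.length = k → (∀ x ∈ X, x ∈ A) → F (X ++ Y) = G (X ++ Y)) →
      iter μ k F Y = iter μ k G Y := by
  intro k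
  induction k with
  | zero =>
    intro Y h
    exact h [] rfl (fun x hx => absurd hx List.not_mem_nil)
  | succ k ih =>
    intro Y h
    rw [iter_succ, iter_succ]
    refine lintegral_congr_ae (hA.mono fun x hx => ih (x :: Y) fun X hl hX => ?_)
    have h1 := h (X ++ [x]) (by rw [List.length_append, hl]; rfl) (fun y hy => by
      rcases List.mem_append.1 hy with h2 | h2
      · exact hX y h2
      · rw [List.mem_singleton.1 h2]
        exact hx)
    rwa [List.append_assoc, List.singleton_append] at h1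

private theorem FF_zero (μ : Measure V) : ∀ (k : ℕ) (Y : List V), iter μ k (fun _ => 0) Y = 0 := by
  intro k
  induction k with
  | zero => intro Y; rfl
  | succ k ih =>
    intro Y
    rw [iter_succ]
    simp only [ih]
    exact lintegral_zero

theorem iter_split {W₁ W₂ : Submodule ℝ V} (hW : IsCompl W₁ W₂) (h1 : W₁ ≠ ⊥) (h2 : W₂ ≠ ⊥) {ρ : Measure V}
    [IsFiniteMeasure ρ] (hi : Integrable (fun x => ‖x‖) ρ) (hρ : ∀ᵐ x ∂ρ, x ∈ W₁ ∨ x ∈ W₂) :
    ∃ c : ℝ≥0∞, c ≠ ⊤ ∧ ∀ u ∈ W₁, iter ρ (Module.finrank ℝ V - 1) ew [u] =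
      c * iter (ρ.restrict W₁) (Module.finrank ℝ W₁ - 1) ew [u] := by
  have hd : Module.finrank ℝ W₁ + Module.finrank ℝ W₂ = Module.finrank ℝ V :=
    Submodule.finrank_add_eq_of_isCompl hW
  have ha : 0 < Module.finrank ℝ W₁ := by
    rw [Nat.pos_iff_ne_zero]
    exact fun h => h1 (Submodule.finrank_eq_zero.1 h)
  have hb : 0 < Module.finrank ℝ W₂ := by
    rw [Nat.pos_iff_ne_zero]
    exact fun h => h2 (Submodule.finrank_eq_zero.1 h)
  have hm : MeasurableSet (W₁ : Set V) := W₁.closed_of_finiteDimensional.measurableSet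
  have hA1 : ∀ᵐ x ∂(ρ.restrict (W₁ : Set V)), x ∈ (W₁ : Set V) := ae_restrict_mem hm
  have hA2 : ∀ᵐ x ∂(ρ.restrict (W₁ : Set V)ᶜ), x ∈ (W₂ : Set V) := by
    filter_upwards [ae_restrict_mem hm.compl, ae_restrict_of_ae hρ] with x hx hx2
    exact hx2.resolve_left hx
  have hsum : ρ.restrict (W₁ : Set V) + ρ.restrict (W₁ : Set V)ᶜ = ρ := Measure.restrict_add_restrict_compl hm
  have hP : Measurable fun z : V => W₁ᗮ.starProjection z := (W₁ᗮ.starProjection).continuous.measurable
  set Cb : ℝ≥0∞ := iter (ρ.restrict (W₁ : Set V)ᶜ) (Module.finrank ℝ W₂)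
    (fun Z => ew (Z.map fun z => W₁ᗮ.starProjection z)) [] with hCb
  have hCt : Cb ≠ ⊤ := by
    have h3 := iter_map hP (ρ.restrict (W₁ : Set V)ᶜ) (lmeas_ew (V := V)) (Module.finrank ℝ W₂) []
    rw [hCb, ← h3]
    refine (iter_ew_lt_top _ ?_ _ _).ne
    rw [integrable_map_measure continuous_norm.aestronglyMeasurable hP.aemeasurable]
    refine (hi.mono_measure Measure.restrict_le_self).mono ?_ ?_
    · exact (continuous_norm.comp (W₁ᗮ.starProjection).continuous).aestronglyMeasurable
    · refine Filter.Eventually.of_forall fun x => ?_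
      rw [norm_norm, Function.comp_apply, norm_norm]
      exact Submodule.norm_starProjection_apply_le _ x
  refine ⟨((Module.finrank ℝ V - 1).choose (Module.finrank ℝ W₁ - 1) : ℝ≥0∞) * Cb,
    ENNReal.mul_ne_top (ENNReal.natCast_ne_top _) hCt, fun u hu => ?_⟩
  have hsplit := iter_binom (ρ.restrict (W₁ : Set V)) (ρ.restrict (W₁ : Set V)ᶜ) (lmeas_ew (V := V))
    (fun Z Z' h => by
      show ENNReal.ofReal (wn Z) = ENNReal.ofReal (wn Z')
      rw [wn_perm h]) (Module.finrank ℝ V - 1) [u]
  rw [hsum] at hsplit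
  rw [hsplit, Finset.sum_eq_single (Module.finrank ℝ W₁ - 1)]
  · rw [mul_assoc]
    congr 1
    have hn : Module.finrank ℝ V - 1 - (Module.finrank ℝ W₁ - 1) = Module.finrank ℝ W₂ := by omega
    rw [hn, ← iter_const_mul _ _ _ hCt]
    refine FF_congr _ hA1 _ _ fun X hl hX => ?_
    have hX' : ∀ x ∈ X ++ [u], x ∈ W₁ := by
      intro x hx
      rcases List.mem_append.1 hx with h3 | h3
      · exact hX x h3
      · rw [List.mem_singleton.1 h3]
        exact hu
    have hl' : (X ++ [u]).length = Module.finrank ℝ W₁ := by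
      rw [List.length_append, hl, List.length_singleton]
      omega
    rw [iter_app]
    have h4 : (fun Z : List V => ew (Z ++ (X ++ [u]))) =
        fun Z : List V => ew (X ++ [u]) * ew (Z.map fun z => W₁ᗮ.starProjection z) := by
      funext Z
      unfold ew
      rw [wn_split hX' hl', ENNReal.ofReal_mul (wn_nonneg _)]
    rw [h4, iter_const_mul _ _ (fun Z : List V => ew (Z.map fun z => W₁ᗮ.starProjection z))
      (show ew (X ++ [u]) ≠ ⊤ from ENNReal.ofReal_ne_top), mul_comm]
  · intro k hk hne
    rw [Finset.mem_range] at hk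
    have h5 : iter (ρ.restrict (W₁ : Set V)) k
        (iter (ρ.restrict (W₁ : Set V)ᶜ) (Module.finrank ℝ V - 1 - k) ew) [u] = 0 := by
      rw [← FF_zero (ρ.restrict (W₁ : Set V)) k [u]]
      refine FF_congr _ hA1 _ _ fun X hl hX => ?_
      have hX' : ∀ x ∈ X ++ [u], x ∈ W₁ := by
        intro x hx
        rcases List.mem_append.1 hx with h3 | h3
        · exact hX x h3
        · rw [List.mem_singleton.1 h3]
          exact hu
      have hl' : (X ++ [u]).length = k + 1 := by
        rw [List.length_append, hl, List.length_singleton]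
      rw [← FF_zero (ρ.restrict (W₁ : Set V)ᶜ) (Module.finrank ℝ V - 1 - k) (X ++ [u])]
      refine FF_congr _ hA2 _ _ fun Z hlZ hZ => ?_
      show ENNReal.ofReal (wn (Z ++ (X ++ [u]))) = 0
      rcases lt_or_gt_of_ne hne with h6 | h6
      · rw [wn_perm (List.perm_append_comm), wn_zero_of_many (W := W₂) hZ (by omega), ENNReal.ofReal_zero]
      · rw [wn_zero_of_many (W := W₁) hX' (by omega), ENNReal.ofReal_zero]
    rw [h5, mul_zero]
  · intro h
    exact absurd (Finset.mem_range.2 (by omega)) h

end Pool.Agent.NSB
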