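import Pool.Agent.NSB.Defs
import Pool.Agent.HP89.A2a
import Pool.Agent.HP89.A2b

/-! Module NSB-ID: the constants of a pair.

Both sides are equal to the double integral of `|⟪y, x⟫|` with respect to `μ` and `ν`. -/

set_option autoImplicit false

namespace Pool.Agent.NSB

open MeasureTheory ProbabilityTheory Set Filter Topology Metric
open Pool.Agent.Helper82.Proj1 (supp shadow kappa)
open Pool.Agent.HP89
open scoped RealInnerProductSpace ENNReal Pointwise

variable {V : Type*} [NormedAddCommGroup V] [InnerProductSpace ℝ V] [FiniteDimensional ℝ V]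
  [MeasurableSpace V] [BorelSpace V]

private theorem ID_aux {j : ℕ} {μ ν : Measure V} {c : ℝ≥0∞} (hc : c ≠ ⊤)
    (h : ∀ u, Jc μ u = c * iter ν j ew [u]) : c * iter ν (j + 1) ew [] = ∫⁻ x, Jc μ x ∂ν := by
  rw [iter_succ, ← lintegral_const_mul' c _ hc]
  exact lintegral_congr fun x => (h x).symm

theorem const_eq {j : ℕ} {μ ν : Measure V} [IsFiniteMeasure μ] [IsFiniteMeasure ν] {c c' : ℝ≥0∞} (hc : c ≠ ⊤) (hc' : c' ≠ ⊤)
    (h : ∀ u, Jc μ u = c * iter ν j ew [u]) (h' : ∀ u, Jc ν u = c' * iter μ j ew [u]) :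
    c * iter ν (j + 1) ew [] = c' * iter μ (j + 1) ew [] := by
  rw [ID_aux hc h, ID_aux hc' h']
  unfold Jc
  have hm : Measurable (Function.uncurry (fun x y : V => ENNReal.ofReal |⟪y, x⟫|)) := by
    unfold Function.uncurry
    exact ENNReal.measurable_ofReal.comp (measurable_snd.inner measurable_fst).abs
  rw [lintegral_lintegral_swap hm.aemeasurable]
  refine lintegral_congr fun y => lintegral_congr fun x => ?_
  rw [real_inner_comm]

end Pool.Agent.NSB
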