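import Pool.Agent.NSB.Defs

/-! Module NSB-LA1: linear algebra for `j ≤ d - 2`.

Let `y ≠ 0`. Choose a basis `(e_i)` of `V` in `S` (`exists_linearIndependent`, `hS`) and (exchange) an index, say `i₀`, with `y`-coordinate `≠ 0`, so that `y`
together with the `e_i`, `i ≠ i₀`, is a basis `f`. For every set `J` of `j` indices `≠ i₀` the nonzero vectors orthogonal to `e_J` are in `N` (`h1`).
The subspaces `(span e_J + ℝ y)ᗮ` have the sum `(⋂_J (span e_J + ℝ y))ᗮ = (ℝ y)ᗮ`, because there are `d - 1 ≥ j + 1` indices `≠ i₀`, so the `J` have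
empty intersection (coordinates in the basis `f`). So `N ∩ yᗮ` spans `yᗮ`, of dimension `d - 1 ≥ j`: there are `j` independent vectors `b_i ∈ N`
orthogonal to `y`, and `h2` gives `y ∈ S`. -/

set_option autoImplicit false

namespace Pool.Agent.NSB

open MeasureTheory ProbabilityTheory Set Filter Topology Metric
open Pool.Agent.Helper82.Proj1 (supp shadow kappa)
open Pool.Agent.HP89
open scoped RealInnerProductSpace ENNReal Pointwise

variable {V : Type*} [NormedAddCommGroup V] [InnerProductSpace ℝ V] [FiniteDimensional ℝ V]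
  [MeasurableSpace V] [BorelSpace V]

omit [FiniteDimensional ℝ V] [MeasurableSpace V] [BorelSpace V] in
private theorem LA1_N {ι : Type*} {j : ℕ} {S N : Set V} (h1 : JJ j S N) {e : ι → V} (he : LinearIndependent ℝ e)
    (heS : ∀ i, e i ∈ S) {J : Finset ι} (hJ : J.card = j) {v : V} (hv : v ≠ 0) (h : ∀ i ∈ J, ⟪e i, v⟫ = 0) : v ∈ N := by
  refine h1 (fun k => e ((J.equivFinOfCardEq hJ).symm k)) (fun k => heS _) ?_ v hv fun k => h _ ((J.equivFinOfCardEq hJ).symm k).2
  exact he.comp _ (Subtype.val_injective.comp (J.equivFinOfCardEq hJ).symm.injective)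

omit [MeasurableSpace V] [BorelSpace V] in
theorem full_of_lt {j : ℕ} (hj1 : 1 ≤ j) (hj : j + 2 ≤ Module.finrank ℝ V) {S N : Set V} (hS : Submodule.span ℝ S = ⊤)
    (h1 : JJ j S N) (h2 : JJ j N S) : ∀ v : V, v ≠ 0 → v ∈ S := by
  classical
  intro y hy
  obtain ⟨b, hbS, hbs, hbi⟩ := exists_linearIndependent ℝ S
  let B : Module.Basis b ℝ V := Module.Basis.mk hbi (by rw [Subtype.range_coe, hbs, hS])
  have hB : ∀ i : b, B i = i := fun i => by rw [Module.Basis.mk_apply]
  have : Fintype b := FiniteDimensional.fintypeBasisIndex B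
  have hcard : Fintype.card b = Module.finrank ℝ V := (Module.finrank_eq_card_basis B).symm
  let U : Submodule ℝ V := Submodule.span ℝ (N ∩ {v | ⟪v, y⟫ = 0})
  have h3 : ∀ J : Finset b, J.card = j → ∀ w ∈ Uᗮ, w ∈ Submodule.span ℝ (insert y (B '' (J : Set b))) := by
    intro J hJ w hw
    rw [← Submodule.orthogonal_orthogonal (Submodule.span ℝ (insert y (B '' (J : Set b))))]
    refine Submodule.orthogonal_le ?_ hw
    intro v hv
    by_cases hv0 : v = 0
    · rw [hv0]
      exact U.zero_mem
    have h4 : ∀ x ∈ insert y (B '' (J : Set b)), ⟪x, v⟫ = 0 := fun x hx =>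
      (Submodule.mem_orthogonal _ _).1 hv x (Submodule.subset_span hx)
    refine Submodule.subset_span ⟨LA1_N h1 B.linearIndependent (fun i => ?_) hJ hv0 fun i hi => ?_, ?_⟩
    · rw [hB]
      exact hbS i.2
    · exact h4 _ (mem_insert_of_mem _ (mem_image_of_mem _ (Finset.mem_coe.2 hi)))
    · show ⟪v, y⟫ = 0
      rw [real_inner_comm]
      exact h4 _ (mem_insert _ _)
  have h4 : ∃ i₀, B.repr y i₀ ≠ 0 := by
    by_contra h
    push Not at h
    exact hy (B.repr.map_eq_zero_iff.1 (Finsupp.ext h))
  obtain ⟨i₀, hi₀⟩ := h4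
  have h5 : Uᗮ ≤ Submodule.span ℝ {y} := by
    intro w hw
    rw [Submodule.mem_span_singleton]
    refine ⟨B.repr w i₀ / B.repr y i₀, ?_⟩
    apply B.repr.injective
    ext i
    have h6 : j ≤ ((Finset.univ : Finset b) \ {i, i₀}).card := by
      have h7 := Finset.le_card_sdiff ({i, i₀} : Finset b) Finset.univ
      have h8 := Finset.card_le_two (a := i) (b := i₀)
      rw [Finset.card_univ, hcard] at h7
      omega
    obtain ⟨J, hJ, hJc⟩ := Finset.exists_subset_card_eq h6
    have hi : i ∉ J := fun h => by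
      have := hJ h
      simp at this
    have hi' : i₀ ∉ J := fun h => by
      have := hJ h
      simp at this
    obtain ⟨t, z, hz, rfl⟩ := Submodule.mem_span_insert.1 (h3 J hJc w hw)
    rw [Module.Basis.mem_span_image] at hz
    have h7 : ∀ k, k ∉ J → B.repr z k = 0 := by
      intro k hk
      by_contra h
      exact hk (Finset.mem_coe.1 (hz (Finset.mem_coe.2 (Finsupp.mem_support_iff.2 h))))
    simp only [map_add, map_smul, Finsupp.coe_add, Finsupp.coe_smul, Pi.add_apply, Pi.smul_apply, smul_eq_mul,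
      h7 i hi, h7 i₀ hi', add_zero]
    rw [mul_div_assoc, div_self hi₀, mul_one]
  have h6 : j ≤ Module.finrank ℝ U := by
    have h7 := Submodule.finrank_add_finrank_orthogonal U
    have h8 := (Submodule.finrank_mono h5).trans (finrank_span_le_card ({y} : Set V))
    rw [Set.toFinset_singleton, Finset.card_singleton] at h8
    omega
  obtain ⟨c, hcN, hcs, hci⟩ := exists_linearIndependent ℝ (N ∩ {v | ⟪v, y⟫ = 0})
  have : Fintype c := hci.setFinite.fintype
  have h7 : Fintype.card c = Module.finrank ℝ U := by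
    have h8 := finrank_span_eq_card hci
    rw [Subtype.range_coe, hcs] at h8
    exact h8.symm
  obtain ⟨φ⟩ := Function.Embedding.nonempty_of_card_le (α := Fin j) (β := c) (by rw [Fintype.card_fin, h7]; exact h6)
  exact h2 (fun k => (φ k : V)) (fun k => (hcN (φ k).2).1) (hci.comp _ φ.injective) y hy fun k => (hcN (φ k).2).2

end Pool.Agent.NSB
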