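import Pool.Agent.NSB.Defs
import Pool.Agent.HP89.A1c
import Pool.Agent.HP89.A2a

/-! Module NSB-PO: positivity of the iterated integrals.

`iter_ew_ne`: if no nonzero vector is orthogonal to almost all vectors of `ν`, the iterated integral of the volume of the parallelepiped
over `l` further vectors is positive, as long as their number is at most the dimension.  Induction on `l`. -/

set_option autoImplicit false

namespace Pool.Agent.NSB

open MeasureTheory ProbabilityTheory Set Filter Topology Metric
open Pool.Agent.Helper82.Proj1 (supp shadow kappa)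
open Pool.Agent.HP89
open scoped RealInnerProductSpace ENNReal Pointwise

variable {V : Type*} [NormedAddCommGroup V] [InnerProductSpace ℝ V] [FiniteDimensional ℝ V]
  [MeasurableSpace V] [BorelSpace V]

theorem iter_ew_ne {ν : Measure V} [SFinite ν] (hp : ∀ u : V, u ≠ 0 → Jc ν u ≠ 0) (l : ℕ) (Y : List V) (hw : wn Y ≠ 0)
    (hl : Y.length + l ≤ Module.finrank ℝ V) : iter ν l ew Y ≠ 0 := by
  induction l generalizing Y with
  | zero =>
    intro h
    have h1 : ENNReal.ofReal (wn Y) = 0 := h
    rw [ENNReal.ofReal_eq_zero] at h1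
    exact hw (le_antisymm h1 (wn_nonneg Y))
  | succ l ih =>
    intro h
    rw [iter_succ, lintegral_eq_zero_iff ((lmeas_ew.iter ν l).cons Y)] at h
    have hpos : 0 < Module.finrank ℝ (Submodule.span ℝ {x | x ∈ Y})ᗮ := by
      rw [finrank_orth_of_wn_ne_zero hw]
      omega
    have hnt : Nontrivial (Submodule.span ℝ {x | x ∈ Y})ᗮ := Module.nontrivial_of_finrank_pos hpos
    obtain ⟨⟨u, hu⟩, hu0⟩ := exists_ne (0 : (Submodule.span ℝ {x | x ∈ Y})ᗮ)
    have hune : u ≠ 0 := fun h0 => hu0 (Subtype.ext h0)
    refine hp u hune ?_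
    have hae : (fun x => ENNReal.ofReal |⟪x, u⟫|) =ᵐ[ν] fun _ => 0 := by
      filter_upwards [h] with x hx
      have h1 : wn (x :: Y) = 0 := by
        by_contra hne
        exact ih (x :: Y) hne (by simp only [List.length_cons]; omega) hx
      have h2 : res Y x = 0 := by
        have h3 : wn Y * ‖res Y x‖ = 0 := h1
        rcases mul_eq_zero.1 h3 with h4 | h4
        · exact absurd h4 hw
        · exact norm_eq_zero.1 h4
      rw [res_eq] at h2
      have h3 : ⟪x, u⟫ = 0 := by
        have h4 : (Submodule.span ℝ {x | x ∈ Y})ᗮ.starProjection u = u :=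
          Submodule.starProjection_eq_self_iff.2 hu
        have h5 := Submodule.inner_starProjection_left_eq_right (Submodule.span ℝ {x | x ∈ Y})ᗮ x u
        rw [h2, h4, inner_zero_left] at h5
        exact h5.symm
      rw [h3]
      simp
    unfold Jc
    rw [lintegral_congr_ae hae, lintegral_zero]

end Pool.Agent.NSB
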