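import Pool.Agent.NSB.DCg
import Pool.Agent.NSB.PO
import Pool.Agent.HP89.A7
import Pool.Agent.HP89.A8b

/-! Module NSB-NL: null sets of `ν` in terms of `μ`.

`iter μ j ew [] ≠ 0` by `iter_ew_ne` (`wn [] = 1`). `hh_nu` (A7) and the definition of `hh` say that `Jc (nu j μ) u` is a positive finite multiple of
`iter μ j ew [u]`, hence of `Jc ν u` (`h.c1`); `nu j μ` is finite with finite first moment (`good_nu`). By `DCg` (scale one of the two measures)
`∫⁻ x in A, |⟪x, w⟫| ∂ν` and `∫⁻ x in A, |⟪x, w⟫| ∂(nu j μ)` are proportional for all `w`. As `0 ∉ A`, `ν A = 0` iff the first one vanishes for all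
`w` (an orthonormal basis), and the same for `nu j μ`; `nu j μ` is a positive multiple of the image of `(Measure.pi fun _ => μ).prod (stdGaussian V)`. -/

set_option autoImplicit false

namespace Pool.Agent.NSB

open MeasureTheory ProbabilityTheory Set Filter Topology Metric
open Pool.Agent.Helper82.Proj1 (supp shadow kappa)
open Pool.Agent.HP89
open scoped RealInnerProductSpace ENNReal Pointwise

variable {V : Type*} [NormedAddCommGroup V] [InnerProductSpace ℝ V] [FiniteDimensional ℝ V]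
  [MeasurableSpace V] [BorelSpace V]

private theorem nl_zero_iff (l : Measure V) {A : Set V} (hA : MeasurableSet A) (h0 : (0 : V) ∉ A) :
    l A = 0 ↔ ∀ w : V, ∫⁻ x in A, ENNReal.ofReal |⟪x, w⟫| ∂l = 0 := by
  constructor
  · intro h w
    rw [Measure.restrict_eq_zero.2 h, lintegral_zero_measure]
  · intro h
    set b := stdOrthonormalBasis ℝ V with hb
    have h1 : ∀ i, ∀ᵐ x ∂(l.restrict A), ⟪x, b i⟫ = 0 := by
      intro i
      have h2 := h (b i)
      have hm : Measurable (fun x : V => ENNReal.ofReal |⟪x, b i⟫|) := by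
        have hc : Continuous (fun y : V => |⟪y, b i⟫|) := by fun_prop
        exact hc.measurable.ennreal_ofReal
      rw [lintegral_eq_zero_iff hm] at h2
      filter_upwards [h2] with x hx
      have h3 : ENNReal.ofReal |⟪x, b i⟫| = 0 := hx
      rw [ENNReal.ofReal_eq_zero] at h3
      exact abs_eq_zero.1 (le_antisymm h3 (abs_nonneg _))
    have h2 : ∀ᵐ x ∂(l.restrict A), x = 0 := by
      filter_upwards [ae_all_iff.2 h1] with x hx
      rw [← b.sum_repr' x]
      refine Finset.sum_eq_zero fun i _ => ?_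
      rw [real_inner_comm, hx i, zero_smul]
    rw [ae_restrict_iff' hA] at h2
    have h3 : ∀ᵐ x ∂l, x ∉ A := by
      filter_upwards [h2] with x hx hxA
      rw [hx hxA] at hxA
      exact h0 hxA
    rw [ae_iff] at h3
    simpa using h3

private theorem nl_meas_map (j : ℕ) :
    Measurable (fun p : (Fin j → V) × V => wn (List.ofFn p.1) • res (List.ofFn p.1) p.2) :=
  ((measurable_wn j).comp measurable_fst).smul (measurable_res j)

private theorem nl_w (j : ℕ) (μ : Measure V) [IsFiniteMeasure μ] :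
    ∫⁻ X : Fin j → V, ew (List.ofFn X) ∂(Measure.pi fun _ => μ) = iter μ j ew [] := by
  rw [iter_eq_pi μ j lmeas_ew]
  simp only [List.append_nil]

private theorem nl_Jc {j : ℕ} {μ : Measure V} [IsFiniteMeasure μ] (hμ : Integrable (fun x => ‖x‖) μ)
    (hw : iter μ j ew [] ≠ 0) (u : V) :
    Jc (nu j μ) u = ENNReal.ofReal (√(Real.pi / 2))⁻¹ * (iter μ j ew [])⁻¹ * iter μ j ew [u] := by
  have hg := good_nu hμ hw
  have h1 := hh_nu hμ hw u
  have hs : 0 < √(Real.pi / 2) := Real.sqrt_pos.2 (by positivity)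
  have h2 : Jc (nu j μ) u = ENNReal.ofReal (∫ y, |⟪y, u⟫| ∂(nu j μ)) := by
    unfold Jc
    rw [ofReal_integral_eq_lintegral_ofReal (integrable_abs_inner' hg.int u)
      (Eventually.of_forall fun y => abs_nonneg _)]
  have h3 : ∫ y, |⟪y, u⟫| ∂(nu j μ) = (√(Real.pi / 2))⁻¹ * ((iter μ j ew []).toReal⁻¹ * (iter μ j ew [u]).toReal) := by
    rw [← h1]
    unfold hh
    rw [← mul_assoc, inv_mul_cancel₀ hs.ne', one_mul]
  rw [h2, h3, ENNReal.ofReal_mul (by positivity), ENNReal.ofReal_mul (by positivity), ENNReal.ofReal_toReal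
    (iter_ew_lt_top μ hμ j [u]).ne, ← ENNReal.toReal_inv, ENNReal.ofReal_toReal (ENNReal.inv_ne_top.2 hw)]
  ring

theorem null_iff {j : ℕ} (hj : j ≤ Module.finrank ℝ V) {μ ν : Measure V} (h : Par j μ ν) {A : Set V} (hA : MeasurableSet A)
    (hs : SC A) (h0 : (0 : V) ∉ A) :
    ν A = 0 ↔ ∀ᵐ p ∂((Measure.pi fun _ : Fin j => μ).prod (stdGaussian V)),
      wn (List.ofFn p.1) • res (List.ofFn p.1) p.2 ∉ A := by
  have := h.f1
  have := h.f2
  have hw : iter μ j ew [] ≠ 0 := iter_ew_ne h.p1 j [] (by rw [wn_nil]; exact one_ne_zero) (by simpa using hj)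
  have hwt : iter μ j ew [] ≠ ⊤ := (iter_ew_lt_top μ h.i1 j []).ne
  have hg := good_nu h.i1 hw
  have := hg.fin
  obtain ⟨c, hc0, hct, hc⟩ := h.c1
  have hs0 : 0 < √(Real.pi / 2) := Real.sqrt_pos.2 (by positivity)
  set C : ℝ≥0∞ := ENNReal.ofReal (√(Real.pi / 2))⁻¹ * (iter μ j ew [])⁻¹ with hC
  have hC0 : C ≠ 0 := by
    rw [hC]
    refine mul_ne_zero ?_ (ENNReal.inv_ne_zero.2 hwt)
    exact (ENNReal.ofReal_pos.2 (by positivity)).ne'
  have hCt : C ≠ ⊤ := ENNReal.mul_ne_top ENNReal.ofReal_ne_top (ENNReal.inv_ne_top.2 hw)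
  set k : ℝ≥0∞ := c * C⁻¹ with hk
  have hk0 : k ≠ 0 := mul_ne_zero hc0 (ENNReal.inv_ne_zero.2 hCt)
  have hkt : k ≠ ⊤ := ENNReal.mul_ne_top hct (ENNReal.inv_ne_top.2 hC0)
  have : IsFiniteMeasure (k • nu j μ) := Measure.smul_finite _ hkt
  have hJ : ∀ u, Jc ν u = Jc (k • nu j μ) u := by
    intro u
    have e1 : Jc (k • nu j μ) u = k * Jc (nu j μ) u := by
      unfold Jc
      rw [lintegral_smul_measure, smul_eq_mul]
    rw [e1, nl_Jc h.i1 hw, hc u, ← hC, hk, mul_assoc, ← mul_assoc C⁻¹, ENNReal.inv_mul_cancel hC0 hCt, one_mul]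
  have hD := fun w => DCg h.i2 (hg.int.smul_measure hkt) hJ hA hs w
  have e2 : ν A = 0 ↔ (k • nu j μ) A = 0 := by
    rw [nl_zero_iff ν hA h0, nl_zero_iff (k • nu j μ) hA h0]
    exact forall_congr' fun w => by rw [hD w]
  rw [e2, Measure.smul_apply, smul_eq_mul, mul_eq_zero, or_iff_right hk0]
  unfold nu
  rw [nl_w, Measure.smul_apply, smul_eq_mul, mul_eq_zero, or_iff_right (ENNReal.inv_ne_zero.2 hwt),
    Measure.map_apply (nl_meas_map j) hA, ae_iff]
  simp only [not_not]
  rfl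

end Pool.Agent.NSB
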