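import Pool.Agent.NSB.BOD
import Pool.Agent.NSB.JO
import Pool.Agent.NSB.LA1
import Pool.Agent.NSB.LUN

/-! Module NSB-PA: part (a): for `j ≤ d - 2` all solutions are smooth. -/

set_option autoImplicit false

namespace Pool.Agent.NSB

open MeasureTheory ProbabilityTheory Set Filter Topology Metric
open Pool.Agent.Helper82.Proj1 (supp shadow kappa)
open Pool.Agent.HP89
open scoped RealInnerProductSpace ENNReal Pointwise

variable {V : Type*} [NormedAddCommGroup V] [InnerProductSpace ℝ V] [FiniteDimensional ℝ V]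
  [MeasurableSpace V] [BorelSpace V]

theorem partA {j : ℕ} (hj1 : 1 ≤ j) (hj : j + 2 ≤ Module.finrank ℝ V) {K L M : Set V} (hK : CC K) (hL : CC L) (hM : CC M)
    (hi : (interior K).Nonempty) (h1 : IsPB j K L) (h2 : IsPB j L M) {c : ℝ} (hc : 0 < c) {x0 : V}
    (hom : M = (fun y => c • y + x0) '' K) : IsSmooth K ∧ IsSmooth L := by
  obtain ⟨μ, ν, x1, h, hs, hs'⟩ := bodies (by omega) hK hL hM hi h1 h2 hc hom
  have hS := Spt_span h.p1
  have hN := Spt_span h.p2
  have e1 := Spt_JJ (by omega) h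
  have e2 := Spt_JJ (by omega) h.symm
  refine ⟨smooth_of_full hK h.i2 h.p2 hs (full_of_lt hj1 hj hN e2 e1),
    smooth_of_full hL h.i1 h.p1 (x1 := 0) (fun u => ?_) (full_of_lt hj1 hj hS e1 e2)⟩
  rw [hs' u, inner_zero_left, zero_add]

end Pool.Agent.NSB
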