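import Pool.Agent.NSB.PP
import Pool.Agent.FAC3.DNb

/-! Module NSB-PL: planes.

For `a, b, c, a + b, b + c ∈ S` the set `C = {x | φ x ∈ S}`, `φ x = x 0 • a + x 1 • b + x 2 • c`, is closed under nonzero multiples and meets
(`PP`), it contains four points in general position, so it is dense (`DNa`, `DNb`); it is closed up to `0`, so it is everything. -/

set_option autoImplicit false

namespace Pool.Agent.NSB

open MeasureTheory ProbabilityTheory Set Filter Topology Metric
open Pool.Agent.Helper82.Proj1 (supp shadow kappa)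
open Pool.Agent.HP89
open scoped RealInnerProductSpace ENNReal Pointwise

variable {V : Type*} [NormedAddCommGroup V] [InnerProductSpace ℝ V] [FiniteDimensional ℝ V]
  [MeasurableSpace V] [BorelSpace V]

omit [FiniteDimensional ℝ V] [MeasurableSpace V] [BorelSpace V] in
private theorem PL_compl {S s : Set V} (hS : Submodule.span ℝ S = ⊤) (hs : s ⊆ S) (hli : LinearIndepOn ℝ id s) :
    ∃ F ⊆ S, IsCompl (Submodule.span ℝ s) (Submodule.span ℝ F) := by
  obtain ⟨B, hBS, hsB, hSB, hB⟩ := exists_linearIndepOn_id_extension hli hs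
  refine ⟨B \ s, sdiff_subset.trans hBS, ?_, ?_⟩
  · have hB' := hB.linearIndependent
    have h1 := hB'.disjoint_span_image (s := {x : B | (x : V) ∈ s}) (t := {x : B | (x : V) ∉ s})
      (by rw [Set.disjoint_left]; intro x h1 h2; exact h2 h1)
    have e1 : (fun x : B => id (x : V)) '' {x : B | (x : V) ∈ s} = s := by
      ext y
      constructor
      · rintro ⟨x, hx, rfl⟩
        exact hx
      · intro hy
        exact ⟨⟨y, hsB hy⟩, hy, rfl⟩
    have e2 : (fun x : B => id (x : V)) '' {x : B | (x : V) ∉ s} = B \ s := by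
      ext y
      constructor
      · rintro ⟨x, hx, rfl⟩
        exact ⟨x.2, hx⟩
      · intro hy
        exact ⟨⟨y, hy.1⟩, hy.2, rfl⟩
    rwa [e1, e2] at h1
  · rw [codisjoint_iff, ← Submodule.span_union, Set.union_sdiff_cancel hsB, eq_top_iff, ← hS]
    exact Submodule.span_le.2 hSB

omit [MeasurableSpace V] [BorelSpace V] in
private theorem PL_JJ {d : ℕ} {S N : Set V} (h1 : JJ d S N) {T : Set V} (hT : T ⊆ S)
    (hfr : Module.finrank ℝ (Submodule.span ℝ T) = d) {n : V} (hn : n ≠ 0) (ho : ∀ t ∈ T, ⟪t, n⟫ = 0) : n ∈ N := by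
  subst hfr
  obtain ⟨f, hf, -, hli⟩ := Submodule.exists_fun_fin_finrank_span_eq ℝ T
  exact h1 f (fun i => hT (hf i)) hli n hn (fun i => ho _ (hf i))

/-- the parametrisation of the plane -/
private def PL_phi (a b c : V) (x : FAC3.E3) : V := x 0 • a + x 1 • b + x 2 • c

omit [FiniteDimensional ℝ V] [MeasurableSpace V] [BorelSpace V] in
private theorem PL_add (a b c : V) (x y : FAC3.E3) : PL_phi a b c (x + y) = PL_phi a b c x + PL_phi a b c y := by
  unfold PL_phi
  rw [PiLp.add_apply, PiLp.add_apply, PiLp.add_apply]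
  module

omit [FiniteDimensional ℝ V] [MeasurableSpace V] [BorelSpace V] in
private theorem PL_smul (a b c : V) (t : ℝ) (x : FAC3.E3) : PL_phi a b c (t • x) = t • PL_phi a b c x := by
  unfold PL_phi
  rw [PiLp.smul_apply, PiLp.smul_apply, PiLp.smul_apply]
  simp only [smul_eq_mul]
  module

omit [FiniteDimensional ℝ V] [MeasurableSpace V] [BorelSpace V] in
private theorem PL_sub (a b c : V) (x y : FAC3.E3) : PL_phi a b c (x - y) = PL_phi a b c x - PL_phi a b c y := by
  unfold PL_phi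
  rw [PiLp.sub_apply, PiLp.sub_apply, PiLp.sub_apply]
  module

omit [FiniteDimensional ℝ V] [MeasurableSpace V] [BorelSpace V] in
private theorem PL_inj {a b c : V} (hi : LinearIndependent ℝ ![a, b, c]) {x : FAC3.E3} (h : PL_phi a b c x = 0) :
    x = 0 := by
  have h2 := Fintype.linearIndependent_iff.1 hi ![x 0, x 1, x 2] (by
    rw [Fin.sum_univ_three]
    exact h)
  ext i
  fin_cases i
  · exact h2 0
  · exact h2 1
  · exact h2 2

omit [FiniteDimensional ℝ V] [MeasurableSpace V] [BorelSpace V] in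
private theorem PL_mem (a b c : V) (x : FAC3.E3) : PL_phi a b c x ∈ Submodule.span ℝ {a, b, c} :=
  Submodule.mem_span_triple.2 ⟨x 0, x 1, x 2, rfl⟩

omit [MeasurableSpace V] [BorelSpace V] in
/-- a normal vector in `N` which induces a multiple of `⟪w, x⟫` on the plane -/
private theorem PL_normal {d : ℕ} (hd : Module.finrank ℝ V = d + 1) {S N : Set V}
    (hS : Submodule.span ℝ S = ⊤) (h1 : JJ d S N) {a b c : V} (ha : a ∈ S) (hb : b ∈ S) (hc : c ∈ S)
    (hi : LinearIndependent ℝ ![a, b, c]) {x₃ x₄ : FAC3.E3} (h3 : PL_phi a b c x₃ ∈ S) (h4 : PL_phi a b c x₄ ∈ S)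
    (hw : FAC3.cr x₃ x₄ ≠ 0) :
    ∃ n ∈ N, ∃ t : ℝ, t ≠ 0 ∧ ∀ x, ⟪n, PL_phi a b c x⟫ = t * ⟪FAC3.cr x₃ x₄, x⟫ := by
  have hrange : Set.range ![a, b, c] = {a, b, c} := by
    rw [Matrix.range_cons, Matrix.range_cons, Matrix.range_cons, Matrix.range_empty]
    ext y
    simp
    tauto
  have hU : Module.finrank ℝ (Submodule.span ℝ ({a, b, c} : Set V)) = 3 := by
    rw [← hrange, finrank_span_eq_card hi, Fintype.card_fin]
  have hli : LinearIndepOn ℝ id ({a, b, c} : Set V) := by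
    rw [← hrange]
    exact hi.linearIndepOn_id
  obtain ⟨F, hF, hcompl⟩ := PL_compl hS (s := {a, b, c}) (by
    rintro x (rfl | rfl | rfl)
    · exact ha
    · exact hb
    · exact hc) hli
  have hG := Submodule.finrank_add_eq_of_isCompl hcompl
  rw [hU, hd] at hG
  -- the pair
  have hpair : LinearIndependent ℝ ![PL_phi a b c x₃, PL_phi a b c x₄] := by
    rw [LinearIndependent.pair_iff]
    intro s t hst
    rw [← PL_smul, ← PL_smul, ← PL_add] at hst
    have h0 := PL_inj hi hst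
    constructor
    · have h5 : FAC3.cr (s • x₃ + t • x₄) x₄ = 0 := by rw [h0, FAC3.cr_zero_left]
      rw [FAC3.cr_add_left, FAC3.cr_smul_left, FAC3.cr_smul_left, FAC3.cr_self, smul_zero, add_zero] at h5
      exact (smul_eq_zero.1 h5).resolve_right hw
    · have h5 : FAC3.cr x₃ (s • x₃ + t • x₄) = 0 := by rw [h0, FAC3.cr_zero_right]
      rw [FAC3.cr_add_right, FAC3.cr_smul_right, FAC3.cr_smul_right, FAC3.cr_self, smul_zero, zero_add] at h5
      exact (smul_eq_zero.1 h5).resolve_right hw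
  have hrange2 : Set.range ![PL_phi a b c x₃, PL_phi a b c x₄] = {PL_phi a b c x₃, PL_phi a b c x₄} := by
    rw [Matrix.range_cons, Matrix.range_cons, Matrix.range_empty]
    ext y
    simp
    tauto
  have hU2 : Module.finrank ℝ (Submodule.span ℝ ({PL_phi a b c x₃, PL_phi a b c x₄} : Set V)) = 2 := by
    rw [← hrange2, finrank_span_eq_card hpair, Fintype.card_fin]
  have hle : Submodule.span ℝ ({PL_phi a b c x₃, PL_phi a b c x₄} : Set V) ≤ Submodule.span ℝ {a, b, c} := by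
    rw [Submodule.span_le]
    rintro x (rfl | rfl)
    · exact PL_mem a b c x₃
    · exact PL_mem a b c x₄
  have hinf : Submodule.span ℝ ({PL_phi a b c x₃, PL_phi a b c x₄} : Set V) ⊓ Submodule.span ℝ F = ⊥ :=
    (hcompl.disjoint.mono_left hle).eq_bot
  have hsum := Submodule.finrank_sup_add_finrank_inf_eq
    (Submodule.span ℝ ({PL_phi a b c x₃, PL_phi a b c x₄} : Set V)) (Submodule.span ℝ F)
  rw [hinf, finrank_bot, add_zero, hU2, ← Submodule.span_union] at hsum
  have hfr : Module.finrank ℝ (Submodule.span ℝ ({PL_phi a b c x₃, PL_phi a b c x₄} ∪ F)) = d := by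
    omega
  have hne : (Submodule.span ℝ ({PL_phi a b c x₃, PL_phi a b c x₄} ∪ F))ᗮ ≠ ⊥ := by
    rw [Ne, Submodule.orthogonal_eq_bot_iff]
    intro h
    rw [h, finrank_top, hd] at hfr
    omega
  obtain ⟨n, hn, hn0⟩ := Submodule.exists_mem_ne_zero_of_ne_bot hne
  rw [Submodule.mem_orthogonal] at hn
  have hperp : ∀ t ∈ ({PL_phi a b c x₃, PL_phi a b c x₄} ∪ F : Set V), ⟪t, n⟫ = 0 := fun t ht =>
    hn t (Submodule.subset_span ht)
  have hnN : n ∈ N := PL_JJ h1 (by
    rintro x ((rfl | rfl) | hx)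
    · exact h3
    · exact h4
    · exact hF hx) hfr hn0 hperp
  -- the functional on the plane
  let u : FAC3.E3 := !₂[⟪n, a⟫, ⟪n, b⟫, ⟪n, c⟫]
  have hu : ∀ x, ⟪n, PL_phi a b c x⟫ = ⟪u, x⟫ := by
    intro x
    rw [FAC3.inner_eq]
    unfold PL_phi
    rw [inner_add_right, inner_add_right, real_inner_smul_right, real_inner_smul_right, real_inner_smul_right]
    show _ = ⟪n, a⟫ * x 0 + ⟪n, b⟫ * x 1 + ⟪n, c⟫ * x 2
    ring
  have hu3 : ⟪x₃, u⟫ = 0 := by
    rw [real_inner_comm, ← hu, real_inner_comm]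
    exact hperp _ (Or.inl (Or.inl rfl))
  have hu4 : ⟪x₄, u⟫ = 0 := by
    rw [real_inner_comm, ← hu, real_inner_comm]
    exact hperp _ (Or.inl (Or.inr rfl))
  have hcr : FAC3.cr (FAC3.cr x₃ x₄) u = 0 := by
    rw [FAC3.cr_cr, hu3, hu4, zero_smul, zero_smul, sub_zero]
  have hut := FAC3.cr_eq_zero hw hcr
  obtain ⟨t, ht⟩ : ∃ t : ℝ, u = t • FAC3.cr x₃ x₄ := ⟨_, hut⟩
  refine ⟨n, hnN, t, ?_, ?_⟩
  · intro h0
    rw [h0, zero_smul] at ht
    have hz : ∀ x, ⟪n, PL_phi a b c x⟫ = 0 := by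
      intro x
      rw [hu, ht, inner_zero_left]
    have htop : n ∈ (⊤ : Submodule ℝ V)ᗮ := by
      rw [← hcompl.sup_eq_top, ← Submodule.span_union, Submodule.mem_orthogonal]
      intro v hv
      refine Submodule.span_induction (p := fun v _ => ⟪v, n⟫ = 0) ?_ ?_ ?_ ?_ hv
      · rintro x ((rfl | rfl | rfl) | hx)
        · have := hz !₂[1, 0, 0]
          rw [real_inner_comm]
          simpa [PL_phi] using this
        · have := hz !₂[0, 1, 0]
          rw [real_inner_comm]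
          simpa [PL_phi] using this
        · have := hz !₂[0, 0, 1]
          rw [real_inner_comm]
          simpa [PL_phi] using this
        · exact hperp x (Or.inr hx)
      · exact inner_zero_left n
      · intro x y _ _ hx hy
        rw [inner_add_left, hx, hy, add_zero]
      · intro r x _ hx
        rw [real_inner_smul_left, hx, mul_zero]
    rw [Submodule.top_orthogonal_eq_bot] at htop
    exact hn0 htop
  · intro x
    rw [hu, ht, real_inner_smul_left]

omit [MeasurableSpace V] [BorelSpace V] in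
theorem plane_full {d : ℕ} (hd : Module.finrank ℝ V = d + 1) (hd2 : 2 ≤ d) {S N : Set V} (hS : Submodule.span ℝ S = ⊤)
    (sS : SC S) (cS : IsClosed (S ∪ {0})) (h1 : JJ d S N) (h2 : JJ d N S) {a b c : V} (ha : a ∈ S) (hb : b ∈ S) (hc : c ∈ S)
    (hi : LinearIndependent ℝ ![a, b, c]) (hab : a + b ∈ S) (hbc : b + c ∈ S) :
    ∀ x ∈ Submodule.span ℝ {a, b, c}, x ≠ 0 → x ∈ S := by
  have hC : FAC3.Closed4 {x : FAC3.E3 | PL_phi a b c x ∈ S} := by
    constructor
    · intro v hv t ht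
      show PL_phi a b c (t • v) ∈ S
      rw [PL_smul]
      exact (sS _ t ht).2 hv
    · intro x₁ h₁ x₂ h₂ x₃ h₃ x₄ h₄ hne
      have hw : FAC3.cr x₃ x₄ ≠ 0 := by
        intro h
        rw [h, FAC3.cr_zero_right] at hne
        exact hne rfl
      obtain ⟨n, hn, t, ht, hnt⟩ := PL_normal hd hS h1 ha hb hc hi h₃ h₄ hw
      have hkey : ⟪n, PL_phi a b c x₁⟫ • PL_phi a b c x₂ - ⟪n, PL_phi a b c x₂⟫ • PL_phi a b c x₁ =
          t • PL_phi a b c (FAC3.cr (FAC3.cr x₁ x₂) (FAC3.cr x₃ x₄)) := by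
        rw [hnt, hnt, FAC3.cr_cr, PL_sub, PL_smul, PL_smul, smul_sub, smul_smul, smul_smul,
          real_inner_comm x₁, real_inner_comm x₂]
      have hx : ⟪n, PL_phi a b c x₁⟫ • PL_phi a b c x₂ - ⟪n, PL_phi a b c x₂⟫ • PL_phi a b c x₁ ≠ 0 := by
        rw [hkey]
        refine smul_ne_zero ht fun h => hne (PL_inj hi h)
      have h5 := PP hd hd2 hS h1 h2 h₂ h₁ hn hx
      rw [hkey] at h5
      exact (sS _ t ht).1 h5
  have m0 : (!₂[1, 0, 0] : FAC3.E3) ∈ {x : FAC3.E3 | PL_phi a b c x ∈ S} := by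
    show PL_phi a b c _ ∈ S
    have : PL_phi a b c !₂[1, 0, 0] = a := by simp [PL_phi]
    rw [this]
    exact ha
  have m1 : (!₂[0, 1, 0] : FAC3.E3) ∈ {x : FAC3.E3 | PL_phi a b c x ∈ S} := by
    show PL_phi a b c _ ∈ S
    have : PL_phi a b c !₂[0, 1, 0] = b := by simp [PL_phi]
    rw [this]
    exact hb
  have m2 : (!₂[0, 0, 1] : FAC3.E3) ∈ {x : FAC3.E3 | PL_phi a b c x ∈ S} := by
    show PL_phi a b c _ ∈ S
    have : PL_phi a b c !₂[0, 0, 1] = c := by simp [PL_phi]
    rw [this]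
    exact hc
  have m01 : (!₂[1, 1, 0] : FAC3.E3) ∈ {x : FAC3.E3 | PL_phi a b c x ∈ S} := by
    show PL_phi a b c _ ∈ S
    have : PL_phi a b c !₂[1, 1, 0] = a + b := by simp [PL_phi]
    rw [this]
    exact hab
  have m12 : (!₂[0, 1, 1] : FAC3.E3) ∈ {x : FAC3.E3 | PL_phi a b c x ∈ S} := by
    show PL_phi a b c _ ∈ S
    have : PL_phi a b c !₂[0, 1, 1] = b + c := by simp [PL_phi]
    rw [this]
    exact hbc
  have hcr : FAC3.cr (FAC3.cr !₂[1, 0, 0] !₂[0, 1, 1]) (FAC3.cr !₂[0, 0, 1] !₂[1, 1, 0]) =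
      (-1 : ℝ) • (!₂[1, 1, 1] : FAC3.E3) := by
    ext i
    fin_cases i <;> simp [FAC3.cr]
  have hne1 : (-1 : ℝ) • (!₂[1, 1, 1] : FAC3.E3) ≠ 0 := by
    intro h
    have h5 := congrArg (fun v : FAC3.E3 => v 0) h
    simp at h5
  have m3 : (!₂[1, 1, 1] : FAC3.E3) ∈ {x : FAC3.E3 | PL_phi a b c x ∈ S} := by
    have h5 := hC.meet _ m0 _ m12 _ m2 _ m01 (by rw [hcr]; exact hne1)
    rw [hcr] at h5
    have h6 := hC.smul _ h5 (-1) (by norm_num)
    rwa [smul_smul, neg_mul_neg, one_mul, one_smul] at h6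
  have hgen : FAC3.Gen4 !₂[1, 0, 0] !₂[0, 1, 0] !₂[0, 0, 1] !₂[1, 1, 1] := by
    refine ⟨?_, ?_, ?_, ?_⟩ <;> rw [FAC3.inner_eq] <;> simp [FAC3.cr]
  obtain ⟨e₁, e₂, e₃, he, hrat⟩ := FAC3.DNa hC m0 m1 m2 m3 hgen
  have hdense := FAC3.DNb hC he hrat
  have hcont : Continuous (PL_phi a b c) := by
    unfold PL_phi
    have hp : ∀ i : Fin 3, Continuous fun x : FAC3.E3 => x i := fun i =>
      (EuclideanSpace.proj (𝕜 := ℝ) i).continuous
    exact (((hp 0).smul continuous_const).add ((hp 1).smul continuous_const)).add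
      ((hp 2).smul continuous_const)
  have hcl : IsClosed (PL_phi a b c ⁻¹' (S ∪ {0})) := cS.preimage hcont
  have hall : PL_phi a b c ⁻¹' (S ∪ {0}) = Set.univ := by
    have h5 : Dense (PL_phi a b c ⁻¹' (S ∪ {0})) := hdense.mono fun x hx => Or.inl hx
    rw [← hcl.closure_eq]
    exact h5.closure_eq
  intro x hx hx0
  obtain ⟨r, s, t, hrst⟩ := Submodule.mem_span_triple.1 hx
  have h5 : (!₂[r, s, t] : FAC3.E3) ∈ PL_phi a b c ⁻¹' (S ∪ {0}) := by
    rw [hall]
    exact Set.mem_univ _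
  have h6 : PL_phi a b c !₂[r, s, t] = x := by
    rw [← hrst]
    simp [PL_phi]
  rw [Set.mem_preimage, h6] at h5
  exact h5.resolve_right hx0

end Pool.Agent.NSB
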