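import Pool.Agent.NSB.Defs

/-! Module NSB-PP: linear algebra for `j = d - 1` (`d + 1 = finrank`): property (P).

The vectors `a, b` are completed by elements of `S` to a basis; the vectors of the dual basis belong to `N` (`h1`), and together
with `n` they are `d` independent vectors of `N` orthogonal to `⟪n, b⟫ • a - ⟪n, a⟫ • b` (`h2`). -/

set_option autoImplicit false

namespace Pool.Agent.NSB

open MeasureTheory ProbabilityTheory Set Filter Topology Metric
open Pool.Agent.Helper82.Proj1 (supp shadow kappa)
open Pool.Agent.HP89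
open scoped RealInnerProductSpace ENNReal Pointwise

variable {V : Type*} [NormedAddCommGroup V] [InnerProductSpace ℝ V] [FiniteDimensional ℝ V]
  [MeasurableSpace V] [BorelSpace V]

omit [FiniteDimensional ℝ V] [MeasurableSpace V] [BorelSpace V] in
private theorem PP_JJ {j : ℕ} {S N : Set V} (h : JJ j S N) {ι : Type*} [Fintype ι] (hc : Fintype.card ι = j)
    (a : ι → V) (ha : ∀ i, a i ∈ S) (hli : LinearIndependent ℝ a) {v : V} (hv : v ≠ 0)
    (ho : ∀ i, ⟪a i, v⟫ = 0) : v ∈ N := by
  let e : Fin j ≃ ι := (Fintype.equivFinOfCardEq hc).symm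
  exact h (fun i => a (e i)) (fun i => ha _) (hli.comp e e.injective) v hv fun i => ho _

omit [MeasurableSpace V] [BorelSpace V] in
theorem PP {d : ℕ} (hd : Module.finrank ℝ V = d + 1) (hd2 : 2 ≤ d) {S N : Set V} (hS : Submodule.span ℝ S = ⊤)
    (h1 : JJ d S N) (h2 : JJ d N S) {a b n : V} (ha : a ∈ S) (hb : b ∈ S) (hn : n ∈ N)
    (hx : ⟪n, b⟫ • a - ⟪n, a⟫ • b ≠ 0) : ⟪n, b⟫ • a - ⟪n, a⟫ • b ∈ S := by
  classical
  have hab : LinearIndependent ℝ ![a, b] := by
    rw [LinearIndependent.pair_iff]
    intro s t hst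
    by_contra hne
    apply hx
    by_cases hs : s = 0
    · have ht : t ≠ 0 := fun ht => hne ⟨hs, ht⟩
      rw [hs, zero_smul, zero_add] at hst
      have hb0 : b = 0 := (smul_eq_zero.1 hst).resolve_left ht
      rw [hb0, inner_zero_right, zero_smul, smul_zero, sub_zero]
    · have ha' : a = (-(t / s)) • b := by
        have h3 : s • a = (-t) • b := by
          rw [neg_smul]
          exact eq_neg_of_add_eq_zero_left hst
        calc a = s⁻¹ • (s • a) := by rw [smul_smul, inv_mul_cancel₀ hs, one_smul]
          _ = (-(t / s)) • b := by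
            rw [h3, smul_smul]
            congr 1
            field_simp
      rw [ha', inner_smul_right, smul_smul, mul_comm, sub_self]
  have hne : a ≠ b := by
    intro h
    apply hx
    rw [h, sub_self]
  have hS2 : ({a, b} : Set V) ⊆ S := by
    rintro y (rfl | rfl)
    · exact ha
    · exact hb
  have hid : LinearIndepOn ℝ id ({a, b} : Set V) := by
    have h3 := hab.linearIndepOn_id
    have h4 : Set.range ![a, b] = ({a, b} : Set V) := by
      ext y
      simp only [Set.mem_range, Set.mem_insert_iff, Set.mem_singleton_iff, Fin.exists_fin_two,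
        Matrix.cons_val_zero, Matrix.cons_val_one]
      constructor
      · rintro (h | h)
        · exact Or.inl h.symm
        · exact Or.inr h.symm
      · rintro (h | h)
        · exact Or.inl h.symm
        · exact Or.inr h.symm
    rwa [h4] at h3
  obtain ⟨B, hB1, hB2, hB3, hB4⟩ : ∃ B : Set V, ({a, b} : Set V) ⊆ B ∧ B ⊆ S ∧
      LinearIndependent ℝ (fun y : B => (y : V)) ∧ Submodule.span ℝ B = ⊤ :=
    ⟨hid.extend hS2, hid.subset_extend hS2, hid.extend_subset hS2, hid.linearIndepOn_extend hS2,
      (hid.span_extend_eq_span hS2).trans hS⟩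
  let β : Module.Basis B ℝ V := Module.Basis.mk hB3 (by
    rw [Subtype.range_coe, hB4])
  have hβ : ∀ y : B, β y = (y : V) := fun y => Module.Basis.mk_apply _ _ y
  have : Fintype B := FiniteDimensional.fintypeBasisIndex β
  have hcard : Fintype.card B = d + 1 := by
    rw [← hd, Module.finrank_eq_card_basis β]
  let c : B → V := fun y => (InnerProductSpace.toDual ℝ V).symm (LinearMap.toContinuousLinearMap (β.coord y))
  have hc : ∀ y : B, ∀ v : V, ⟪c y, v⟫ = β.coord y v := by
    intro y v
    exact InnerProductSpace.toDual_symm_apply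
  have hc1 : ∀ y : B, ⟪c y, (y : V)⟫ = 1 := by
    intro y
    rw [hc, ← hβ y, Module.Basis.coord_apply, Module.Basis.repr_self, Finsupp.single_eq_same]
  have hc0 : ∀ y z : B, z ≠ y → ⟪c y, (z : V)⟫ = 0 := by
    intro y z hyz
    rw [hc, ← hβ z, Module.Basis.coord_apply, Module.Basis.repr_self, Finsupp.single_eq_of_ne hyz.symm]
  have hcN : ∀ y : B, c y ∈ N := by
    intro y
    have hcy : c y ≠ 0 := by
      intro h
      have := hc1 y
      rw [h, inner_zero_left] at this
      exact zero_ne_one this
    refine PP_JJ h1 (ι := {z : B // z ≠ y}) ?_ (fun z => ((z : B) : V)) (fun z => hB2 z.1.2)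
      (hB3.comp (fun z : {z : B // z ≠ y} => (z : B)) Subtype.val_injective) hcy ?_
    · have h3 := Set.card_ne_eq y
      have h4 : Fintype.card {z : B // z ≠ y} = Fintype.card B - 1 := by
        rw [← h3]
        exact Fintype.card_congr (Equiv.refl _)
      rw [h4, hcard, Nat.add_sub_cancel]
    · rintro ⟨z, hz⟩
      rw [real_inner_comm]
      exact hc0 y z hz
  let a' : B := ⟨a, hB1 (Or.inl rfl)⟩
  let b' : B := ⟨b, hB1 (Or.inr rfl)⟩
  have hab' : a' ≠ b' := fun h => hne (congrArg Subtype.val h)
  have hcard2 : Fintype.card (Option {z : B // z ≠ a' ∧ z ≠ b'}) = d := by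
    rw [Fintype.card_option]
    have h3 : Fintype.card {z : B // z ≠ a' ∧ z ≠ b'} = (Finset.univ \ {a', b'} : Finset B).card := by
      rw [Fintype.card_subtype]
      congr 1
      ext z
      simp
    rw [h3, Finset.card_sdiff_of_subset (Finset.subset_univ _), Finset.card_univ, Finset.card_pair hab', hcard]
    omega
  refine PP_JJ h2 hcard2 (fun o => o.elim n fun z => c z.1) ?_ ?_ hx ?_
  · rintro (_ | z)
    · exact hn
    · exact hcN z.1
  · rw [Fintype.linearIndependent_iff]
    intro g hg
    rw [Fintype.sum_option] at hg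
    simp only [Option.elim_none, Option.elim_some] at hg
    have hin : ∀ v : V, g none * ⟪n, v⟫ + ∑ z : {z : B // z ≠ a' ∧ z ≠ b'}, g (some z) * ⟪c z.1, v⟫ = 0 := by
      intro v
      have h3 := congrArg (fun w => ⟪w, v⟫) hg
      simp only [inner_add_left, inner_smul_left, sum_inner, inner_zero_left, RCLike.conj_to_real] at h3
      exact h3
    have hna : g none * ⟪n, a⟫ = 0 := by
      have h3 := hin a
      rw [Finset.sum_eq_zero, add_zero] at h3
      · exact h3
      · rintro ⟨z, hz⟩ _
        rw [hc0 z a' (Ne.symm hz.1), mul_zero]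
    have hnb : g none * ⟪n, b⟫ = 0 := by
      have h3 := hin b
      rw [Finset.sum_eq_zero, add_zero] at h3
      · exact h3
      · rintro ⟨z, hz⟩ _
        rw [hc0 z b' (Ne.symm hz.2), mul_zero]
    have hg0 : g none = 0 := by
      by_contra h0
      have h3 : ⟪n, a⟫ = 0 := (mul_eq_zero.1 hna).resolve_left h0
      have h4 : ⟪n, b⟫ = 0 := (mul_eq_zero.1 hnb).resolve_left h0
      apply hx
      rw [h3, h4, zero_smul, zero_smul, sub_zero]
    rintro (_ | z)
    · exact hg0
    · have h3 := hin (z.1 : V)
      rw [hg0, zero_mul, zero_add, Finset.sum_eq_single z] at h3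
      · rwa [hc1, mul_one] at h3
      · intro y _ hy
        rw [hc0 y.1 z.1 (fun h => hy (Subtype.ext h.symm)), mul_zero]
      · intro h
        exact absurd (Finset.mem_univ z) h
  · rintro (_ | z)
    · change ⟪n, ⟪n, b⟫ • a - ⟪n, a⟫ • b⟫ = 0
      rw [inner_sub_right, inner_smul_right, inner_smul_right, mul_comm, sub_self]
    · change ⟪c z.1, ⟪n, b⟫ • a - ⟪n, a⟫ • b⟫ = 0
      rw [inner_sub_right, inner_smul_right, inner_smul_right, hc0 z.1 a' (Ne.symm z.2.1),
        hc0 z.1 b' (Ne.symm z.2.2), mul_zero, mul_zero, sub_zero]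

end Pool.Agent.NSB
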