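import Pool.Agent.NSB.SG
import Pool.Agent.NSB.ID
import Pool.Agent.NSB.CN
import Pool.Agent.NSB.PO

/-! Module NSB-PSM: the pair of measures of a direct sum.

Both cosine transforms of the pair are computed with the volume functional of a direct sum (`iter_sum`), once for the two
inclusions and once for the adjoints of the two projections; the factors are fixed by the identity of the constants of a pair
(`const_eq`). -/

set_option autoImplicit false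

namespace Pool.Agent.NSB

open MeasureTheory ProbabilityTheory Set Filter Topology Metric
open Pool.Agent.Helper82.Proj1 (supp shadow kappa)
open Pool.Agent.HP89
open scoped RealInnerProductSpace ENNReal Pointwise

variable {V : Type*} [NormedAddCommGroup V] [InnerProductSpace ℝ V] [FiniteDimensional ℝ V]
  [MeasurableSpace V] [BorelSpace V]

omit [FiniteDimensional ℝ V] [MeasurableSpace V] [BorelSpace V] in
private theorem PSM_cont {U₁ : Type*} [NormedAddCommGroup U₁] [InnerProductSpace ℝ U₁] [FiniteDimensional ℝ U₁]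
    (T : U₁ →ₗ[ℝ] V) : Continuous T := T.continuous_of_finiteDimensional

private theorem PSM_Jc_map {U₁ : Type*} [NormedAddCommGroup U₁] [InnerProductSpace ℝ U₁] [FiniteDimensional ℝ U₁]
    [MeasurableSpace U₁] [BorelSpace U₁] (T : U₁ →ₗ[ℝ] V) (ρ : Measure U₁) (u : V) :
    Jc (ρ.map T) u = Jc ρ (LinearMap.adjoint T u) := by
  unfold Jc
  rw [lintegral_map]
  · refine lintegral_congr fun x => ?_
    rw [LinearMap.adjoint_inner_right]
  · exact (Continuous.abs (continuous_id.inner continuous_const)).measurable.ennreal_ofReal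
  · exact (PSM_cont T).measurable

omit [FiniteDimensional ℝ V] [BorelSpace V] in
private theorem PSM_Jc_add (ρ σ : Measure V) (u : V) : Jc (ρ + σ) u = Jc ρ u + Jc σ u := by
  unfold Jc
  rw [lintegral_add_measure]

omit [FiniteDimensional ℝ V] [BorelSpace V] in
private theorem PSM_Jc_smul (c : ℝ≥0∞) (ρ : Measure V) (u : V) : Jc (c • ρ) u = c * Jc ρ u := by
  unfold Jc
  rw [lintegral_smul_measure, smul_eq_mul]

private theorem PSM_int_map {U₁ : Type*} [NormedAddCommGroup U₁] [InnerProductSpace ℝ U₁] [FiniteDimensional ℝ U₁]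
    [MeasurableSpace U₁] [BorelSpace U₁] (T : U₁ →ₗ[ℝ] V) (ρ : Measure U₁) (h : Integrable (fun x => ‖x‖) ρ) :
    Integrable (fun x => ‖x‖) (ρ.map T) := by
  rw [integrable_map_measure continuous_norm.aestronglyMeasurable (PSM_cont T).measurable.aemeasurable]
  refine Integrable.mono' (h.const_mul ‖LinearMap.toContinuousLinearMap T‖) ?_ ?_
  · exact (continuous_norm.comp (PSM_cont T)).aestronglyMeasurable
  · refine Eventually.of_forall fun x => ?_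
    simp only [Function.comp_apply, norm_norm]
    exact (LinearMap.toContinuousLinearMap T).le_opNorm x

omit [FiniteDimensional ℝ V] [MeasurableSpace V] [BorelSpace V] in
private theorem PSM_wn_nil : wn ([] : List V) ≠ 0 := by
  have h : wn ([] : List V) = 1 := rfl
  rw [h]
  exact one_ne_zero

private theorem PSM_iter_fin {ν : Measure V} {l : ℕ} [IsFiniteMeasure ν] (h : Integrable (fun x => ‖x‖) ν) :
    iter ν l ew [] ≠ ⊤ := (iter_ew_lt_top ν h l []).ne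

private theorem PSM_alg {J I c : ℝ≥0∞} (h0 : c ≠ 0) (ht : c ≠ ⊤) (h : J = c * I) : I = c⁻¹ * J := by
  rw [h, ← mul_assoc, ENNReal.inv_mul_cancel h0 ht, one_mul]

private theorem PSM_inv {I I' c c' : ℝ≥0∞} (h0 : c ≠ 0) (ht : c ≠ ⊤) (h0' : c' ≠ 0) (ht' : c' ≠ ⊤)
    (h : c * I = c' * I') : I * c'⁻¹ = I' * c⁻¹ := by
  calc I * c'⁻¹ = (c⁻¹ * c) * I * c'⁻¹ := by rw [ENNReal.inv_mul_cancel h0 ht, one_mul]
    _ = c⁻¹ * (c * I) * c'⁻¹ := by ring
    _ = c⁻¹ * (c' * I') * c'⁻¹ := by rw [h]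
    _ = (c'⁻¹ * c') * (I' * c⁻¹) := by ring
    _ = I' * c⁻¹ := by rw [ENNReal.inv_mul_cancel h0' ht', one_mul]

theorem par_sum {W₁ W₂ : Submodule ℝ V} (hW : IsCompl W₁ W₂) (h1 : W₁ ≠ ⊥) (h2 : W₂ ≠ ⊥) {μ₁ ν₁ : Measure W₁}
    {μ₂ ν₂ : Measure W₂} (g1 : Par (Module.finrank ℝ W₁ - 1) μ₁ ν₁) (g2 : Par (Module.finrank ℝ W₂ - 1) μ₂ ν₂) :
    ∃ β₁ β₂ : ℝ≥0∞, β₁ ≠ ⊤ ∧ β₂ ≠ ⊤ ∧ Par (Module.finrank ℝ V - 1)
      (β₁ • μ₁.map (LinearMap.adjoint (W₁.projectionOnto W₂ hW)) +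
        β₂ • μ₂.map (LinearMap.adjoint (W₂.projectionOnto W₁ hW.symm)))
      ((1 : ℝ≥0∞) • ν₁.map W₁.subtype + (1 : ℝ≥0∞) • ν₂.map W₂.subtype) := by
  classical
  have hfm1 := g1.f1
  have hfn1 := g1.f2
  have hfm2 := g2.f1
  have hfn2 := g2.f2
  obtain ⟨c₁', hc10', hc1t', hc1'⟩ := g1.c1
  obtain ⟨c₁, hc10, hc1t, hc1⟩ := g1.c2
  obtain ⟨c₂', hc20', hc2t', hc2'⟩ := g2.c1
  obtain ⟨c₂, hc20, hc2t, hc2⟩ := g2.c2
  have ha : 1 ≤ Module.finrank ℝ W₁ := by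
    have : Nontrivial W₁ := Submodule.nontrivial_iff_ne_bot.2 h1
    exact Module.finrank_pos
  have hb : 1 ≤ Module.finrank ℝ W₂ := by
    have : Nontrivial W₂ := Submodule.nontrivial_iff_ne_bot.2 h2
    exact Module.finrank_pos
  have hab : Module.finrank ℝ W₁ + Module.finrank ℝ W₂ = Module.finrank ℝ V :=
    Submodule.finrank_add_eq_of_isCompl hW
  have e1 : c₁ * iter ν₁ (Module.finrank ℝ W₁) ew [] = c₁' * iter μ₁ (Module.finrank ℝ W₁) ew [] := by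
    have h := const_eq hc1t hc1t' hc1 hc1'
    rwa [Nat.sub_add_cancel ha] at h
  have e2 : c₂ * iter ν₂ (Module.finrank ℝ W₂) ew [] = c₂' * iter μ₂ (Module.finrank ℝ W₂) ew [] := by
    have h := const_eq hc2t hc2t' hc2 hc2'
    rwa [Nat.sub_add_cancel hb] at h
  have hI1 : iter ν₁ (Module.finrank ℝ W₁) ew [] ≠ 0 :=
    iter_ew_ne g1.p2 _ [] PSM_wn_nil (by simp)
  have hI2 : iter ν₂ (Module.finrank ℝ W₂) ew [] ≠ 0 :=
    iter_ew_ne g2.p2 _ [] PSM_wn_nil (by simp)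
  have hI2' : iter μ₂ (Module.finrank ℝ W₂) ew [] ≠ 0 :=
    iter_ew_ne g2.p1 _ [] PSM_wn_nil (by simp)
  have hI1t : iter ν₁ (Module.finrank ℝ W₁) ew [] ≠ ⊤ := PSM_iter_fin g1.i2
  have hI2t : iter ν₂ (Module.finrank ℝ W₂) ew [] ≠ ⊤ := PSM_iter_fin g2.i2
  have hI2t' : iter μ₂ (Module.finrank ℝ W₂) ew [] ≠ ⊤ := PSM_iter_fin g2.i1
  have f1 := PSM_inv hc10 hc1t hc10' hc1t' e1
  have f2 := PSM_inv hc20 hc2t hc20' hc2t' e2
  generalize hI1d : iter ν₁ (Module.finrank ℝ W₁) ew [] = I₁ at *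
  generalize hI2d : iter ν₂ (Module.finrank ℝ W₂) ew [] = I₂ at *
  generalize hI1d' : iter μ₁ (Module.finrank ℝ W₁) ew [] = I₁' at *
  generalize hI2d' : iter μ₂ (Module.finrank ℝ W₂) ew [] = I₂' at *
  have hCa : (((Module.finrank ℝ V - 1).choose (Module.finrank ℝ W₁ - 1) : ℕ) : ℝ≥0∞) ≠ 0 := by
    have : (Module.finrank ℝ V - 1).choose (Module.finrank ℝ W₁ - 1) ≠ 0 := (Nat.choose_pos (by omega)).ne'
    exact_mod_cast this
  have hCb : (((Module.finrank ℝ V - 1).choose (Module.finrank ℝ W₂ - 1) : ℕ) : ℝ≥0∞) ≠ 0 := by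
    have : (Module.finrank ℝ V - 1).choose (Module.finrank ℝ W₂ - 1) ≠ 0 := (Nat.choose_pos (by omega)).ne'
    exact_mod_cast this
  have hCat : (((Module.finrank ℝ V - 1).choose (Module.finrank ℝ W₁ - 1) : ℕ) : ℝ≥0∞) ≠ ⊤ :=
    ENNReal.natCast_ne_top _
  have hCbt : (((Module.finrank ℝ V - 1).choose (Module.finrank ℝ W₂ - 1) : ℕ) : ℝ≥0∞) ≠ ⊤ :=
    ENNReal.natCast_ne_top _
  -- the linear algebra
  have l1 : ∀ w : W₁, W₁.projectionOnto W₂ hW (w : V) = w := fun w => by simp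
  have l2 : ∀ w : W₂, W₂.projectionOnto W₁ hW.symm (w : V) = w := fun w => by simp
  have l3 : ∀ w : W₂, W₁.projectionOnto W₂ hW (w : V) = 0 := fun w => by simp
  have l4 : ∀ w : W₁, W₂.projectionOnto W₁ hW.symm (w : V) = 0 := fun w => by simp
  have l5 : ∀ u : V, ((W₁.projectionOnto W₂ hW u : W₁) : V) + ((W₂.projectionOnto W₁ hW.symm u : W₂) : V) = u :=
    fun u => Submodule.projection_add_projection_eq_self hW u
  generalize hπ1 : W₁.projectionOnto W₂ hW = π₁ at *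
  generalize hπ2 : W₂.projectionOnto W₁ hW.symm = π₂ at *
  set q₁ := LinearMap.adjoint π₁ with hq1
  set q₂ := LinearMap.adjoint π₂ with hq2
  set P₁ := LinearMap.adjoint W₁.subtype with hP1
  set P₂ := LinearMap.adjoint W₂.subtype with hP2
  have aq1 : LinearMap.adjoint q₁ = π₁ := LinearMap.adjoint_adjoint π₁
  have aq2 : LinearMap.adjoint q₂ = π₂ := LinearMap.adjoint_adjoint π₂
  have m1 : ∀ w : W₁, P₁ (q₁ w) = w := by
    intro w
    refine ext_inner_right ℝ fun v => ?_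
    rw [hP1, LinearMap.adjoint_inner_left, hq1, LinearMap.adjoint_inner_left]
    simp only [Submodule.subtype_apply, l1]
  have m2 : ∀ w : W₂, P₂ (q₂ w) = w := by
    intro w
    refine ext_inner_right ℝ fun v => ?_
    rw [hP2, LinearMap.adjoint_inner_left, hq2, LinearMap.adjoint_inner_left]
    simp only [Submodule.subtype_apply, l2]
  have m3 : ∀ w : W₂, P₁ (q₂ w) = 0 := by
    intro w
    refine ext_inner_right ℝ fun v => ?_
    rw [hP1, LinearMap.adjoint_inner_left, hq2, LinearMap.adjoint_inner_left]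
    simp only [Submodule.subtype_apply, l4, inner_zero_right, inner_zero_left]
  have m4 : ∀ w : W₁, P₂ (q₁ w) = 0 := by
    intro w
    refine ext_inner_right ℝ fun v => ?_
    rw [hP2, LinearMap.adjoint_inner_left, hq1, LinearMap.adjoint_inner_left]
    simp only [Submodule.subtype_apply, l3, inner_zero_right, inner_zero_left]
  have m5 : ∀ u : V, q₁ (P₁ u) + q₂ (P₂ u) = u := by
    intro u
    refine ext_inner_right ℝ fun v => ?_
    have t1 : ⟪q₁ (P₁ u), v⟫ = ⟪u, ((π₁ v : W₁) : V)⟫ := by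
      rw [hq1, LinearMap.adjoint_inner_left, hP1, LinearMap.adjoint_inner_left]
      rfl
    have t2 : ⟪q₂ (P₂ u), v⟫ = ⟪u, ((π₂ v : W₂) : V)⟫ := by
      rw [hq2, LinearMap.adjoint_inner_left, hP2, LinearMap.adjoint_inner_left]
      rfl
    rw [inner_add_left, t1, t2, ← inner_add_right, l5]
  have hT1 : IsCompl (LinearMap.range W₁.subtype) (LinearMap.range W₂.subtype) := by
    rw [Submodule.range_subtype, Submodule.range_subtype]
    exact hW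
  have hT2 : IsCompl (LinearMap.range q₁) (LinearMap.range q₂) := by
    constructor
    · rw [Submodule.disjoint_def]
      rintro x ⟨y, rfl⟩ ⟨z, hz⟩
      have h := m1 y
      rw [← hz, m3] at h
      rw [← h, map_zero]
    · rw [codisjoint_iff, eq_top_iff]
      intro u _
      rw [← m5 u]
      exact Submodule.add_mem_sup ⟨_, rfl⟩ ⟨_, rfl⟩
  have hinj1 : Function.Injective q₁ := Function.LeftInverse.injective m1
  have hinj2 : Function.Injective q₂ := Function.LeftInverse.injective m2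
  obtain ⟨e, he0, het, he⟩ := iter_sum W₁.subtype W₂.subtype (Submodule.subtype_injective _)
    (Submodule.subtype_injective _) hT1 ha hb
  obtain ⟨e', he0', het', he'⟩ := iter_sum q₁ q₂ hinj1 hinj2 hT2 ha hb
  generalize hCad : (((Module.finrank ℝ V - 1).choose (Module.finrank ℝ W₁ - 1) : ℕ) : ℝ≥0∞) = Ca at *
  generalize hCbd : (((Module.finrank ℝ V - 1).choose (Module.finrank ℝ W₂ - 1) : ℕ) : ℝ≥0∞) = Cb at *
  have hb1t : Ca * I₂ * c₁⁻¹ ≠ ⊤ := ENNReal.mul_ne_top (ENNReal.mul_ne_top hCat hI2t) (ENNReal.inv_ne_top.2 hc10)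
  have hb2t : Cb * I₁ * c₂⁻¹ ≠ ⊤ := ENNReal.mul_ne_top (ENNReal.mul_ne_top hCbt hI1t) (ENNReal.inv_ne_top.2 hc20)
  have hb10 : Ca * I₂ * c₁⁻¹ ≠ 0 := mul_ne_zero (mul_ne_zero hCa hI2) (ENNReal.inv_ne_zero.2 hc1t)
  have hb20 : Cb * I₁ * c₂⁻¹ ≠ 0 := mul_ne_zero (mul_ne_zero hCb hI1) (ENNReal.inv_ne_zero.2 hc2t)
  have hJ : ∀ (β₁ β₂ : ℝ≥0∞) (u : V), Jc (β₁ • μ₁.map q₁ + β₂ • μ₂.map q₂) u =
      β₁ * Jc μ₁ (π₁ u) + β₂ * Jc μ₂ (π₂ u) := by
    intro β₁ β₂ u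
    rw [PSM_Jc_add, PSM_Jc_smul, PSM_Jc_smul, PSM_Jc_map, PSM_Jc_map, aq1, aq2]
  have hJ' : ∀ u : V, Jc ((1 : ℝ≥0∞) • ν₁.map W₁.subtype + (1 : ℝ≥0∞) • ν₂.map W₂.subtype) u =
      Jc ν₁ (P₁ u) + Jc ν₂ (P₂ u) := by
    intro u
    rw [one_smul, one_smul, PSM_Jc_add, PSM_Jc_map, PSM_Jc_map]
  refine ⟨Ca * I₂ * c₁⁻¹, Cb * I₁ * c₂⁻¹, hb1t, hb2t, ?_⟩
  constructor
  · have i1 : IsFiniteMeasure ((Ca * I₂ * c₁⁻¹) • μ₁.map q₁) := Measure.smul_finite _ hb1t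
    have i2 : IsFiniteMeasure ((Cb * I₁ * c₂⁻¹) • μ₂.map q₂) := Measure.smul_finite _ hb2t
    infer_instance
  · rw [one_smul, one_smul]
    infer_instance
  · exact ((PSM_int_map q₁ μ₁ g1.i1).smul_measure hb1t).add_measure ((PSM_int_map q₂ μ₂ g2.i1).smul_measure hb2t)
  · rw [one_smul, one_smul]
    exact (PSM_int_map W₁.subtype ν₁ g1.i2).add_measure (PSM_int_map W₂.subtype ν₂ g2.i2)
  · have k0 : e' * (Ca * I₂ * c₁⁻¹) ^ (Module.finrank ℝ W₁ - 1) * (Cb * I₁ * c₂⁻¹) ^ (Module.finrank ℝ W₂ - 1) *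
        (Ca * Cb * (I₁ * c₁'⁻¹) * (I₂' * c₂⁻¹)) ≠ 0 :=
      mul_ne_zero (mul_ne_zero (mul_ne_zero he0' (pow_ne_zero _ hb10)) (pow_ne_zero _ hb20))
        (mul_ne_zero (mul_ne_zero (mul_ne_zero hCa hCb) (mul_ne_zero hI1 (ENNReal.inv_ne_zero.2 hc1t')))
          (mul_ne_zero hI2' (ENNReal.inv_ne_zero.2 hc2t)))
    have kt : e' * (Ca * I₂ * c₁⁻¹) ^ (Module.finrank ℝ W₁ - 1) * (Cb * I₁ * c₂⁻¹) ^ (Module.finrank ℝ W₂ - 1) *
        (Ca * Cb * (I₁ * c₁'⁻¹) * (I₂' * c₂⁻¹)) ≠ ⊤ :=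
      ENNReal.mul_ne_top (ENNReal.mul_ne_top (ENNReal.mul_ne_top het' (ENNReal.pow_ne_top hb1t))
        (ENNReal.pow_ne_top hb2t))
        (ENNReal.mul_ne_top (ENNReal.mul_ne_top (ENNReal.mul_ne_top hCat hCbt)
          (ENNReal.mul_ne_top hI1t (ENNReal.inv_ne_top.2 hc10')))
          (ENNReal.mul_ne_top hI2t' (ENNReal.inv_ne_top.2 hc20)))
    refine ⟨_, ENNReal.inv_ne_zero.2 kt, ENNReal.inv_ne_top.2 k0, fun u => ?_⟩
    have i1 : IsFiniteMeasure ((Ca * I₂ * c₁⁻¹) • μ₁) := Measure.smul_finite _ hb1t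
    have i2 : IsFiniteMeasure ((Cb * I₁ * c₂⁻¹) • μ₂) := Measure.smul_finite _ hb2t
    have h := he' ((Ca * I₂ * c₁⁻¹) • μ₁) ((Cb * I₁ * c₂⁻¹) • μ₂) (g1.i1.smul_measure hb1t)
      (g2.i1.smul_measure hb2t) (P₁ u) (P₂ u)
    rw [m5, Measure.map_smul, Measure.map_smul, iter_smul_measure _ _ _ _ hb1t, iter_smul_measure _ _ _ _ hb1t,
      iter_smul_measure _ _ _ _ hb2t, iter_smul_measure _ _ _ _ hb2t, hI1d', hI2d',
      PSM_alg hc10' hc1t' (hc1' (P₁ u)), PSM_alg hc20' hc2t' (hc2' (P₂ u))] at h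
    rw [hJ' u]
    refine PSM_alg k0 kt ?_
    rw [h]
    obtain ⟨a, ha'⟩ : ∃ a, Module.finrank ℝ W₁ = a + 1 := ⟨_, (Nat.sub_add_cancel ha).symm⟩
    obtain ⟨b, hb'⟩ : ∃ b, Module.finrank ℝ W₂ = b + 1 := ⟨_, (Nat.sub_add_cancel hb).symm⟩
    rw [ha', hb', Nat.add_sub_cancel, Nat.add_sub_cancel, pow_succ, pow_succ]
    calc e' * (Ca * ((Cb * I₁ * c₂⁻¹) ^ b * (Cb * I₁ * c₂⁻¹) * I₂') * ((Ca * I₂ * c₁⁻¹) ^ a * (c₁'⁻¹ * Jc ν₁ (P₁ u))) +
          Cb * ((Ca * I₂ * c₁⁻¹) ^ a * (Ca * I₂ * c₁⁻¹) * I₁') * ((Cb * I₁ * c₂⁻¹) ^ b * (c₂'⁻¹ * Jc ν₂ (P₂ u))))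
        = e' * (Ca * I₂ * c₁⁻¹) ^ a * (Cb * I₁ * c₂⁻¹) ^ b *
            (Ca * Cb * (I₁ * c₁'⁻¹) * (I₂' * c₂⁻¹) * Jc ν₁ (P₁ u) +
              Ca * Cb * (I₁' * c₁⁻¹) * (I₂ * c₂'⁻¹) * Jc ν₂ (P₂ u)) := by ring
      _ = e' * (Ca * I₂ * c₁⁻¹) ^ a * (Cb * I₁ * c₂⁻¹) ^ b * (Ca * Cb * (I₁ * c₁'⁻¹) * (I₂' * c₂⁻¹)) *
            (Jc ν₁ (P₁ u) + Jc ν₂ (P₂ u)) := by
          rw [← f1, f2]
          ring
  · refine ⟨e⁻¹, ENNReal.inv_ne_zero.2 het, ENNReal.inv_ne_top.2 he0, fun u => ?_⟩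
    have h := he ν₁ ν₂ g1.i2 g2.i2 (π₁ u) (π₂ u)
    simp only [Submodule.subtype_apply] at h
    rw [l5, hI1d, hI2d, PSM_alg hc10 hc1t (hc1 (π₁ u)), PSM_alg hc20 hc2t (hc2 (π₂ u))] at h
    rw [hJ, one_smul, one_smul]
    refine PSM_alg he0 het ?_
    rw [h]
    ring
  · intro u hu h0
    rw [hJ] at h0
    rw [add_eq_zero] at h0
    have z1 : π₁ u = 0 := by
      by_contra hne
      exact g1.p1 _ hne ((mul_eq_zero.1 h0.1).resolve_left hb10)
    have z2 : π₂ u = 0 := by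
      by_contra hne
      exact g2.p1 _ hne ((mul_eq_zero.1 h0.2).resolve_left hb20)
    have h := l5 u
    rw [z1, z2] at h
    exact hu (by rw [← h]; simp)
  · intro u hu h0
    rw [hJ'] at h0
    rw [add_eq_zero] at h0
    have z1 : P₁ u = 0 := by
      by_contra hne
      exact g1.p2 _ hne h0.1
    have z2 : P₂ u = 0 := by
      by_contra hne
      exact g2.p2 _ hne h0.2
    have h := m5 u
    rw [z1, z2, map_zero, map_zero, add_zero] at h
    exact hu h.symm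

end Pool.Agent.NSB
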