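import Pool.Agent.NSB.WS
import Pool.Agent.NSB.DET

/-! Module NSB-WD: volumes in a direct sum, from `wn_split` for `W = range T₁`, and `wn_det` for `U₁ ≃ W` and `U₂ ≃ Wᗮ`. -/

set_option autoImplicit false

namespace Pool.Agent.NSB

open MeasureTheory ProbabilityTheory Set Filter Topology Metric
open Pool.Agent.Helper82.Proj1 (supp shadow kappa)
open Pool.Agent.HP89
open scoped RealInnerProductSpace ENNReal Pointwise

variable {V : Type*} [NormedAddCommGroup V] [InnerProductSpace ℝ V] [FiniteDimensional ℝ V]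
  [MeasurableSpace V] [BorelSpace V]

omit [MeasurableSpace V] [BorelSpace V] in
theorem wn_det2 {U₁ U₂ : Type*} [NormedAddCommGroup U₁] [InnerProductSpace ℝ U₁] [FiniteDimensional ℝ U₁]
    [NormedAddCommGroup U₂] [InnerProductSpace ℝ U₂] [FiniteDimensional ℝ U₂]
    (T₁ : U₁ →ₗ[ℝ] V) (T₂ : U₂ →ₗ[ℝ] V) (h1 : Function.Injective T₁) (h2 : Function.Injective T₂)
    (hc : IsCompl (LinearMap.range T₁) (LinearMap.range T₂)) :
    ∃ e : ℝ, 0 < e ∧ ∀ (Z : List U₂) (X : List U₁), Z.length = Module.finrank ℝ U₂ → X.length = Module.finrank ℝ U₁ →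
      wn (Z.map T₂ ++ X.map T₁) = e * (wn Z * wn X) := by
  obtain ⟨δ₁, hδ₁, hX₁⟩ := wn_det (LinearEquiv.ofInjective T₁ h1)
  have hf1 : Module.finrank ℝ (LinearMap.range T₁) = Module.finrank ℝ U₁ :=
    (LinearEquiv.ofInjective T₁ h1).finrank_eq.symm
  have hf2 : Module.finrank ℝ (LinearMap.range T₂) = Module.finrank ℝ U₂ :=
    (LinearEquiv.ofInjective T₂ h2).finrank_eq.symm
  have hdim : Module.finrank ℝ U₂ = Module.finrank ℝ (LinearMap.range T₁)ᗮ := by
    have h3 := Submodule.finrank_add_eq_of_isCompl hc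
    have h4 := Submodule.finrank_add_finrank_orthogonal (LinearMap.range T₁)
    omega
  set f : U₂ →ₗ[ℝ] (LinearMap.range T₁)ᗮ :=
    ((LinearMap.range T₁)ᗮ.orthogonalProjectionOnto : V →L[ℝ] (LinearMap.range T₁)ᗮ).toLinearMap ∘ₗ T₂ with hf
  have hfz : ∀ z, ((f z : (LinearMap.range T₁)ᗮ) : V) = (LinearMap.range T₁)ᗮ.starProjection (T₂ z) := fun z => rfl
  have hinj : Function.Injective f := by
    rw [← LinearMap.ker_eq_bot, LinearMap.ker_eq_bot']
    intro z hz
    have h3 : (LinearMap.range T₁)ᗮ.starProjection (T₂ z) = 0 := by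
      rw [← hfz, hz]
      rfl
    have h4 : T₂ z ∈ (LinearMap.range T₁)ᗮᗮ :=
      (Submodule.starProjection_apply_eq_zero_iff _).1 h3
    rw [Submodule.orthogonal_orthogonal] at h4
    have h5 : T₂ z ∈ LinearMap.range T₁ ⊓ LinearMap.range T₂ := ⟨h4, LinearMap.mem_range_self T₂ z⟩
    rw [hc.inf_eq_bot, Submodule.mem_bot] at h5
    exact h2 (by rw [h5, map_zero])
  obtain ⟨δ₂, hδ₂, hZ₂⟩ := wn_det (LinearMap.linearEquivOfInjective f hinj hdim)
  refine ⟨δ₁ * δ₂, mul_pos hδ₁ hδ₂, fun Z X hZ hX => ?_⟩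
  rw [wn_split (W := LinearMap.range T₁) (X := X.map T₁) ?_ (by rw [List.length_map, hX, hf1])]
  · have h3 : X.map T₁ = (X.map (LinearEquiv.ofInjective T₁ h1)).map (LinearMap.range T₁).subtypeₗᵢ := by
      rw [List.map_map]
      rfl
    have h4 : (Z.map T₂).map (fun z => (LinearMap.range T₁)ᗮ.starProjection z) =
        (Z.map (LinearMap.linearEquivOfInjective f hinj hdim)).map (LinearMap.range T₁)ᗮ.subtypeₗᵢ := by
      rw [List.map_map, List.map_map]
      rfl
    rw [h3, h4, wn_map, wn_map, hX₁ X hX, hZ₂ Z hZ]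
    ring
  · intro x hx
    obtain ⟨y, -, rfl⟩ := List.mem_map.1 hx
    exact LinearMap.mem_range_self T₁ y

end Pool.Agent.NSB
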