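import Pool.Agent.NSB.BIN
import Pool.Agent.NSB.MAP
import Pool.Agent.NSB.WD

/-! Module NSB-SG: the volume functional of a direct sum of measures.  By the binomial formula the functional of `l₁.map T₁ + l₂.map T₂` is a sum
over the number `k` of vectors in `range T₁`; the volume vanishes unless `k = a - 1` or `k = a` (`a = finrank U₁`), and in these two cases
`T₁ w₁ + T₂ w₂` may be replaced by `T₁ w₁` or `T₂ w₂` (`wn_split`) and the volume is a product (`wn_det2`). -/

set_option autoImplicit false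

namespace Pool.Agent.NSB

open MeasureTheory ProbabilityTheory Set Filter Topology Metric
open Pool.Agent.Helper82.Proj1 (supp shadow kappa)
open Pool.Agent.HP89
open scoped RealInnerProductSpace ENNReal Pointwise

variable {V : Type*} [NormedAddCommGroup V] [InnerProductSpace ℝ V] [FiniteDimensional ℝ V]
  [MeasurableSpace V] [BorelSpace V]

private theorem SG_term {U₁ U₂ : Type*} [NormedAddCommGroup U₁] [InnerProductSpace ℝ U₁] [FiniteDimensional ℝ U₁]
    [MeasurableSpace U₁] [BorelSpace U₁] [NormedAddCommGroup U₂] [InnerProductSpace ℝ U₂] [FiniteDimensional ℝ U₂]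
    [MeasurableSpace U₂] [BorelSpace U₂] (T₁ : U₁ →ₗ[ℝ] V) (T₂ : U₂ →ₗ[ℝ] V) (l₁ : Measure U₁) (l₂ : Measure U₂)
    [IsFiniteMeasure l₁] [IsFiniteMeasure l₂] (k m : ℕ) (v : V) :
    iter (l₁.map T₁) k (iter (l₂.map T₂) m ew) [v] =
      iter l₁ k (fun X => iter l₂ m (fun Z => ew (Z.map T₂ ++ (X.map T₁ ++ [v]))) []) [] := by
  have hm1 : Measurable T₁ := T₁.continuous_of_finiteDimensional.measurable
  have hm2 : Measurable T₂ := T₂.continuous_of_finiteDimensional.measurable
  have h1 : LMeas (iter (l₂.map T₂) m (ew : List V → ℝ≥0∞)) := lmeas_ew.iter _ m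
  have h2 : LMeas (fun X : List V => iter (l₂.map T₂) m ew (X ++ [v])) := fun n => h1.app n [v]
  have h3 := iter_map hm1 l₁ h2 k []
  rw [iter_app]
  refine h3.trans ?_
  refine iter_congr' _ _ _ fun X _ => ?_
  have h4 : LMeas (fun Z : List V => ew (Z ++ (X.map T₁ ++ [v]))) := fun n => lmeas_ew.app n _
  have h5 := iter_map hm2 l₂ h4 m []
  rw [iter_app]
  exact h5

omit [MeasurableSpace V] [BorelSpace V] in
private theorem SG_proj {W : Submodule ℝ V} {X : List V} (hX : ∀ x ∈ X, x ∈ W) (hl : X.length = Module.finrank ℝ W) (Z : List V)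
    {v v' : V} (hv : v - v' ∈ W) : wn ((Z ++ [v]) ++ X) = wn ((Z ++ [v']) ++ X) := by
  rw [wn_split hX hl, wn_split hX hl, List.map_append, List.map_append, List.map_singleton, List.map_singleton]
  have h1 : Wᗮ.starProjection v = Wᗮ.starProjection v' := by
    have h2 : Wᗮ.starProjection (v - v') = 0 := by
      rw [Submodule.starProjection_apply_eq_zero_iff, Submodule.orthogonal_orthogonal]
      exact hv
    rw [map_sub] at h2
    exact sub_eq_zero.1 h2
  rw [h1]

theorem iter_sum {U₁ U₂ : Type*} [NormedAddCommGroup U₁] [InnerProductSpace ℝ U₁] [FiniteDimensional ℝ U₁]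
    [MeasurableSpace U₁] [BorelSpace U₁] [NormedAddCommGroup U₂] [InnerProductSpace ℝ U₂] [FiniteDimensional ℝ U₂]
    [MeasurableSpace U₂] [BorelSpace U₂]
    (T₁ : U₁ →ₗ[ℝ] V) (T₂ : U₂ →ₗ[ℝ] V) (h1 : Function.Injective T₁) (h2 : Function.Injective T₂)
    (hc : IsCompl (LinearMap.range T₁) (LinearMap.range T₂)) (hU₁ : 1 ≤ Module.finrank ℝ U₁) (hU₂ : 1 ≤ Module.finrank ℝ U₂) :
    ∃ e : ℝ≥0∞, e ≠ 0 ∧ e ≠ ⊤ ∧ ∀ (l₁ : Measure U₁) (l₂ : Measure U₂) [IsFiniteMeasure l₁] [IsFiniteMeasure l₂],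
      Integrable (fun x => ‖x‖) l₁ → Integrable (fun x => ‖x‖) l₂ → ∀ (w₁ : U₁) (w₂ : U₂), iter (l₁.map T₁ + l₂.map T₂) (Module.finrank ℝ V - 1) ew [T₁ w₁ + T₂ w₂] =
        e * (((Module.finrank ℝ V - 1).choose (Module.finrank ℝ U₁ - 1) : ℝ≥0∞) * iter l₂ (Module.finrank ℝ U₂) ew [] *
            iter l₁ (Module.finrank ℝ U₁ - 1) ew [w₁] +
          ((Module.finrank ℝ V - 1).choose (Module.finrank ℝ U₂ - 1) : ℝ≥0∞) * iter l₁ (Module.finrank ℝ U₁) ew [] *
            iter l₂ (Module.finrank ℝ U₂ - 1) ew [w₂]) := by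
  obtain ⟨e, he, hdet⟩ := wn_det2 T₁ T₂ h1 h2 hc
  have r1 : Module.finrank ℝ (LinearMap.range T₁) = Module.finrank ℝ U₁ := LinearMap.finrank_range_of_inj h1
  have r2 : Module.finrank ℝ (LinearMap.range T₂) = Module.finrank ℝ U₂ := LinearMap.finrank_range_of_inj h2
  have hd : Module.finrank ℝ (LinearMap.range T₁) + Module.finrank ℝ (LinearMap.range T₂) = Module.finrank ℝ V :=
    Submodule.finrank_add_eq_of_isCompl hc
  rw [r1, r2] at hd
  have he0 : ENNReal.ofReal e ≠ 0 := by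
    rw [Ne, ENNReal.ofReal_eq_zero, not_le]
    exact he
  refine ⟨ENNReal.ofReal e, he0, ENNReal.ofReal_ne_top, ?_⟩
  intro l₁ l₂ _ _ hi₁ hi₂ w₁ w₂
  have hm1 : ∀ X : List U₁, ∀ x ∈ X.map T₁, x ∈ LinearMap.range T₁ := by
    intro X x hx
    obtain ⟨y, -, rfl⟩ := List.mem_map.1 hx
    exact ⟨y, rfl⟩
  have hm2 : ∀ X : List U₂, ∀ x ∈ X.map T₂, x ∈ LinearMap.range T₂ := by
    intro X x hx
    obtain ⟨y, -, rfl⟩ := List.mem_map.1 hx
    exact ⟨y, rfl⟩
  -- permutations of the lists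
  have hp1 : ∀ (Z : List U₂) (X : List U₁) (v : V),
      wn (Z.map T₂ ++ (X.map T₁ ++ [v])) = wn ((Z.map T₂ ++ [v]) ++ X.map T₁) := by
    intro Z X v
    refine wn_perm ?_
    rw [List.append_assoc]
    exact List.Perm.append_left _ List.perm_append_comm
  have hp2 : ∀ (Z : List U₂) (X : List U₁) (v : V),
      wn (Z.map T₂ ++ (X.map T₁ ++ [v])) = wn ((X.map T₁ ++ [v]) ++ Z.map T₂) := fun Z X v =>
    wn_perm List.perm_append_comm
  generalize hv : T₁ w₁ + T₂ w₂ = v
  -- the two terms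
  have t1 : iter (l₁.map T₁) (Module.finrank ℝ U₁ - 1) (iter (l₂.map T₂) (Module.finrank ℝ U₂) ew) [v] =
      ENNReal.ofReal e * (iter l₂ (Module.finrank ℝ U₂) ew [] * iter l₁ (Module.finrank ℝ U₁ - 1) ew [w₁]) := by
    have hI := (iter_ew_lt_top l₂ hi₂ (Module.finrank ℝ U₂) []).ne
    rw [SG_term, iter_app l₁ _ ew [w₁], ← mul_assoc, ← iter_const_mul _ _ _ (ENNReal.mul_ne_top ENNReal.ofReal_ne_top hI)]
    refine iter_congr' _ _ _ fun X hX => ?_
    have h3 : iter l₂ (Module.finrank ℝ U₂) (fun Z => ew (Z.map T₂ ++ (X.map T₁ ++ [v]))) [] =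
        iter l₂ (Module.finrank ℝ U₂) (fun Z => (ENNReal.ofReal e * ew (X ++ [w₁])) * ew Z) [] := by
      refine iter_congr' _ _ _ fun Z hZ => ?_
      rw [List.length_nil, zero_add] at hX hZ
      have h4 : wn (Z.map T₂ ++ (X.map T₁ ++ [v])) = e * (wn Z * wn (X ++ [w₁])) := by
        rw [hp2, SG_proj (hm2 Z) (by rw [List.length_map, hZ, r2]) (X.map T₁) (v' := T₁ w₁) (by
          rw [← hv, add_sub_cancel_left]
          exact ⟨w₂, rfl⟩), ← hp2, ← List.map_singleton (f := (T₁ : U₁ → V)), ← List.map_append]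
        exact hdet Z (X ++ [w₁]) hZ (by
          rw [List.length_append, List.length_singleton, hX]
          omega)
      unfold ew
      rw [h4, ENNReal.ofReal_mul he.le, ENNReal.ofReal_mul (wn_nonneg _)]
      ring
    have h5 : ENNReal.ofReal e * ew (X ++ [w₁]) ≠ ⊤ := ENNReal.mul_ne_top ENNReal.ofReal_ne_top ENNReal.ofReal_ne_top
    rw [h3, iter_const_mul _ _ _ h5]
    ring
  have t2 : iter (l₁.map T₁) (Module.finrank ℝ U₁) (iter (l₂.map T₂) (Module.finrank ℝ U₂ - 1) ew) [v] =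
      ENNReal.ofReal e * (iter l₁ (Module.finrank ℝ U₁) ew [] * iter l₂ (Module.finrank ℝ U₂ - 1) ew [w₂]) := by
    have hI := (iter_ew_lt_top l₂ hi₂ (Module.finrank ℝ U₂ - 1) [w₂]).ne
    rw [SG_term, mul_comm (iter l₁ (Module.finrank ℝ U₁) ew []), ← mul_assoc,
      ← iter_const_mul _ _ _ (ENNReal.mul_ne_top ENNReal.ofReal_ne_top hI)]
    refine iter_congr' _ _ _ fun X hX => ?_
    have h3 : iter l₂ (Module.finrank ℝ U₂ - 1) (fun Z => ew (Z.map T₂ ++ (X.map T₁ ++ [v]))) [] =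
        iter l₂ (Module.finrank ℝ U₂ - 1) (fun Z => (ENNReal.ofReal e * ew X) * ew (Z ++ [w₂])) [] := by
      refine iter_congr' _ _ _ fun Z hZ => ?_
      rw [List.length_nil, zero_add] at hX hZ
      have h4 : wn (Z.map T₂ ++ (X.map T₁ ++ [v])) = e * (wn (Z ++ [w₂]) * wn X) := by
        rw [hp1, SG_proj (hm1 X) (by rw [List.length_map, hX, r1]) (Z.map T₂) (v' := T₂ w₂) (by
          rw [← hv, add_sub_cancel_right]
          exact ⟨w₁, rfl⟩), ← List.map_singleton (f := (T₂ : U₂ → V)), ← List.map_append]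
        exact hdet (Z ++ [w₂]) X (by
          rw [List.length_append, List.length_singleton, hZ]
          omega) hX
      unfold ew
      rw [h4, ENNReal.ofReal_mul he.le, ENNReal.ofReal_mul (wn_nonneg _)]
      ring
    have h5 : ENNReal.ofReal e * ew X ≠ ⊤ := ENNReal.mul_ne_top ENNReal.ofReal_ne_top ENNReal.ofReal_ne_top
    rw [h3, iter_const_mul _ _ _ h5, ← iter_app]
    ring
  have t0 : ∀ k ∈ Finset.range (Module.finrank ℝ V - 1 + 1), k ≠ Module.finrank ℝ U₁ - 1 → k ≠ Module.finrank ℝ U₁ →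
      iter (l₁.map T₁) k (iter (l₂.map T₂) (Module.finrank ℝ V - 1 - k) ew) [v] = 0 := by
    intro k hk hk1 hk2
    rw [SG_term]
    have hk' : k < Module.finrank ℝ V - 1 + 1 := Finset.mem_range.1 hk
    have h3 : iter l₁ k (fun X => iter l₂ (Module.finrank ℝ V - 1 - k)
        (fun Z => ew (Z.map T₂ ++ (X.map T₁ ++ [v]))) []) [] =
        iter l₁ k (fun X => 0 * iter l₂ (Module.finrank ℝ V - 1 - k) (fun Z => 0 * ew Z) []) [] := by
      refine iter_congr' _ _ _ fun X hX => ?_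
      rw [List.length_nil, zero_add] at hX
      rw [zero_mul]
      have h5 : iter l₂ (Module.finrank ℝ V - 1 - k) (fun Z => ew (Z.map T₂ ++ (X.map T₁ ++ [v]))) [] =
          iter l₂ (Module.finrank ℝ V - 1 - k) (fun Z => 0 * ew Z) [] := by
        refine iter_congr' _ _ _ fun Z hZ => ?_
        rw [List.length_nil, zero_add] at hZ
        have h4 : wn (Z.map T₂ ++ (X.map T₁ ++ [v])) = 0 := by
          rcases Nat.lt_or_ge (Module.finrank ℝ U₁) k with h6 | h6
          · rw [hp1]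
            refine wn_zero_of_many (hm1 X) ?_ _
            rw [List.length_map, r1, hX]
            exact h6
          · rw [hp2]
            refine wn_zero_of_many (hm2 Z) ?_ _
            rw [List.length_map, r2, hZ]
            omega
        unfold ew
        rw [h4, ENNReal.ofReal_zero, zero_mul]
      rw [h5, iter_const_mul _ _ _ ENNReal.zero_ne_top, zero_mul]
    rw [h3, iter_const_mul _ _ _ ENNReal.zero_ne_top, zero_mul]
  rw [iter_binom _ _ lmeas_ew (fun Z Z' h => by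
    unfold ew
    rw [wn_perm h])]
  have hsub : ({Module.finrank ℝ U₁ - 1, Module.finrank ℝ U₁} : Finset ℕ) ⊆ Finset.range (Module.finrank ℝ V - 1 + 1) := by
    intro k hk
    rw [Finset.mem_insert, Finset.mem_singleton] at hk
    rw [Finset.mem_range]
    omega
  rw [← Finset.sum_subset hsub fun k hk hk' => by
    rw [Finset.mem_insert, Finset.mem_singleton, not_or] at hk'
    rw [t0 k hk hk'.1 hk'.2, mul_zero], Finset.sum_pair (by omega)]
  have e1 : Module.finrank ℝ V - 1 - (Module.finrank ℝ U₁ - 1) = Module.finrank ℝ U₂ := by omega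
  have e2 : Module.finrank ℝ V - 1 - Module.finrank ℝ U₁ = Module.finrank ℝ U₂ - 1 := by omega
  have e3 : (Module.finrank ℝ V - 1).choose (Module.finrank ℝ U₁) = (Module.finrank ℝ V - 1).choose (Module.finrank ℝ U₂ - 1) :=
    Nat.choose_symm_of_eq_add (by omega)
  rw [e1, e2, t1, t2, e3]
  ring

end Pool.Agent.NSB
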